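import Pool.Agent.H99B.Kap

set_option autoImplicit false

/-! Consequences: the endpoint leaves the base, single end vertices, the limit for `n = 0`. -/

namespace Pool.Agent.H99B

open H978R2.Hex Real

theorem Pr.cos_gt {κ n x : ℝ} (hp : Pr κ n x) (hk : 3 < κ) : 0 < 1 + 2 * cos (2 * π / κ) := by
  have hpi := pi_pos
  have h1 := hp.ang
  have h2 : π / κ < π / 3 := div_lt_div_of_pos_left hpi (by norm_num) hk
  have e : 2 * π / κ = 2 * (π / κ) := by ring
  have h3 : cos (2 * π / 3) < cos (2 * (π / κ)) :=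
    cos_lt_cos_of_nonneg_of_le_pi (by linarith) (by linarith) (by linarith)
  have h4 : cos (2 * π / 3) = -(1 / 2) := by
    have e2 : 2 * π / 3 = π - π / 3 := by ring
    rw [e2, cos_pi_sub, cos_pi_div_three]
  rw [e]
  linarith

theorem Pr.cos_ge {κ n x : ℝ} (hp : Pr κ n x) (hk : 3 ≤ κ) : 0 ≤ 1 + 2 * cos (2 * π / κ) := by
  have hpi := pi_pos
  have h1 := hp.ang
  have h2 : π / κ ≤ π / 3 := div_le_div_of_nonneg_left hpi.le (by norm_num) hk
  have e : 2 * π / κ = 2 * (π / κ) := by ring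
  have h3 : cos (2 * π / 3) ≤ cos (2 * (π / κ)) :=
    cos_le_cos_of_nonneg_of_le_pi (by linarith) (by linarith) (by linarith)
  have h4 : cos (2 * π / 3) = -(1 / 2) := by
    have e2 : 2 * π / 3 = π - π / 3 := by ring
    rw [e2, cos_pi_sub, cos_pi_div_three]
  rw [e]
  linarith

/-- in a trapezoid -/
theorem off_base {κ n x : ℝ} (hp : Pr κ n x) {p q h : ℕ} (hh : 1 ≤ h) :
    sin (3 * π / κ) * (Zw n x (Tz p q h) Bp + Zw n x (Tz p q h) Bm) <
      Zw n x (Tz p q h) (Sp p) + Zw n x (Tz p q h) (Sm q) + Zw n x (Tz p q h) (Tp h) := by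
  have hn := hp.n_nonneg
  have hx := hp.hx
  have hs := hp.sin_pos
  have hL := Lam_pos hn hx.le (Tz p q h)
  have r := (rel hp (p := p) (q := q) hh).1
  have h1 := Zw_nonneg hn hx.le (Tz p q h) (Sp p)
  have h2 := Zw_nonneg hn hx.le (Tz p q h) (Sm q)
  have h3 := Zw_nonneg hn hx.le (Tz p q h) (Tp h)
  have e3 : sin (3 * π / κ) = sin (π / κ) * (1 + 2 * cos (2 * π / κ)) := by
    have e : 3 * π / κ = 3 * (π / κ) := by ring
    have e2 : 2 * π / κ = 2 * (π / κ) := by ring
    rw [e, e2, sin_three_mul, cos_two_mul]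
    have := sin_sq_add_cos_sq (π / κ)
    linear_combination (-4 * sin (π / κ)) * this
  have hxx := hp.hxx
  have hsle : sin (π / κ) ≤ 1 := sin_le_one _
  have hx2 : 0 < x ^ 2 := by positivity
  have key : sin (π / κ) * (Zw n x (Tz p q h) (Sp p) + Zw n x (Tz p q h) (Sm q) +
      2 * x * Zw n x (Tz p q h) (Tp h)) ≤
      Zw n x (Tz p q h) (Sp p) + Zw n x (Tz p q h) (Sm q) + Zw n x (Tz p q h) (Tp h) := by
    have e : sin (π / κ) * (2 * x * Zw n x (Tz p q h) (Tp h)) = Zw n x (Tz p q h) (Tp h) := by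
      linear_combination (Zw n x (Tz p q h) (Tp h)) * hxx
    nlinarith
  rw [r] at key
  rw [e3]
  have hL0 : 0 < Lam n x (Tz p q h) := by linarith
  have hpos : 0 < sin (π / κ) * (2 * x ^ 2 * Lam n x (Tz p q h)) :=
    mul_pos hs (mul_pos (by linarith) hL0)
  nlinarith

/-- in a triangle -/
theorem off_base_tri {κ n x : ℝ} (hp : Pr κ n x) {p q h : ℕ} (hh : p + q + 1 ≤ h) :
    4 * cos (π / κ) ^ 2 * (Zw n x (Tz p q h) Bp + Zw n x (Tz p q h) Bm) + 2 * x ^ 2 *
      Lam n x (Tz p q h) = Zw n x (Tz p q h) Bp + Zw n x (Tz p q h) Bm +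
      (Zw n x (Tz p q h) (Sp p) + Zw n x (Tz p q h) (Sm q)) := by
  have h1 : 1 ≤ h := by omega
  have r := (rel hp (p := p) (q := q) h1).1
  rw [top_zero n x hh] at r
  have e : 4 * cos (π / κ) ^ 2 = 2 + 2 * cos (2 * π / κ) := by
    have e2 : 2 * π / κ = 2 * (π / κ) := by ring
    rw [e2, cos_two_mul]
    ring
  rw [e]
  linear_combination -r

/-- the start next to the lower corner of the triangle -/
theorem corner {κ n x : ℝ} (hp : Pr κ n x) {p h : ℕ} (hh : p + 1 ≤ h) :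
    Zw n x (Tz p 0 h) (Sm 0) = Zw n x (Tz p 0 h) Bp + x ^ 2 * Lam n x (Tz p 0 h) ∧
    Zw n x (Tz p 0 h) (Sp p) =
      2 * cos (2 * π / κ) * Zw n x (Tz p 0 h) Bp + x ^ 2 * Lam n x (Tz p 0 h) := by
  have h1 : 1 ≤ h := by omega
  obtain ⟨r1, r2⟩ := rel hp (p := p) (q := 0) h1
  rw [top_zero n x (by omega)] at r1
  have hB : Zw n x (Tz p 0 h) Bm = 0 := by
    rw [Zw_Tz n x h1 Bm]
    · have : Ms n x (Tz p 0 h) Bm = 0 := by
        unfold Ms
        refine Finset.sum_eq_zero fun m _ => ?_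
        have he : (Ld (Tz p 0 h) m).filter (fun l => Bm (l.headD (0, 0))) = ∅ := by
          rw [Finset.eq_empty_iff_forall_notMem]
          intro l hl
          rw [Finset.mem_filter] at hl
          obtain ⟨z, v, hz, hv, ha, -, -⟩ := class_Tz h1 hl.1
          have hT := hl.2
          rw [hz] at hT
          rw [mem_Tz] at hv
          have := adj_cases ha
          unfold Bm at hT
          push_cast at hv
          omega
        rw [he, Finset.sum_empty, mul_zero]
      rw [this, mul_zero]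
    · intro z hz hzD
      rw [mem_Tz] at hzD
      unfold Bm at hz
      omega
  rw [hB] at r1 r2
  constructor
  · linear_combination (1 / 2) * r1 - (1 / 2) * r2
  · linear_combination (1 / 2) * r1 + (1 / 2) * r2

/-- splitting according to the end vertex -/
theorem Ms_split (n x : ℝ) (D : Finset V) (R : V → Prop) [DecidablePred R] (F : Finset V)
    (hF : ∀ z ∈ F, R z) (hR : ∀ m, ∀ l ∈ Ld D m, R (l.headD (0, 0)) → l.headD (0, 0) ∈ F) :
    Ms n x D R = ∑ z ∈ F, Ms n x D (fun w => w = z) := by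
  unfold Ms
  rw [Finset.sum_comm]
  refine Finset.sum_congr rfl fun m _ => ?_
  rw [← Finset.mul_sum]
  congr 1
  have hmap : ∀ l ∈ (Ld D m).filter (fun l => R (l.headD (0, 0))), l.headD (0, 0) ∈ F := by
    intro l hl
    rw [Finset.mem_filter] at hl
    exact hR m l hl.1 hl.2
  rw [← Finset.sum_fiberwise_of_maps_to hmap]
  refine Finset.sum_congr rfl fun z hz => ?_
  refine Finset.sum_congr ?_ fun _ _ => rfl
  rw [Finset.filter_filter]
  refine Finset.filter_congr fun l _ => ?_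
  constructor
  · exact fun h => h.2
  · intro h
    exact ⟨by rw [h]; exact hF z hz, h⟩

/-- some end vertex on the other sides has a weight which is not small -/
theorem one_vertex {κ n x : ℝ} (hp : Pr κ n x) (hk : 3 ≤ κ) {p q h : ℕ} (hh : p + q + 1 ≤ h) :
    ∃ z, (Sp p z ∨ Sm q z) ∧
      x ^ 2 / (p + q + 1) * Lam n x (Tz p q h) ≤ Zw n x (Tz p q h) (fun w => w = z) := by
  have hN : (0 : ℝ) < (p : ℝ) + q + 1 := by positivity
  have h1 : 1 ≤ h := by omega
  have hn := hp.n_nonneg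
  have hx := hp.hx
  have hL := Lam_pos hn hx.le (Tz p q h)
  have hL0 : 0 < Lam n x (Tz p q h) := lt_of_lt_of_le one_pos hL
  have r := (rel hp (p := p) (q := q) h1).1
  rw [top_zero n x hh] at r
  have hB1 := Zw_nonneg hn hx.le (Tz p q h) Bp
  have hB2 := Zw_nonneg hn hx.le (Tz p q h) Bm
  have hc := hp.cos_ge hk
  have hS : 2 * x ^ 2 * Lam n x (Tz p q h) ≤
      Zw n x (Tz p q h) (Sp p) + Zw n x (Tz p q h) (Sm q) := by
    have := mul_nonneg hc (add_nonneg hB1 hB2)
    linarith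
  have nSp : ∀ z, Sp p z → z ∉ Tz p q h := by
    intro z hz hzD
    rw [mem_Tz] at hzD
    unfold Sp at hz
    omega
  have nSm : ∀ z, Sm q z → z ∉ Tz p q h := by
    intro z hz hzD
    rw [mem_Tz] at hzD
    unfold Sm at hz
    omega
  obtain ⟨F1, hF1⟩ : ∃ F1, F1 = (Finset.Icc (-(q : ℤ)) p).image
      (fun j => ((2 * p + 2 - j, j) : V)) := ⟨_, rfl⟩
  obtain ⟨F2, hF2⟩ : ∃ F2, F2 = (Finset.range (p + q + 1)).image
      (fun i : ℕ => ((1 - (q : ℤ) + 2 * i, -(q : ℤ) - 1) : V)) := ⟨_, rfl⟩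
  have c1 : (F1.card : ℝ) ≤ p + q + 1 := by
    have h2 : F1.card ≤ p + q + 1 := by
      rw [hF1]
      refine Finset.card_image_le.trans ?_
      rw [Int.card_Icc]
      omega
    exact_mod_cast h2
  have c2 : (F2.card : ℝ) ≤ p + q + 1 := by
    have h2 : F2.card ≤ p + q + 1 := by
      rw [hF2]
      refine Finset.card_image_le.trans ?_
      rw [Finset.card_range]
    exact_mod_cast h2
  have m1 : ∀ z ∈ F1, Sp p z := by
    intro z hz
    rw [hF1, Finset.mem_image] at hz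
    obtain ⟨j, -, rfl⟩ := hz
    unfold Sp
    simp only
    ring
  have m2 : ∀ z ∈ F2, Sm q z := by
    intro z hz
    rw [hF2, Finset.mem_image] at hz
    obtain ⟨j, -, rfl⟩ := hz
    rfl
  have s1 : Ms n x (Tz p q h) (Sp p) = ∑ z ∈ F1, Ms n x (Tz p q h) (fun w => w = z) := by
    refine Ms_split n x _ _ F1 m1 fun m l hl hR => ?_
    obtain ⟨z, v, hz, hv, ha, -, -⟩ := class_Tz h1 hl
    rw [hz] at hR ⊢
    rw [hF1, Finset.mem_image]
    rw [mem_Tz] at hv
    have := adj_cases ha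
    unfold Sp at hR
    refine ⟨z.2, ?_, ?_⟩
    · rw [Finset.mem_Icc]; omega
    · apply Prod.ext
      · simp only; omega
      · rfl
  have s2 : Ms n x (Tz p q h) (Sm q) = ∑ z ∈ F2, Ms n x (Tz p q h) (fun w => w = z) := by
    refine Ms_split n x _ _ F2 m2 fun m l hl hR => ?_
    obtain ⟨z, v, hz, hv, ha, -, -⟩ := class_Tz h1 hl
    rw [hz] at hR ⊢
    rw [hF2, Finset.mem_image]
    rw [mem_Tz] at hv
    have := adj_cases ha
    unfold Sm at hR
    refine ⟨((z.1 - 1 + q) / 2).toNat, ?_, ?_⟩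
    · rw [Finset.mem_range]; omega
    · apply Prod.ext
      · simp only; omega
      · simp only; omega
  by_contra hcon
  push Not at hcon
  have e1 := Zw_Tz n x h1 (Sp p) nSp
  have e2 := Zw_Tz n x h1 (Sm q) nSm
  have b0 : 0 < x ^ 2 / (p + q + 1) * Lam n x (Tz p q h) :=
    mul_pos (div_pos (pow_pos hx 2) hN) hL0
  have b1 : ∀ z ∈ F1, x * Ms n x (Tz p q h) (fun w => w = z) <
      x ^ 2 / (p + q + 1) * Lam n x (Tz p q h) := by
    intro z hz
    have := hcon z (Or.inl (m1 z hz))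
    rw [Zw_Tz n x h1 (fun w => w = z) (by rintro w rfl; exact nSp w (m1 w hz))] at this
    exact this
  have b2 : ∀ z ∈ F2, x * Ms n x (Tz p q h) (fun w => w = z) <
      x ^ 2 / (p + q + 1) * Lam n x (Tz p q h) := by
    intro z hz
    have := hcon z (Or.inr (m2 z hz))
    rw [Zw_Tz n x h1 (fun w => w = z) (by rintro w rfl; exact nSm w (m2 w hz))] at this
    exact this
  have ne1 : F1.Nonempty := by
    rw [hF1]
    exact Finset.Nonempty.image ⟨0, by rw [Finset.mem_Icc]; omega⟩ _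
  have t1 : x * ∑ z ∈ F1, Ms n x (Tz p q h) (fun w => w = z) <
      F1.card * (x ^ 2 / (p + q + 1) * Lam n x (Tz p q h)) := by
    rw [Finset.mul_sum, ← nsmul_eq_mul, ← Finset.sum_const]
    exact Finset.sum_lt_sum_of_nonempty ne1 b1
  have t2 : x * ∑ z ∈ F2, Ms n x (Tz p q h) (fun w => w = z) ≤
      F2.card * (x ^ 2 / (p + q + 1) * Lam n x (Tz p q h)) := by
    rw [Finset.mul_sum, ← nsmul_eq_mul, ← Finset.sum_const]
    exact Finset.sum_le_sum fun z hz => (b2 z hz).le
  rw [← s1, ← e1] at t1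
  rw [← s2, ← e2] at t2
  have t3 : (F1.card : ℝ) * (x ^ 2 / (p + q + 1) * Lam n x (Tz p q h)) ≤
      x ^ 2 * Lam n x (Tz p q h) := by
    calc (F1.card : ℝ) * (x ^ 2 / (p + q + 1) * Lam n x (Tz p q h))
        ≤ (p + q + 1) * (x ^ 2 / (p + q + 1) * Lam n x (Tz p q h)) :=
          mul_le_mul_of_nonneg_right c1 b0.le
      _ = x ^ 2 * Lam n x (Tz p q h) := by
          rw [← mul_assoc, mul_div_cancel₀ _ hN.ne']
  have t4 : (F2.card : ℝ) * (x ^ 2 / (p + q + 1) * Lam n x (Tz p q h)) ≤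
      x ^ 2 * Lam n x (Tz p q h) := by
    calc (F2.card : ℝ) * (x ^ 2 / (p + q + 1) * Lam n x (Tz p q h))
        ≤ (p + q + 1) * (x ^ 2 / (p + q + 1) * Lam n x (Tz p q h)) :=
          mul_le_mul_of_nonneg_right c2 b0.le
      _ = x ^ 2 * Lam n x (Tz p q h) := by
          rw [← mul_assoc, mul_div_cancel₀ _ hN.ne']
  linarith

end Pool.Agent.H99B
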