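import Pool.Agent.H99B.Fin
import Pool.Agent.H978R2.Hex.Class

set_option autoImplicit false

/-! Trapezoids and triangles: the sides and the turning of the walks which end there. -/

namespace Pool.Agent.H99B

open H978R2.Hex Complex

/-- the trapezoid with base `x - y = 1`, sides `x + y = 2 p + 1` and `y = - q`, top `x - y = 2 h` -/
noncomputable def Tz (p q h : ℕ) : Finset V :=
  (Finset.Icc (1 - (q : ℤ)) (2 * p + 1 + q) ×ˢ Finset.Icc (-(q : ℤ)) p).filter
    (fun v => 1 ≤ v.1 - v.2 ∧ v.1 - v.2 ≤ 2 * h ∧ v.1 + v.2 ≤ 2 * p + 1)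

theorem mem_Tz {p q h : ℕ} {v : V} : v ∈ Tz p q h ↔
    1 ≤ v.1 - v.2 ∧ v.1 - v.2 ≤ 2 * h ∧ v.1 + v.2 ≤ 2 * p + 1 ∧ -(q : ℤ) ≤ v.2 := by
  unfold Tz
  rw [Finset.mem_filter, Finset.mem_product, Finset.mem_Icc, Finset.mem_Icc]
  constructor
  · rintro ⟨⟨⟨h1, h2⟩, h3, h4⟩, h5, h6, h7⟩
    exact ⟨h5, h6, h7, h3⟩
  · rintro ⟨h1, h2, h3, h4⟩
    refine ⟨⟨⟨by omega, by omega⟩, h4, by omega⟩, h1, h2, h3⟩

theorem base_Tz {p q h : ℕ} (hh : 1 ≤ h) : (1, 0) ∈ Tz p q h := by
  rw [mem_Tz]
  simp only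
  omega

theorem slit_Tz {p q h : ℕ} : ∀ v ∈ Tz p q h, ¬ Slit v := by
  intro v hv hs
  rw [mem_Tz] at hv
  unfold Slit at hs
  omega

/-- the parameters of the trapezoid -/
def par (p q h : ℕ) : Par where
  a4 := 2
  c3 := 1
  R := p + 5
  b := 2 * p + 1
  d := 2 * h
  Q := q
  a2 := -2 * q - 4
  c1 := 1

theorem par_ok {p q h : ℕ} (hh : 1 ≤ h) : Ok (par p q h) := by
  constructor <;> simp only [par] <;> omega

theorem par_om {p q h : ℕ} (v : V) : v ∈ Tz p q h ↔ Om (par p q h) v := by
  rw [mem_Tz]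
  unfold Om
  simp only [par]
  constructor
  · rintro ⟨h1, h2, h3, h4⟩
    refine ⟨by omega, by omega, by omega, by omega, ?_, ?_, ?_⟩
    · intro h; omega
    · intro h; omega
    · intro h; omega
  · rintro ⟨h1, h2, h3, h4, h5, h6, h7⟩
    rcases lt_trichotomy v.2 0 with h0 | h0 | h0
    · have := h7 (by omega)
      omega
    · have := h6 h0
      omega
    · have := h5 (by omega)
      omega

theorem pred_eq (p q h : ℕ) : (fun v => v ∈ Tz p q h) = Om (par p q h) :=
  funext fun v => propext (par_om v)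

/-- end vertices next to the base, on the two sides of the start -/
def Bp (z : V) : Prop := z.1 = z.2 ∧ 0 < z.2
def Bm (z : V) : Prop := z.1 = z.2 ∧ z.2 < 0
/-- end vertices next to the sides -/
def Sp (p : ℕ) (z : V) : Prop := z.1 + z.2 = 2 * p + 2
def Sm (q : ℕ) (z : V) : Prop := z.2 = -(q : ℤ) - 1
/-- end vertices next to the top -/
def Tp (h : ℕ) (z : V) : Prop := z.1 - z.2 = 2 * h + 1

instance : DecidablePred Bp := fun z => by unfold Bp; infer_instance
instance : DecidablePred Bm := fun z => by unfold Bm; infer_instance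
instance (p : ℕ) : DecidablePred (Sp p) := fun z => by unfold Sp; infer_instance
instance (q : ℕ) : DecidablePred (Sm q) := fun z => by unfold Sm; infer_instance
instance (h : ℕ) : DecidablePred (Tp h) := fun z => by unfold Tp; infer_instance

/-- the last step of a landing walk -/
theorem Ld_struct {D : Finset V} (h1 : (1, 0) ∈ D) {m : ℕ} {l : List V} (hl : l ∈ Ld D m) :
    ∃ z v x t, l = z :: v :: x :: t ∧ v ∈ D ∧ Adj v z ∧ z ≠ x ∧ z ∉ D ∧
      Good (· ∈ D) z (v :: x :: t) ∧ (v :: x :: t).length = m + 1 := by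
  unfold Ld at hl
  rw [Finset.mem_filter] at hl
  obtain ⟨hP, hz⟩ := hl
  obtain ⟨z, t, rfl, hg, hlen⟩ := good_of_mem hP
  simp only [List.headD_cons] at hz
  match t, hg, hlen with
  | [], _, hlen => simp at hlen
  | [y], hg, hlen =>
    exfalso
    have h2 := hg.suff
    have h3 : [((1, 0) : V), (0, 0)] = [z, y] := h2.eq_of_length (by simp)
    simp only [List.cons.injEq, and_true] at h3
    rw [← h3.1] at hz
    exact hz h1
  | v :: x :: t, hg, hlen =>
    refine ⟨z, v, x, t, rfl, ?_, ?_, hg.nb v x t rfl, hz, hg, hlen⟩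
    · exact hg.om v (by rw [List.dropLast_cons_cons]; exact List.mem_cons_self)
    · have := hg.chain
      rw [List.isChain_cons_cons] at this
      exact this.1

theorem adj_cases {v z : V} (h : Adj v z) :
    (z.2 = v.2 ∧ (z.1 = v.1 + 1 ∨ z.1 = v.1 - 1)) ∨
    (z.1 = v.1 ∧ ((z.2 = v.2 + 1 ∧ (v.1 + v.2) % 2 = 0) ∨ (z.2 = v.2 - 1 ∧ (z.1 + z.2) % 2 = 0))) := by
  obtain ⟨a, b⟩ := v
  obtain ⟨c, d⟩ := z
  simp only [Adj, Prod.mk.injEq, Prod.mk_sub_mk, Int.even_iff] at h ⊢
  omega

/-- the turning of a walk is determined by the side where it ends -/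
theorem class_Tz {p q h : ℕ} (hh : 1 ≤ h) {m : ℕ} {l : List V} (hl : l ∈ Ld (Tz p q h) m) :
    ∃ z v, l.headD (0, 0) = z ∧ v ∈ Tz p q h ∧ Adj v z ∧ z ≠ (0, 0) ∧
    ((W l = 3 ∧ Bp z) ∨ (W l = -3 ∧ Bm z) ∨ (W l = 1 ∧ Sp p z) ∨ (W l = -1 ∧ Sm q z) ∨
      (W l = 0 ∧ Tp h z)) := by
  obtain ⟨z, v, x, t, rfl, hv, ha, hzx, hz, hg, hlen⟩ := Ld_struct (base_Tz hh) hl
  refine ⟨z, v, rfl, hv, ha, ?_, ?_⟩
  · rintro rfl
    rw [mem_Tz] at hv
    have hc := adj_cases ha
    have hv1 : v = (1, 0) := by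
      apply Prod.ext
      · simp only at hc ⊢; omega
      · simp only at hc ⊢; omega
    subst hv1
    have hs := hg.suff
    have hnd := hg.nodup
    -- `(1,0)` is the first vertex, so the walk has only one vertex
    have h2 : [((1, 0) : V), (0, 0)] <:+ (1, 0) :: x :: t :=
      List.suffix_of_suffix_length_le hs (List.suffix_cons _ _) (by simp)
    obtain ⟨s, hs2⟩ := h2
    match s, hs2 with
    | [], hs2 =>
      simp only [List.nil_append, List.cons.injEq, true_and] at hs2
      exact hzx hs2.1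
    | a :: s, hs2 =>
      simp only [List.cons_append, List.cons.injEq] at hs2
      obtain ⟨rfl, hs2⟩ := hs2
      rw [List.nodup_cons] at hnd
      apply hnd.1
      rw [← hs2]
      simp
  · have hP := (Finset.mem_filter.1 hl).1
    have hval := H978R2.Hex.mem_P.1 hP
    have hval2 : Val (Om (par p q h)) (z :: v :: x :: t) := by
      rw [← pred_eq]
      exact hval.1
    have hP2 : z :: v :: x :: t ∈ P (Om (par p q h)) m := H978R2.Hex.mem_P.2 ⟨hval2, hval.2⟩
    have hO : ¬ Om (par p q h) ((z :: v :: x :: t).headD (0, 0)) := by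
      simp only [List.headD_cons]
      intro hc
      exact hz ((par_om z).2 hc)
    have hout := class_om (par p q h) (par_ok hh) m _ hP2 hO
    simp only [List.headD_cons] at hout
    have hz0 : ¬ (z.1 = 0 ∧ z.2 = 0) := by
      rintro ⟨e1, e2⟩
      have hz00 : z = (0, 0) := Prod.ext e1 e2
      subst hz00
      rw [mem_Tz] at hv
      have hc := adj_cases ha
      have hv1 : v = (1, 0) := by
        apply Prod.ext
        · simp only at hc ⊢; omega
        · simp only at hc ⊢; omega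
      subst hv1
      have hs := hg.suff
      have hnd := hg.nodup
      have h2 : [((1, 0) : V), (0, 0)] <:+ (1, 0) :: x :: t :=
        List.suffix_of_suffix_length_le hs (List.suffix_cons _ _) (by simp)
      obtain ⟨s, hs2⟩ := h2
      match s, hs2 with
      | [], hs2 =>
        simp only [List.nil_append, List.cons.injEq, true_and] at hs2
        exact hzx hs2.1
      | a :: s, hs2 =>
        simp only [List.cons_append, List.cons.injEq] at hs2
        obtain ⟨rfl, hs2⟩ := hs2
        rw [List.nodup_cons] at hnd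
        apply hnd.1
        rw [← hs2]
        simp
    rw [mem_Tz] at hv
    have hc := adj_cases ha
    generalize W (z :: v :: x :: t) = w at hout ⊢
    unfold Out at hout
    simp only [par, Slit] at hout
    unfold Bp Bm Sp Sm Tp
    clear hl hP hval hval2 hP2 hO hg hlen hz
    rcases hout with ⟨e, e1⟩ | ⟨e, e1⟩ | ⟨e, e1⟩ | ⟨e, e1⟩ | ⟨e, e1⟩ | ⟨e, e1⟩ | ⟨e, e1⟩ |
      ⟨e, e1⟩ | ⟨e, e1⟩ | ⟨e, e1⟩
    · exfalso; omega
    · exfalso; omega
    · exfalso; omega
    · left; omega
    · exfalso; omega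
    · right; right; left; omega
    · right; right; right; right; omega
    · right; right; right; left; omega
    · exfalso; omega
    · right; left; omega

end Pool.Agent.H99B
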