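import Pool.Agent.H978R2.Hex.Trap

set_option autoImplicit false

/-! Edge sets of lattice paths and circuits. -/

namespace Pool.Agent.H99B

open H978R2.Hex

/-- the edges of the path through the vertices of a list -/
def edges : List V → Finset (Sym2 V)
  | a :: b :: t => insert s(a, b) (edges (b :: t))
  | _ => ∅

@[simp] theorem edges_nil : edges [] = ∅ := rfl

@[simp] theorem edges_one (a : V) : edges [a] = ∅ := rfl

theorem edges_cons (a b : V) (t : List V) : edges (a :: b :: t) = insert s(a, b) (edges (b :: t)) :=
  rfl

theorem edges_append (X : List V) (a : V) (Y : List V) :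
    edges (X ++ a :: Y) = edges (X ++ [a]) ∪ edges (a :: Y) := by
  induction X with
  | nil => simp
  | cons u X ih =>
    match X, ih with
    | [], _ => simp [edges_cons]
    | v :: X, ih =>
      simp only [List.cons_append] at ih ⊢
      rw [edges_cons, edges_cons, ih, Finset.insert_union]

theorem mem_of_edges {L : List V} {e : Sym2 V} (he : e ∈ edges L) {v : V} (hv : v ∈ e) : v ∈ L := by
  induction L with
  | nil => simp at he
  | cons a L ih =>
    match L, ih, he with
    | [], _, he => simp at he
    | b :: t, ih, he =>
      rw [edges_cons, Finset.mem_insert] at he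
      rcases he with rfl | he
      · rw [Sym2.mem_iff] at hv
        rcases hv with rfl | rfl <;> simp
      · exact List.mem_cons_of_mem _ (ih he)

theorem exists_edge {L : List V} (hL : 2 ≤ L.length) {v : V} (hv : v ∈ L) :
    ∃ e ∈ edges L, v ∈ e := by
  induction L with
  | nil => simp at hv
  | cons a L ih =>
    match L, ih, hL, hv with
    | [], _, hL, _ => simp at hL
    | b :: t, ih, _, hv =>
      rcases List.mem_cons.1 hv with rfl | hv
      · exact ⟨s(v, b), by rw [edges_cons]; exact Finset.mem_insert_self _ _, Sym2.mem_mk_left _ _⟩
      · match t, ih, hv with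
        | [], _, hv =>
          rw [List.mem_singleton] at hv
          subst hv
          exact ⟨s(a, v), by rw [edges_cons]; exact Finset.mem_insert_self _ _,
            Sym2.mem_mk_right _ _⟩
        | c :: t, ih, hv =>
          obtain ⟨e, h1, h2⟩ := ih (by simp) hv
          exact ⟨e, by rw [edges_cons]; exact Finset.mem_insert_of_mem h1, h2⟩

theorem edges_reverse (L : List V) : edges L.reverse = edges L := by
  induction L with
  | nil => rfl
  | cons a L ih =>
    match L, ih with
    | [], _ => rfl
    | b :: t, ih =>
      rw [List.reverse_cons, List.reverse_cons, List.append_assoc, List.singleton_append,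
        edges_append, edges_cons, edges_one, edges_cons]
      rw [List.reverse_cons] at ih
      rw [ih, Finset.union_comm, Finset.insert_union, Finset.empty_union, Sym2.eq_swap]

/-- the only neighbour of the first vertex -/
theorem head_edge {a b y : V} {t : List V} (hn : (a :: b :: t).Nodup)
    (h : s(a, y) ∈ edges (a :: b :: t)) : y = b := by
  rw [edges_cons, Finset.mem_insert] at h
  rcases h with h | h
  · rw [Sym2.eq_iff] at h
    rcases h with ⟨-, h⟩ | ⟨h, h'⟩
    · exact h
    · rw [h', h]
  · exfalso
    exact (List.nodup_cons.1 hn).1 (mem_of_edges h (Sym2.mem_mk_left _ _))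

theorem card_edges {L : List V} (hn : L.Nodup) : (edges L).card = L.length - 1 := by
  induction L with
  | nil => rfl
  | cons a L ih =>
    match L, ih, hn with
    | [], _, _ => rfl
    | b :: t, ih, hn =>
      have h1 := (List.nodup_cons.1 hn)
      rw [edges_cons, Finset.card_insert_of_notMem, ih h1.2]
      · simp
      · intro h
        exact h1.1 (mem_of_edges h (Sym2.mem_mk_left _ _))

/-- the edges of the circuit `v, l, v` -/
theorem card_circuit {v : V} {l : List V} (hl : 2 ≤ l.length) (hn : (v :: l).Nodup) :
    (edges (v :: (l ++ [v]))).card = l.length + 1 := by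
  rcases List.eq_nil_or_concat l with h | ⟨l', a, h⟩
  · rw [h] at hl; simp at hl
  · rw [List.concat_eq_append] at h
    have e1 : v :: (l ++ [v]) = (v :: l') ++ a :: [v] := by rw [h]; simp
    have e2 : (v :: l') ++ [a] = v :: l := by rw [h]; simp
    have h3 : s(a, v) ∉ edges (v :: l) := by
      intro hc
      match l, hl, hn, h, e2, hc with
      | b :: t, hl, hn, h, _, hc =>
        rw [Sym2.eq_swap] at hc
        have hab := head_edge hn hc
        have hnb := (List.nodup_cons.1 (List.nodup_cons.1 hn).2).1
        match l', h with
        | [], h =>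
          simp only [List.nil_append, List.cons.injEq] at h
          rw [h.2] at hl
          simp at hl
        | c :: l', h =>
          simp only [List.cons_append, List.cons.injEq] at h
          apply hnb
          rw [h.2, ← hab]
          simp
    rw [e1, edges_append, e2, edges_cons, edges_one, Finset.union_comm, Finset.insert_union,
      Finset.empty_union, Finset.card_insert_of_notMem h3, card_edges hn]
    simp

/-- a valid circuit: `v, l, v` -/
structure Circ (v : V) (l : List V) : Prop where
  len : 2 ≤ l.length
  nodup : (v :: l).Nodup
  chain : (v :: (l ++ [v])).IsChain Adj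

/-- the neighbours of a vertex of a circuit which is not its base -/
theorem nb_edge {z : V} {X Y : List V} {u v w y : V} (hv1 : v ∉ X ++ [u]) (hv2 : v ∉ w :: Y)
    (h : s(v, y) ∈ edges (X ++ u :: v :: w :: Y)) : y = u ∨ y = w := by
  rw [edges_append, Finset.mem_union, edges_cons, Finset.mem_insert, edges_cons,
    Finset.mem_insert] at h
  rcases h with h | h | h | h
  · exact absurd (mem_of_edges h (Sym2.mem_mk_left _ _)) hv1
  · rw [Sym2.eq_iff] at h
    rcases h with ⟨h1, h2⟩ | ⟨-, h2⟩
    · left
      rw [h2, h1]
    · exact Or.inl h2
  · rw [Sym2.eq_iff] at h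
    rcases h with ⟨-, h2⟩ | ⟨h1, h2⟩
    · exact Or.inr h2
    · right
      rw [h2, h1]
  · exact absurd (mem_of_edges h (Sym2.mem_mk_left _ _)) hv2

end Pool.Agent.H99B
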