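import Pool.Agent.H99B.Main

set_option autoImplicit false

/-! The identity: the weighted phases of the landing walks sum up to the loop partition function. -/

namespace Pool.Agent.H99B

open H978R2.Hex Complex

theorem rest_cons {D : Finset V} {z : V} {t : List V} : rest D (z :: t) = (rest D t).erase z := by
  ext v
  rw [mem_rest, Finset.mem_erase, mem_rest, List.mem_cons, not_or]
  tauto

/-- the trapped walks cancel the loops through the next vertex -/
theorem cancel (c n x : ℝ) (hn : n = -2 * Real.cos (4 * c)) {D : Finset V}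
    (hO : ∀ v ∈ D, ¬ Slit v) {N : ℕ} (hN : D.card < N) :
    ∑ m ∈ Finset.range N, (x : ℂ) ^ m * ∑ l ∈ Tr D m, ph c l * Lam n x (rest D l.tail) +
      ∑ m ∈ Finset.range N, (x : ℂ) ^ m *
        ∑ l ∈ Free (· ∈ D) m, ph c l * ((Lam n x (rest D l.tail) : ℂ) - Lam n x (rest D l)) = 0 := by
  classical
  rw [← sum_TrA, ← sum_FrA]
  have hmap : ∀ T ∈ TrA D N, base T ∈ FrA D N := by
    intro T hT
    unfold TrA at hT
    rw [Finset.mem_biUnion] at hT
    obtain ⟨m, hm, hT⟩ := hT
    obtain ⟨z, r, q, B, rfl, hr, hF, -, hmm, -⟩ := trap_struct hO hT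
    rw [(base_loop (List.nodup_cons.1 hr.nodup).1).1]
    unfold FrA
    rw [Finset.mem_biUnion]
    rw [Finset.mem_range] at hm
    exact ⟨B.length, Finset.mem_range.2 (by omega), hF⟩
  rw [← Finset.sum_fiberwise_of_maps_to hmap, ← Finset.sum_add_distrib]
  refine Finset.sum_eq_zero fun l0 hl0 => ?_
  unfold FrA at hl0
  rw [Finset.mem_biUnion] at hl0
  obtain ⟨m, hm, hF⟩ := hl0
  obtain ⟨z, t, rfl, hg, hlen⟩ := good_of_mem (Fr_sub hF)
  match t, hg, hlen, hF with
  | [], _, hlen, _ => simp at hlen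
  | q :: B, hg, hlen, hF =>
    have hmB : m = B.length := by simpa using hlen.symm
    subst hmB
    have hF2 := hF
    unfold Free at hF2
    rw [Finset.mem_filter] at hF2
    obtain ⟨-, hzD, hzt⟩ := hF2
    simp only [List.headD_cons, List.tail_cons] at hzD hzt
    have hzr : z ∈ rest D (q :: B) := mem_rest.2 ⟨hzD, hzt⟩
    have hmap2 : ∀ T ∈ (TrA D N).filter (fun T => base T = z :: q :: B),
        loopOf T ∈ (loopsIn (rest D (q :: B))).filter (fun C => ∃ e ∈ C, z ∈ e) := by
      intro T hT
      rw [Finset.mem_filter] at hT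
      obtain ⟨hT, hT2⟩ := hT
      unfold TrA at hT
      rw [Finset.mem_biUnion] at hT
      obtain ⟨m', -, hT⟩ := hT
      obtain ⟨z', r, q', B', rfl, hr, -, hv, -, -⟩ := trap_struct hO hT
      have hzr' := (List.nodup_cons.1 hr.nodup).1
      rw [(base_loop hzr').1] at hT2
      simp only [List.cons.injEq] at hT2
      obtain ⟨rfl, rfl, rfl⟩ := hT2
      rw [(base_loop hzr').2, Finset.mem_filter, mem_loopsIn]
      refine ⟨⟨?_, z', r, hr, rfl⟩, ?_⟩
      · intro e he v hve
        apply hv
        have := mem_of_edges he hve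
        simp only [List.mem_cons, List.mem_append, List.not_mem_nil, or_false] at this ⊢
        tauto
      · exact exists_edge (by simp) (by simp)
    rw [← Finset.sum_fiberwise_of_maps_to hmap2]
    rw [Finset.sum_congr rfl fun C hC => fiber_sum c n x hO hN hF (Finset.mem_filter.1 hC).1
      (Finset.mem_filter.1 hC).2]
    have hd := Lam_decomp n x (rest D (q :: B)) hzr
    rw [← rest_cons] at hd
    simp only [List.tail_cons]
    have hd2 : (Lam n x (rest D (q :: B)) : ℂ) - Lam n x (rest D (z :: q :: B)) =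
        (n : ℂ) * ∑ C ∈ (loopsIn (rest D (q :: B))).filter (fun C => ∃ e ∈ C, z ∈ e),
          ((x : ℂ) ^ C.card * Lam n x (avoid (rest D (q :: B)) C)) := by
      rw [hd, Finset.mul_sum]
      push_cast
      rw [add_sub_cancel_left]
      refine Finset.sum_congr rfl fun C _ => ?_
      ring
    rw [hd2, ← Finset.mul_sum, ← Finset.mul_sum, ← Finset.mul_sum]
    have hn' : (n : ℂ) = -(2 * Real.cos (4 * c) : ℂ) := by
      rw [hn]; push_cast; ring
    rw [hn']
    ring

/-- **The parafermionic identity with loops.** -/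
theorem ident_loops (c n x : ℝ) (hn : n = -2 * Real.cos (4 * c)) (hx : x * (2 * Real.cos c) = 1)
    {D : Finset V} (h1 : (1, 0) ∈ D) (hO : ∀ v ∈ D, ¬ Slit v) :
    ∑ m ∈ Finset.range (D.card + 2), (x : ℂ) ^ m * ∑ l ∈ Ld D m, ph c l * Lam n x (rest D l.tail) =
      Lam n x D := by
  have hcancel := cancel c n x hn hO (N := D.card + 2) (by omega)
  have hx' : (x : ℂ) * (2 * Real.cos c : ℂ) = 1 := by exact_mod_cast hx
  -- the sum over all walks
  have hall : ∑ m ∈ Finset.range (D.card + 2), (x : ℂ) ^ m *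
      ∑ l ∈ P (· ∈ D) m, ph c l * Lam n x (rest D l.tail) =
      Lam n x D + ∑ m ∈ Finset.range (D.card + 2), (x : ℂ) ^ m *
        ∑ l ∈ Free (· ∈ D) m, ph c l * Lam n x (rest D l) := by
    rw [Finset.sum_range_succ' _ (D.card + 1)]
    have e0 : (x : ℂ) ^ 0 * ∑ l ∈ P (· ∈ D) 0, ph c l * Lam n x (rest D l.tail) = Lam n x D := by
      have h2 : P (· ∈ D) 0 = {[(1, 0), (0, 0)]} := rfl
      have h3 : rest D [(0, 0)] = D := by
        ext v
        rw [mem_rest, List.mem_singleton]
        constructor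
        · exact fun h => h.1
        · intro h
          refine ⟨h, ?_⟩
          rintro rfl
          exact hO _ h ⟨rfl, le_refl _⟩
      rw [h2, Finset.sum_singleton, pow_zero, one_mul]
      simp only [List.tail_cons]
      rw [h3]
      simp [ph, W]
    rw [e0, add_comm]
    congr 1
    rw [Finset.sum_range_succ _ (D.card + 1)]
    have e1 : Free (· ∈ D) (D.card + 1) = ∅ := by
      rw [Finset.eq_empty_iff_forall_notMem]
      intro l hl
      have := le_card (Fr_sub hl)
      omega
    rw [e1, Finset.sum_empty, mul_zero, add_zero]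
    refine Finset.sum_congr rfl fun m _ => ?_
    rw [step_sum', pow_succ]
    linear_combination ((x : ℂ) ^ m *
      ∑ l ∈ Free (· ∈ D) m, ph c l * Lam n x (rest D l)) * hx'
  have hsplit : ∑ m ∈ Finset.range (D.card + 2), (x : ℂ) ^ m *
      ∑ l ∈ P (· ∈ D) m, ph c l * Lam n x (rest D l.tail) =
      ∑ m ∈ Finset.range (D.card + 2), (x : ℂ) ^ m *
        ∑ l ∈ Free (· ∈ D) m, ph c l * Lam n x (rest D l.tail) +
      ∑ m ∈ Finset.range (D.card + 2), (x : ℂ) ^ m *
        ∑ l ∈ Tr D m, ph c l * Lam n x (rest D l.tail) +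
      ∑ m ∈ Finset.range (D.card + 2), (x : ℂ) ^ m *
        ∑ l ∈ Ld D m, ph c l * Lam n x (rest D l.tail) := by
    rw [← Finset.sum_add_distrib, ← Finset.sum_add_distrib]
    refine Finset.sum_congr rfl fun m _ => ?_
    rw [split_all]
    ring
  have hdiff : ∑ m ∈ Finset.range (D.card + 2), (x : ℂ) ^ m *
        ∑ l ∈ Free (· ∈ D) m, ph c l * ((Lam n x (rest D l.tail) : ℂ) - Lam n x (rest D l)) =
      ∑ m ∈ Finset.range (D.card + 2), (x : ℂ) ^ m *
        ∑ l ∈ Free (· ∈ D) m, ph c l * Lam n x (rest D l.tail) -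
      ∑ m ∈ Finset.range (D.card + 2), (x : ℂ) ^ m *
        ∑ l ∈ Free (· ∈ D) m, ph c l * Lam n x (rest D l) := by
    rw [← Finset.sum_sub_distrib]
    refine Finset.sum_congr rfl fun m _ => ?_
    rw [← mul_sub, ← Finset.sum_sub_distrib]
    congr 1
    refine Finset.sum_congr rfl fun l _ => ?_
    ring
  rw [hdiff] at hcancel
  rw [hsplit] at hall
  linear_combination hall - hcancel

end Pool.Agent.H99B
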