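import Pool.Agent.H99B.Sides

set_option autoImplicit false

/-! Walks as lists from the start to the end. -/

namespace Pool.Agent.H99B

open H978R2.Hex

/-- the paths from `(0,0)` through `D` to an end vertex in `R` -/
def Walks (D : Finset V) (R : V → Prop) : Set (List V) :=
  {l | l.head? = some (0, 0) ∧ (∃ z, R z ∧ l.getLast? = some z) ∧ l.Nodup ∧ l.IsChain Adj ∧
    3 ≤ l.length ∧ ∀ v ∈ l.tail.dropLast, v ∈ D}

/-- the total weight of the configurations with a path from `(0,0)` to `R` -/
noncomputable def Zw (n x : ℝ) (D : Finset V) (R : V → Prop) : ℝ :=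
  ∑ᶠ l ∈ Walks D R, x ^ (l.length - 1) * Lam n x (rest D l)

theorem decomp_list {l : List V} (h3 : 3 ≤ l.length) (h0 : l.head? = some (0, 0)) {z : V}
    (hz : l.getLast? = some z) : ∃ u K, l = (0, 0) :: (u :: K ++ [z]) := by
  match l, h3, h0, hz with
  | a :: b :: l', h3, h0, hz =>
    simp only [List.head?_cons, Option.some.injEq] at h0
    rcases List.eq_nil_or_concat l' with h | ⟨K, y, h⟩
    · rw [h] at h3; simp at h3
    · rw [List.concat_eq_append] at h
      have e : a :: b :: l' = (a :: b :: K) ++ [y] := by rw [h]; simp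
      rw [e, List.getLast?_append] at hz
      simp only [List.getLast?_singleton, Option.some_or, Option.some.injEq] at hz
      exact ⟨b, K, by rw [h0, h, hz]; simp⟩
  | [_], h3, _, _ => simp at h3
  | [], h3, _, _ => simp at h3

theorem walks_eq {D : Finset V} (h10 : (1, 0) ∈ D) (hD : ∀ v ∈ D, Adj (0, 0) v → v = (1, 0))
    (h00 : (0, 0) ∉ D) (hend : ∀ m, ∀ l ∈ Ld D m, l.headD (0, 0) ≠ (0, 0))
    (R : V → Prop) [DecidablePred R] (hR : ∀ z, R z → z ∉ D) :
    Walks D R = (((Finset.range (D.card + 2)).biUnion
      (fun m => (Ld D m).filter (fun l => R (l.headD (0, 0))))).image List.reverse : Finset _) := by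
  ext l
  rw [Finset.mem_coe, Finset.mem_image]
  constructor
  · rintro ⟨h0, ⟨z, hRz, hz⟩, hnd, hc, h3, hin⟩
    obtain ⟨u, K, rfl⟩ := decomp_list h3 h0 hz
    have hu : u = (1, 0) := by
      apply hD
      · apply hin
        simp only [List.tail_cons, List.cons_append, List.dropLast_cons_of_ne_nil
          (by simp : K ++ [z] ≠ [])]
        exact List.mem_cons_self
      · rw [List.cons_append, List.isChain_cons_cons] at hc
        exact hc.1
    subst hu
    have hr : ((0, 0) :: ((1, 0) :: K ++ [z])).reverse = z :: (K.reverse ++ [(1, 0), (0, 0)]) := by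
      simp
    have hlen : K.length + 1 < D.card + 2 := by
      have h1 : ((1, 0) :: K).Nodup := by
        have : (((1, 0) :: K).Sublist ((0, 0) :: ((1, 0) :: K ++ [z]))) := by
          refine List.Sublist.trans (List.sublist_append_left _ [z]) (List.sublist_cons_self _ _)
        exact hnd.sublist this
      have h2 : ((1, 0) :: K).toFinset ⊆ D := by
        intro v hv
        apply hin
        rw [List.mem_toFinset] at hv
        simp only [List.tail_cons]
        rw [List.dropLast_concat]
        exact hv
      have h4 := Finset.card_le_card h2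
      rw [List.toFinset_card_of_nodup h1] at h4
      simp only [List.length_cons] at h4
      omega
    have hg : Good (· ∈ D) z (K.reverse ++ [(1, 0), (0, 0)]) := by
      refine ⟨?_, ?_, ?_, ?_, ?_⟩
      · rw [← List.cons_append]
        exact List.suffix_append _ _
      · rw [← hr, List.isChain_reverse]
        exact hc
      · have h1 : (K.reverse ++ [(1, 0), (0, 0)]).Sublist
            ((0, 0) :: ((1, 0) :: K ++ [z])).reverse := by
          rw [hr]
          exact List.sublist_cons_self _ _
        exact (List.nodup_reverse.2 hnd).sublist h1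
      · intro v hv
        apply hin
        simp only [List.tail_cons]
        rw [List.dropLast_concat]
        have e : K.reverse ++ [((1, 0) : V), (0, 0)] = (K.reverse ++ [(1, 0)]) ++ [(0, 0)] := by
          simp
        rw [e, List.dropLast_concat] at hv
        simp only [List.mem_append, List.mem_reverse, List.mem_singleton] at hv
        rw [List.mem_cons]
        tauto
      · intro y x r h1 h2
        have h4 : (z :: (K.reverse ++ [(1, 0), (0, 0)])).Nodup := by
          rw [← hr]
          exact List.nodup_reverse.2 hnd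
        rw [List.nodup_cons] at h4
        apply h4.1
        rw [h1, h2]
        simp
    refine ⟨z :: (K.reverse ++ [(1, 0), (0, 0)]), ?_, by rw [← hr, List.reverse_reverse]⟩
    rw [Finset.mem_biUnion]
    refine ⟨K.length + 1, Finset.mem_range.2 hlen, ?_⟩
    unfold Ld
    rw [Finset.mem_filter, Finset.mem_filter]
    refine ⟨⟨hg.mem_P (by simp), ?_⟩, ?_⟩
    · simpa using hR z hRz
    · simpa using hRz
  · rintro ⟨l', hl', rfl⟩
    rw [Finset.mem_biUnion] at hl'
    obtain ⟨m, -, hl'⟩ := hl'
    rw [Finset.mem_filter] at hl'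
    obtain ⟨hl, hRz⟩ := hl'
    have hz0 := hend m l' hl
    obtain ⟨z, v, x, t, rfl, hv, ha, hzx, hz, hg, hlen⟩ := Ld_struct h10 hl
    simp only [List.headD_cons] at hRz hz0
    refine ⟨?_, ⟨z, hRz, ?_⟩, ?_, ?_, ?_, ?_⟩
    · rw [List.head?_reverse]
      exact hg.last2
    · rw [List.getLast?_reverse]
      rfl
    · rw [List.nodup_reverse, List.nodup_cons]
      refine ⟨?_, hg.nodup⟩
      intro hzt
      have hl3 := hg.last
      have e : v :: x :: t = (v :: x :: t).dropLast ++ [(0, 0)] := by
        have h1 := List.dropLast_append_getLast (l := v :: x :: t) (by simp)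
        have h2 : (v :: x :: t).getLast (by simp) = (0, 0) := by
          have h4 : (v :: x :: t).getLast? = some ((v :: x :: t).getLast (by simp)) :=
            List.getLast?_eq_some_getLast (by simp)
          rw [h4] at hl3
          exact Option.some.inj hl3
        rw [h2] at h1
        exact h1.symm
      rw [e, List.mem_append, List.mem_singleton] at hzt
      rcases hzt with h | h
      · exact hz (hg.om z h)
      · exact hz0 h
    · rw [List.isChain_reverse]
      exact hg.chain
    · rw [List.length_reverse]
      simp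
    · intro w hw
      rw [List.tail_reverse, List.dropLast_reverse, List.mem_reverse] at hw
      have hw2 : w ∈ (v :: x :: t).dropLast := by
        have e : (z :: v :: x :: t).dropLast.tail = (v :: x :: t).dropLast := by
          simp
        rw [← e]
        first
        | exact hw
        | (rw [← List.tail_dropLast]; exact hw)
        | (rw [List.tail_dropLast] at hw; simpa using hw)
      exact hg.om w hw2

theorem Zw_eq (n x : ℝ) {D : Finset V} (h10 : (1, 0) ∈ D)
    (hD : ∀ v ∈ D, Adj (0, 0) v → v = (1, 0))
    (h00 : (0, 0) ∉ D) (hend : ∀ m, ∀ l ∈ Ld D m, l.headD (0, 0) ≠ (0, 0))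
    (R : V → Prop) [DecidablePred R] (hR : ∀ z, R z → z ∉ D) :
    Zw n x D R = x * Ms n x D R := by
  unfold Zw
  rw [walks_eq h10 hD h00 hend R hR, finsum_mem_coe_finset, Finset.sum_image, Finset.sum_biUnion]
  · unfold Ms
    rw [Finset.mul_sum]
    refine Finset.sum_congr rfl fun m _ => ?_
    rw [← mul_assoc, ← pow_succ', Finset.mul_sum]
    refine Finset.sum_congr rfl fun l hl => ?_
    have hl' := (Finset.mem_filter.1 hl).1
    obtain ⟨z, v, x', t, rfl, hv, ha, hzx, hz, hg, hlen⟩ := Ld_struct h10 hl'
    rw [List.length_reverse]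
    have e1 : (z :: v :: x' :: t).length - 1 = m + 1 := by
      simp only [List.length_cons] at hlen ⊢
      omega
    rw [e1]
    congr 2
    ext w
    rw [mem_rest, mem_rest, List.mem_reverse, List.tail_cons, List.mem_cons]
    constructor
    · rintro ⟨h1, h2⟩
      exact ⟨h1, fun h => h2 (Or.inr h)⟩
    · rintro ⟨h1, h2⟩
      refine ⟨h1, ?_⟩
      rintro (rfl | h)
      · exact hz h1
      · exact h2 h
  · intro a _ b _ hab
    simp only [Function.onFun]
    rw [Finset.disjoint_left]
    intro l h1 h2
    have e1 := len_P (Finset.mem_filter.1 (Finset.mem_filter.1 h1).1).1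
    have e2 := len_P (Finset.mem_filter.1 (Finset.mem_filter.1 h2).1).1
    omega
  · intro a _ b _ hab
    exact List.reverse_injective hab

theorem Zw_Tz (n x : ℝ) {p q h : ℕ} (hh : 1 ≤ h) (R : V → Prop) [DecidablePred R]
    (hR : ∀ z, R z → z ∉ Tz p q h) : Zw n x (Tz p q h) R = x * Ms n x (Tz p q h) R := by
  refine Zw_eq n x (base_Tz hh) ?_ ?_ ?_ R hR
  · intro v hv ha
    rw [mem_Tz] at hv
    have := adj_cases ha
    apply Prod.ext
    · simp only at this ⊢; omega
    · simp only at this ⊢; omega
  · intro hv
    rw [mem_Tz] at hv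
    simp only at hv
    omega
  · intro m l hl
    obtain ⟨z, v, hz, -, -, hz0, -⟩ := class_Tz hh hl
    rw [hz]
    exact hz0

end Pool.Agent.H99B
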