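import Pool.Agent.H99B.Loops
import Pool.Agent.H978R2.Hex.Ident

set_option autoImplicit false

/-! The parafermionic identity with loops, for the domain `D`. -/

namespace Pool.Agent.H99B

open H978R2.Hex Complex

/-- the phase of a walk -/
noncomputable def ph (c : ℝ) (l : List V) : ℂ := exp ((W l : ℂ) * c * I)

/-- the vertices of `D` which are not in the list -/
def rest (D : Finset V) (t : List V) : Finset V := D.filter (fun v => v ∉ t)

theorem mem_rest {D : Finset V} {t : List V} {v : V} : v ∈ rest D t ↔ v ∈ D ∧ v ∉ t := by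
  unfold rest
  rw [Finset.mem_filter]

/-- trapped walks -/
def Tr (D : Finset V) (m : ℕ) : Finset (List V) :=
  (P (· ∈ D) m).filter (fun l => l.headD (0, 0) ∈ D ∧ l.headD (0, 0) ∈ l.tail)

/-- landing walks -/
def Ld (D : Finset V) (m : ℕ) : Finset (List V) :=
  (P (· ∈ D) m).filter (fun l => l.headD (0, 0) ∉ D)

theorem split_all (D : Finset V) (m : ℕ) (f : List V → ℂ) :
    ∑ l ∈ P (· ∈ D) m, f l =
      ∑ l ∈ Free (· ∈ D) m, f l + ∑ l ∈ Tr D m, f l + ∑ l ∈ Ld D m, f l := by
  rw [← Finset.sum_filter_add_sum_filter_not (P (· ∈ D) m) (fun l => l.headD (0, 0) ∈ D)]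
  congr 1
  rw [← Finset.sum_filter_add_sum_filter_not ((P (· ∈ D) m).filter (fun l => l.headD (0, 0) ∈ D))
    (fun l => l.headD (0, 0) ∉ l.tail)]
  rw [Finset.filter_filter, Finset.filter_filter]
  congr 1
  unfold Tr
  refine Finset.sum_congr (Finset.filter_congr fun l _ => ?_) fun _ _ => rfl
  rw [not_not]

theorem sum_two' (c : ℝ) {y z : V} (h : Adj y z) (t : List V) :
    ∑ z' ∈ (nbrs z).erase y, ph c (z' :: z :: y :: t) =
      (2 * Real.cos c : ℂ) * ph c (z :: y :: t) := by
  have hy : y ∈ nbrs z := mem_nbrs'.2 (adj_symm' h)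
  have hcard : ((nbrs z).erase y).card = 2 := by
    rw [Finset.card_erase_of_mem hy, card_nbrs]
  obtain ⟨a, b, hab, hE⟩ := Finset.card_eq_two.1 hcard
  have ha : a ∈ (nbrs z).erase y := by rw [hE]; simp
  have hb : b ∈ (nbrs z).erase y := by rw [hE]; simp
  rw [Finset.mem_erase] at ha hb
  have ha2 := mem_nbrs'.1 ha.2
  have hb2 := mem_nbrs'.1 hb.2
  have ho := turn_other h ha2 hb2 (Ne.symm ha.1) (Ne.symm hb.1) hab
  have hpm := turn_pm h ha2 (Ne.symm ha.1)
  rw [hE, Finset.sum_pair hab]
  have hW : ∀ u : V, W (u :: z :: y :: t) = turn y z u + W (z :: y :: t) := by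
    intro u
    rw [W]
  unfold ph
  rw [hW, hW]
  have hexp : ∀ s : ℤ, exp (((s + W (z :: y :: t) : ℤ) : ℂ) * c * I) =
      exp ((s : ℂ) * c * I) * exp ((W (z :: y :: t) : ℂ) * c * I) := by
    intro s
    rw [← Complex.exp_add]
    congr 1
    push_cast
    ring
  rw [hexp, hexp, ← add_mul]
  congr 1
  have hb3 : turn y z b = - turn y z a := by rw [ho]; ring
  have e0 : exp (((1 : ℤ) : ℂ) * c * I) + exp (((-1 : ℤ) : ℂ) * c * I) = 2 * (Real.cos c : ℂ) := by
    rw [Complex.ofReal_cos, Complex.cos]
    push_cast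
    have e1 : (1 : ℂ) * c * I = c * I := by ring
    have e2 : (-1 : ℂ) * c * I = -c * I := by ring
    rw [e1, e2]
    ring
  rw [hb3]
  rcases hpm with h1 | h1
  · rw [h1]
    exact e0
  · rw [h1, add_comm]
    exact e0

theorem step_sum' (c n x : ℝ) (D : Finset V) (m : ℕ) :
    ∑ l ∈ P (· ∈ D) (m + 1), ph c l * Lam n x (rest D l.tail) =
      (2 * Real.cos c : ℂ) * ∑ l ∈ Free (· ∈ D) m, ph c l * Lam n x (rest D l) := by
  rw [sum_P_succ, Finset.mul_sum]
  refine Finset.sum_congr rfl fun l hl => ?_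
  unfold Free at hl
  rw [Finset.mem_filter] at hl
  obtain ⟨z, t, rfl, hg, hlen⟩ := good_of_mem hl.1
  match t, hg, hlen with
  | y :: t, hg, hlen =>
    have hc := hg.chain
    rw [List.isChain_cons_cons] at hc
    simp only [List.headD_cons, List.tail_cons]
    rw [← Finset.sum_mul, sum_two' c hc.1 t, mul_assoc]
  | [], _, hlen => simp at hlen

/-- the number of steps is bounded by the size of the domain -/
theorem le_card {D : Finset V} {m : ℕ} {l : List V} (hl : l ∈ P (· ∈ D) m) : m ≤ D.card := by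
  obtain ⟨z, t, rfl, hg, hlen⟩ := good_of_mem hl
  have h1 : t.dropLast.Nodup := hg.nodup.sublist (List.dropLast_sublist t)
  have h2 : t.dropLast.toFinset ⊆ D := by
    intro v hv
    exact hg.om v (List.mem_toFinset.1 hv)
  have h3 := Finset.card_le_card h2
  rw [List.toFinset_card_of_nodup h1, List.length_dropLast, hlen] at h3
  omega

/-- the walk before the loop -/
def base : List V → List V
  | z :: t => t.dropWhile (fun v => decide (v ≠ z))
  | [] => []

/-- the loop of a trapped walk -/
def loopOf : List V → Finset (Sym2 V)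
  | z :: t => edges (z :: (t.takeWhile (fun v => decide (v ≠ z)) ++ [z]))
  | [] => ∅

theorem base_loop {z : V} {r B : List V} (hr : z ∉ r) :
    base (z :: (r ++ z :: B)) = z :: B ∧ loopOf (z :: (r ++ z :: B)) = edges (z :: (r ++ [z])) := by
  have h1 : (r ++ z :: B).takeWhile (fun v => decide (v ≠ z)) = r := by
    rw [List.takeWhile_append_of_pos]
    · simp
    · intro v hv
      simp only [ne_eq, decide_not, Bool.not_eq_eq_eq_not, Bool.not_true, decide_eq_false_iff_not]
      rintro rfl
      exact hr hv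
  have h2 : (r ++ z :: B).dropWhile (fun v => decide (v ≠ z)) = z :: B := by
    rw [List.dropWhile_append_of_pos]
    · simp
    · intro v hv
      simp only [ne_eq, decide_not, Bool.not_eq_eq_eq_not, Bool.not_true, decide_eq_false_iff_not]
      rintro rfl
      exact hr hv
  exact ⟨h2, by rw [loopOf, h1]⟩

/-- structure of a trapped walk -/
theorem trap_struct {D : Finset V} (hO : ∀ v ∈ D, ¬ Slit v) {m : ℕ} {T : List V}
    (hT : T ∈ Tr D m) :
    ∃ z r q B, T = z :: (r ++ z :: q :: B) ∧ Circ z r ∧ z :: q :: B ∈ Free (· ∈ D) B.length ∧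
      (∀ v ∈ z :: r, v ∈ rest D (q :: B)) ∧ m = B.length + r.length + 1 ∧
      Good (· ∈ D) z (r ++ z :: q :: B) := by
  unfold Tr at hT
  rw [Finset.mem_filter] at hT
  obtain ⟨hP, hz, hzt⟩ := hT
  obtain ⟨z, t, rfl, hg, hlen⟩ := good_of_mem hP
  simp only [List.headD_cons, List.tail_cons] at hz hzt
  obtain ⟨e, M, a, q, B, rfl⟩ := trap_decomp hO hg hz hzt
  have hn := hg.nodup
  rw [List.nodup_append] at hn
  have hzr : z ∉ e :: (M ++ [a]) := fun h => hn.2.2 z h z (by simp) rfl
  have hc := hg.chain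
  rw [← List.cons_append, List.isChain_split] at hc
  have hsub : Good (· ∈ D) z (q :: B) := by
    refine ⟨?_, hc.2, (List.nodup_cons.1 hn.2.1).2, ?_, ?_⟩
    · refine List.suffix_of_suffix_length_le hg.suff ?_ (by simp)
      rw [← List.cons_append]
      exact List.suffix_append _ _
    · intro v hv
      apply hg.om
      rw [List.dropLast_append_cons, List.dropLast_cons_cons]
      exact List.mem_append_right _ (List.mem_cons_of_mem _ hv)
    · intro y x r' h1 h2
      apply (List.nodup_cons.1 hn.2.1).1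
      rw [h1, h2]
      simp
  refine ⟨z, e :: (M ++ [a]), q, B, rfl, ⟨by simp, ?_, ?_⟩, ?_, ?_, ?_, hg⟩
  · rw [List.nodup_cons]
    exact ⟨hzr, hn.1⟩
  · exact hc.1.imp (fun a b hab => adj_symm' hab)
  · unfold Free
    rw [Finset.mem_filter]
    exact ⟨hsub.mem_P (by simp), by simpa using hz, by simpa using (List.nodup_cons.1 hn.2.1).1⟩
  · intro v hv
    rw [mem_rest]
    rcases List.mem_cons.1 hv with rfl | hv
    · exact ⟨hz, (List.nodup_cons.1 hn.2.1).1⟩
    · refine ⟨?_, ?_⟩
      · apply hg.om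
        rw [List.dropLast_append_cons]
        exact List.mem_append_left _ hv
      · intro h
        exact hn.2.2 v hv v (List.mem_cons_of_mem _ h) rfl
  · simp only [List.length_append, List.length_cons, List.length_nil] at hlen ⊢
    omega

/-- adding a loop to a free walk -/
theorem good_add {D : Finset V} {z q : V} {B k : List V}
    (hF : z :: q :: B ∈ Free (· ∈ D) B.length) (hk : Circ z k)
    (hv : ∀ v ∈ k, v ∈ rest D (q :: B)) :
    Good (· ∈ D) z (k ++ z :: q :: B) := by
  unfold Free at hF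
  rw [Finset.mem_filter] at hF
  obtain ⟨hP, hz, hzt⟩ := hF
  simp only [List.headD_cons, List.tail_cons] at hz hzt
  obtain ⟨z', t', h1, hg, hlen⟩ := good_of_mem hP
  simp only [List.cons.injEq] at h1
  obtain ⟨rfl, rfl⟩ := h1
  have hnk := List.nodup_cons.1 hk.nodup
  refine ⟨?_, ?_, ?_, ?_, ?_⟩
  · refine hg.suff.trans ?_
    rw [← List.cons_append]
    exact List.suffix_append _ _
  · rw [← List.cons_append, List.isChain_split]
    exact ⟨hk.chain.imp (fun a b hab => adj_symm' hab), hg.chain⟩
  · rw [List.nodup_append]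
    refine ⟨hnk.2, List.nodup_cons.2 ⟨hzt, hg.nodup⟩, ?_⟩
    intro a ha b hb hab
    subst hab
    rcases List.mem_cons.1 hb with rfl | hb
    · exact hnk.1 ha
    · exact (mem_rest.1 (hv a ha)).2 hb
  · intro v hv'
    rw [List.dropLast_append_cons, List.mem_append] at hv'
    rcases hv' with hv' | hv'
    · exact (mem_rest.1 (hv v hv')).1
    · rw [List.dropLast_cons_cons, List.mem_cons] at hv'
      rcases hv' with rfl | hv'
      · exact hz
      · exact hg.om v hv'
  · intro y x r h1 h2
    match k, hk.len, hnk, h1 with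
    | a :: b :: k, _, hnk, h1 =>
      simp only [List.cons_append, List.cons.injEq] at h1
      apply hnk.1
      rw [h2, ← h1.2.1]
      simp
    | [_], h, _, _ => simp at h
    | [], h, _, _ => simp at h

end Pool.Agent.H99B
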