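import Pool.Agent.H99B.Fwd

set_option autoImplicit false

/-! The relations in terms of `κ`, and their consequences. -/

namespace Pool.Agent.H99B

open H978R2.Hex Real

/-- the parameters: `κ ∈ [8/3, 4]` and `x = x_c(n)`, or `κ ∈ [4, 8]` and the second root -/
structure Pr (κ n x : ℝ) : Prop where
  k1 : 8 / 3 ≤ κ
  k2 : κ ≤ 8
  hn : n = -2 * cos (4 * π / κ)
  hx : 0 < x
  hxx : x * (2 * sin (π / κ)) = 1

theorem pr_of {κ n x : ℝ} (hn : n = -2 * cos (4 * π / κ))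
    (h : (8 / 3 ≤ κ ∧ κ ≤ 4 ∧ x = (2 + (2 - n) ^ (1 / 2 : ℝ)) ^ (-(1 / 2) : ℝ)) ∨
      (4 ≤ κ ∧ κ ≤ 8 ∧ x = (2 - (2 - n) ^ (1 / 2 : ℝ)) ^ (-(1 / 2) : ℝ))) : Pr κ n x := by
  have hk0 : 0 < κ := by rcases h with ⟨h1, -⟩ | ⟨h1, -⟩ <;> linarith
  have hk1 : 8 / 3 ≤ κ := by rcases h with ⟨h1, -⟩ | ⟨h1, -⟩ <;> linarith
  have hk2 : κ ≤ 8 := by rcases h with ⟨-, h1, -⟩ | ⟨-, h1, -⟩ <;> linarith
  have hpi := pi_pos
  have hang1 : π / κ ≤ 3 * π / 8 := by
    rw [div_le_div_iff₀ hk0 (by norm_num)]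
    nlinarith
  have hang0 : 0 < π / κ := div_pos hpi hk0
  have hs : 0 < sin (π / κ) := sin_pos_of_pos_of_lt_pi hang0 (by linarith)
  have h2n : 2 - n = (2 * cos (2 * (π / κ))) ^ 2 := by
    have e : 4 * π / κ = 2 * (2 * (π / κ)) := by ring
    rw [hn, e, cos_two_mul (2 * (π / κ))]
    ring
  have h4 : (2 * sin (π / κ)) ^ 2 = 2 - 2 * cos (2 * (π / κ)) := by
    rw [cos_two_mul]
    have := sin_sq_add_cos_sq (π / κ)
    linear_combination 4 * this
  have hfin : ∀ y : ℝ, y = (2 * sin (π / κ)) ^ 2 → y ^ (-(1 / 2) : ℝ) * (2 * sin (π / κ)) = 1 := by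
    intro y hy
    have hy0 : 0 < 2 * sin (π / κ) := by linarith
    rw [hy, Real.rpow_neg (by positivity), ← Real.sqrt_eq_rpow, Real.sqrt_sq hy0.le]
    exact inv_mul_cancel₀ hy0.ne'
  have hsq : (2 - n) ^ (1 / 2 : ℝ) = |2 * cos (2 * (π / κ))| := by
    rw [← Real.sqrt_eq_rpow, h2n, Real.sqrt_sq_eq_abs]
  have hy0 : 0 < (2 * sin (π / κ)) ^ 2 := by positivity
  rcases h with ⟨h1, h2, hx⟩ | ⟨h1, h2, hx⟩
  · have hc : cos (2 * (π / κ)) ≤ 0 := by
      apply cos_nonpos_of_pi_div_two_le_of_le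
      · have : π / 4 ≤ π / κ := div_le_div_of_nonneg_left hpi.le hk0 h2
        linarith
      · linarith
    have hy : 2 + (2 - n) ^ (1 / 2 : ℝ) = (2 * sin (π / κ)) ^ 2 := by
      rw [hsq, h4, abs_of_nonpos (by linarith)]
      ring
    refine ⟨hk1, hk2, hn, ?_, ?_⟩
    · rw [hx, hy]
      exact Real.rpow_pos_of_pos hy0 _
    · rw [hx]
      exact hfin _ hy
  · have hc : 0 ≤ cos (2 * (π / κ)) := by
      apply cos_nonneg_of_neg_pi_div_two_le_of_le
      · linarith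
      · have : π / κ ≤ π / 4 := div_le_div_of_nonneg_left hpi.le (by norm_num) h1
        linarith
    have hy : 2 - (2 - n) ^ (1 / 2 : ℝ) = (2 * sin (π / κ)) ^ 2 := by
      rw [hsq, h4, abs_of_nonneg (by linarith)]
    refine ⟨hk1, hk2, hn, ?_, ?_⟩
    · rw [hx, hy]
      exact Real.rpow_pos_of_pos hy0 _
    · rw [hx]
      exact hfin _ hy

theorem Pr.ang {κ n x : ℝ} (h : Pr κ n x) : π / 8 ≤ π / κ ∧ π / κ ≤ 3 * π / 8 := by
  have hpi := pi_pos
  have hk0 : 0 < κ := by linarith [h.k1]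
  constructor
  · exact div_le_div_of_nonneg_left hpi.le hk0 h.k2
  · rw [div_le_div_iff₀ hk0 (by norm_num)]
    nlinarith [h.k1]

theorem Pr.sin_pos {κ n x : ℝ} (h : Pr κ n x) : 0 < sin (π / κ) := by
  have hpi := pi_pos
  exact sin_pos_of_pos_of_lt_pi (by linarith [h.ang.1]) (by linarith [h.ang.2])

theorem Pr.n_nonneg {κ n x : ℝ} (h : Pr κ n x) : 0 ≤ n := by
  have hpi := pi_pos
  have h1 := h.ang
  rw [h.hn]
  have e : 4 * π / κ = 4 * (π / κ) := by ring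
  have hc : cos (4 * π / κ) ≤ 0 := by
    rw [e]
    apply cos_nonpos_of_pi_div_two_le_of_le <;> linarith
  linarith

/-- the exact relations -/
theorem rel {κ n x : ℝ} (hp : Pr κ n x) {p q h : ℕ} (hh : 1 ≤ h) :
    Zw n x (Tz p q h) (Sp p) + Zw n x (Tz p q h) (Sm q) + 2 * x * Zw n x (Tz p q h) (Tp h) =
      2 * x ^ 2 * Lam n x (Tz p q h) +
        (1 + 2 * cos (2 * π / κ)) * (Zw n x (Tz p q h) Bp + Zw n x (Tz p q h) Bm) ∧
    Zw n x (Tz p q h) (Sp p) - Zw n x (Tz p q h) (Sm q) =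
      (2 * cos (2 * π / κ) - 1) * (Zw n x (Tz p q h) Bp - Zw n x (Tz p q h) Bm) := by
  have hpi := pi_pos
  have h1 := hp.ang
  have hs := hp.sin_pos
  have hcs : cos (π / 2 - π / κ) = sin (π / κ) := cos_pi_div_two_sub _
  have hn : n = -2 * cos (4 * (π / 2 - π / κ)) := by
    have e : 4 * (π / 2 - π / κ) = 2 * π - 4 * π / κ := by ring
    rw [e, cos_two_pi_sub, hp.hn]
  have hx : x * (2 * cos (π / 2 - π / κ)) = 1 := by rw [hcs]; exact hp.hxx
  have hsin : sin (π / 2 - π / κ) ≠ 0 := by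
    rw [sin_pi_div_two_sub]
    exact (cos_pos_of_mem_Ioo ⟨by linarith, by linarith⟩).ne'
  obtain ⟨r1, r2⟩ := real_sides (π / 2 - π / κ) n x hn hx hsin (p := p) (q := q) hh
  rw [hcs] at r1 r2
  have h4 : 4 * sin (π / κ) ^ 2 = 2 - 2 * cos (2 * π / κ) := by
    have e : 2 * π / κ = 2 * (π / κ) := by ring
    rw [e, cos_two_mul]
    have := sin_sq_add_cos_sq (π / κ)
    linear_combination 4 * this
  rw [h4] at r1 r2
  rw [Zw_Tz n x hh (Sp p), Zw_Tz n x hh (Sm q), Zw_Tz n x hh (Tp h), Zw_Tz n x hh Bp,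
    Zw_Tz n x hh Bm]
  · constructor
    · linear_combination x * r1
    · linear_combination x * r2
  all_goals
    intro z hz hzD
    rw [mem_Tz] at hzD
  · unfold Bm at hz; omega
  · unfold Bp at hz; omega
  · unfold Tp at hz; omega
  · unfold Sm at hz; omega
  · unfold Sp at hz; omega

theorem Ms_nonneg {n x : ℝ} (hn : 0 ≤ n) (hx : 0 ≤ x) (D : Finset V) (R : V → Prop)
    [DecidablePred R] : 0 ≤ Ms n x D R := by
  unfold Ms
  refine Finset.sum_nonneg fun m _ => mul_nonneg (pow_nonneg hx _) (Finset.sum_nonneg fun l _ => ?_)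
  linarith [Lam_pos hn hx (rest D l.tail)]

theorem Zw_nonneg {n x : ℝ} (hn : 0 ≤ n) (hx : 0 ≤ x) (D : Finset V) (R : V → Prop) :
    0 ≤ Zw n x D R := by
  unfold Zw
  refine finsum_nonneg fun l => finsum_nonneg fun _ => mul_nonneg (pow_nonneg hx _) ?_
  linarith [Lam_pos hn hx (rest D l)]

/-- in a triangle no walk ends at the top -/
theorem top_zero (n x : ℝ) {p q h : ℕ} (hh : p + q + 1 ≤ h) : Zw n x (Tz p q h) (Tp h) = 0 := by
  have h1 : 1 ≤ h := by omega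
  rw [Zw_Tz n x h1 (Tp h)]
  · have : Ms n x (Tz p q h) (Tp h) = 0 := by
      unfold Ms
      refine Finset.sum_eq_zero fun m _ => ?_
      have he : (Ld (Tz p q h) m).filter (fun l => Tp h (l.headD (0, 0))) = ∅ := by
        rw [Finset.eq_empty_iff_forall_notMem]
        intro l hl
        rw [Finset.mem_filter] at hl
        obtain ⟨z, v, hz, hv, ha, -, -⟩ := class_Tz h1 hl.1
        have hT := hl.2
        rw [hz] at hT
        rw [mem_Tz] at hv
        have := adj_cases ha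
        unfold Tp at hT
        omega
      rw [he, Finset.sum_empty, mul_zero]
    rw [this, mul_zero]
  · intro z hz hzD
    rw [mem_Tz] at hzD
    unfold Tp at hz
    omega

end Pool.Agent.H99B
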