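import Pool.Agent.H99B.Cons

set_option autoImplicit false

/-! Walks along the base, and the limit for `n = 0`. -/

namespace Pool.Agent.H99B

open H978R2.Hex Real

/-- the walk along the base, upwards -/
def up : ℕ → List V
  | 0 => [(1, 0), (0, 0)]
  | j + 1 => ((j : ℤ) + 2, (j : ℤ) + 1) :: ((j : ℤ) + 2, (j : ℤ)) :: up j

/-- the walk along the base, downwards -/
def dn : ℕ → List V
  | 0 => [(1, 0), (0, 0)]
  | j + 1 => (-(j : ℤ), -(j : ℤ) - 1) :: (1 - (j : ℤ), -(j : ℤ) - 1) :: dn j

theorem up_struct (j : ℕ) : ∃ x t, up j = ((j : ℤ) + 1, (j : ℤ)) :: x :: t ∧ x.1 - x.2 ≠ 1 ∧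
    (∀ v ∈ up j, v.1 ≤ (j : ℤ) + 1) ∧ (up j).length = 2 * j + 2 ∧
    (x = ((j : ℤ) + 1, (j : ℤ) - 1) ∨ x = (0, 0)) := by
  cases j with
  | zero =>
    refine ⟨(0, 0), [], rfl, by simp, ?_, rfl, Or.inr rfl⟩
    intro v hv
    simp only [up, List.mem_cons, List.not_mem_nil, or_false] at hv
    rcases hv with rfl | rfl <;> simp
  | succ j =>
    have key : ∀ j : ℕ, (∀ v ∈ up j, v.1 ≤ (j : ℤ) + 1) ∧ (up j).length = 2 * j + 2 := by
      intro j
      induction j with
      | zero =>
        refine ⟨?_, rfl⟩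
        intro v hv
        simp only [up, List.mem_cons, List.not_mem_nil, or_false] at hv
        rcases hv with rfl | rfl <;> simp
      | succ j ih =>
        refine ⟨?_, ?_⟩
        · intro v hv
          simp only [up, List.mem_cons] at hv
          rcases hv with rfl | rfl | hv
          · simp only; push_cast; omega
          · simp only; push_cast; omega
          · have := ih.1 v hv
            push_cast
            omega
        · simp only [up, List.length_cons, ih.2]
          omega
    refine ⟨((j : ℤ) + 2, (j : ℤ)), up j, ?_, ?_, (key (j + 1)).1, (key (j + 1)).2, Or.inl ?_⟩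
    · simp only [up]
      push_cast
      congr 2
      try ring
    · simp only
      omega
    · push_cast
      apply Prod.ext
      · simp only; omega
      · simp only; omega

theorem dn_struct (j : ℕ) : ∃ x t, dn j = (1 - (j : ℤ), -(j : ℤ)) :: x :: t ∧
    (∀ v ∈ dn j, -(j : ℤ) ≤ v.2) ∧ (dn j).length = 2 * j + 2 ∧
    (x = (2 - (j : ℤ), -(j : ℤ)) ∨ x = (0, 0)) := by
  cases j with
  | zero =>
    refine ⟨(0, 0), [], rfl, ?_, rfl, Or.inr rfl⟩
    intro v hv
    simp only [dn, List.mem_cons, List.not_mem_nil, or_false] at hv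
    rcases hv with rfl | rfl <;> simp
  | succ j =>
    have key : ∀ j : ℕ, (∀ v ∈ dn j, -(j : ℤ) ≤ v.2) ∧ (dn j).length = 2 * j + 2 := by
      intro j
      induction j with
      | zero =>
        refine ⟨?_, rfl⟩
        intro v hv
        simp only [dn, List.mem_cons, List.not_mem_nil, or_false] at hv
        rcases hv with rfl | rfl <;> simp
      | succ j ih =>
        refine ⟨?_, ?_⟩
        · intro v hv
          simp only [dn, List.mem_cons] at hv
          rcases hv with rfl | rfl | hv
          · simp only; push_cast; omega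
          · simp only; push_cast; omega
          · have := ih.1 v hv
            push_cast
            omega
        · simp only [dn, List.length_cons, ih.2]
          omega
    refine ⟨(1 - (j : ℤ), -(j : ℤ) - 1), dn j, ?_, (key (j + 1)).1, (key (j + 1)).2, Or.inl ?_⟩
    · simp only [dn]
      push_cast
      congr 2 <;> ring
    · push_cast
      apply Prod.ext
      · simp only; omega
      · simp only; omega

theorem adj_h {a b : ℤ} : Adj (a, b) (a + 1, b) := by
  unfold Adj
  left
  simp

theorem adj_h' {a b : ℤ} : Adj (a + 1, b) (a, b) := adj_symm' adj_h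

theorem adj_v {a b : ℤ} (h : (a + b) % 2 = 0) : Adj (a, b) (a, b + 1) := by
  unfold Adj
  right; right; left
  simp only [Prod.mk_sub_mk, Int.even_iff]
  refine ⟨?_, h⟩
  apply Prod.ext <;> simp

theorem adj_v' {a b : ℤ} (h : (a + b) % 2 = 0) : Adj (a, b + 1) (a, b) := adj_symm' (adj_v h)

/-- the walk up the base is valid -/
theorem up_val {p q h : ℕ} (hh : 1 ≤ h) (j : ℕ) (hj : j ≤ p) : Val (· ∈ Tz p q h) (up j) := by
  induction j with
  | zero => exact ⟨rfl, rfl⟩
  | succ j ih =>
    have h0 := ih (by omega)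
    obtain ⟨x, t, he, -, hmem, -, hx⟩ := up_struct j
    have hv1 : ((j : ℤ) + 1, (j : ℤ)) ∈ Tz p q h := by rw [mem_Tz]; simp only; omega
    have hv2 : ((j : ℤ) + 2, (j : ℤ)) ∈ Tz p q h := by rw [mem_Tz]; simp only; omega
    have hnd : ∀ (z : V) (s : List V), Val (· ∈ Tz p q h) (z :: s) → s.Nodup := by
      intro z s hs
      exact ((val_iff z s).1 hs).nodup
    simp only [up]
    rw [he] at h0 ⊢
    have hn0 : ((j : ℤ) + 1, (j : ℤ)) ∉ x :: t := by
      -- first coordinates: use the structure of `up j`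
      cases j with
      | zero =>
        simp only [up, List.cons.injEq] at he
        obtain ⟨-, rfl, rfl⟩ := he
        simp
      | succ i =>
        obtain ⟨x', t', he', -, hmem', -, -⟩ := up_struct i
        simp only [up, List.cons.injEq] at he
        obtain ⟨-, rfl, rfl⟩ := he
        intro hc
        rcases List.mem_cons.1 hc with hc | hc
        · have := congrArg Prod.snd hc
          simp only at this
          push_cast at this
          omega
        · have := hmem' _ hc
          simp only at this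
          push_cast at this
          omega
    have h1 : Val (· ∈ Tz p q h) (((j : ℤ) + 2, (j : ℤ)) :: ((j : ℤ) + 1, (j : ℤ)) :: x :: t) := by
      refine ⟨?_, ?_, hv1, hn0, h0⟩
      · have := adj_h (a := (j : ℤ) + 1) (b := (j : ℤ))
        have e : (j : ℤ) + 1 + 1 = (j : ℤ) + 2 := by ring
        rw [e] at this
        exact this
      · rcases hx with rfl | rfl
        · intro hc
          have := congrArg Prod.fst hc
          simp only at this
          omega
        · intro hc
          have := congrArg Prod.fst hc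
          simp only at this
          omega
    refine ⟨?_, ?_, hv2, ?_, h1⟩
    · exact adj_v (a := (j : ℤ) + 2) (b := (j : ℤ)) (by omega)
    · intro hc
      have := congrArg Prod.fst hc
      simp only at this
      omega
    · rw [← he]
      intro hc
      have := hmem _ hc
      simp only at this
      omega

/-- the walk down the base is valid -/
theorem dn_val {p q h : ℕ} (hh : 1 ≤ h) (j : ℕ) (hj : j ≤ q) : Val (· ∈ Tz p q h) (dn j) := by
  induction j with
  | zero => exact ⟨rfl, rfl⟩
  | succ j ih =>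
    have h0 := ih (by omega)
    obtain ⟨x, t, he, hmem, -, hx⟩ := dn_struct j
    have hv1 : (1 - (j : ℤ), -(j : ℤ)) ∈ Tz p q h := by rw [mem_Tz]; simp only; omega
    have hv2 : (1 - (j : ℤ), -(j : ℤ) - 1) ∈ Tz p q h := by rw [mem_Tz]; simp only; omega
    simp only [dn]
    rw [he] at h0 ⊢
    have hn0 : (1 - (j : ℤ), -(j : ℤ)) ∉ x :: t := by
      cases j with
      | zero =>
        simp only [dn, List.cons.injEq] at he
        obtain ⟨-, rfl, rfl⟩ := he
        simp
      | succ i =>
        obtain ⟨x', t', he', hmem', -, -⟩ := dn_struct i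
        simp only [dn, List.cons.injEq] at he
        obtain ⟨-, rfl, rfl⟩ := he
        intro hc
        rcases List.mem_cons.1 hc with hc | hc
        · have := congrArg Prod.fst hc
          simp only at this
          push_cast at this
          omega
        · have := hmem' _ hc
          simp only at this
          push_cast at this
          omega
    have h1 : Val (· ∈ Tz p q h)
        ((1 - (j : ℤ), -(j : ℤ) - 1) :: (1 - (j : ℤ), -(j : ℤ)) :: x :: t) := by
      refine ⟨?_, ?_, hv1, hn0, h0⟩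
      · have := adj_v' (a := 1 - (j : ℤ)) (b := -(j : ℤ) - 1) (by omega)
        have e : -(j : ℤ) - 1 + 1 = -(j : ℤ) := by ring
        rw [e] at this
        exact this
      · rcases hx with rfl | rfl
        · intro hc
          have := congrArg Prod.snd hc
          simp only at this
          omega
        · intro hc
          have := congrArg Prod.snd hc
          simp only at this
          omega
    refine ⟨?_, ?_, hv2, ?_, h1⟩
    · have := adj_h' (a := -(j : ℤ)) (b := -(j : ℤ) - 1)
      have e : -(j : ℤ) + 1 = 1 - (j : ℤ) := by ring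
      rw [e] at this
      exact this
    · intro hc
      have := congrArg Prod.snd hc
      simp only at this
      omega
    · rw [← he]
      intro hc
      have := hmem _ hc
      simp only at this
      omega

/-- one walk bounds the weight from below -/
theorem Ms_single {n x : ℝ} (hn : 0 ≤ n) (hx : 0 ≤ x) {D : Finset V} (R : V → Prop)
    [DecidablePred R] {m : ℕ} {l : List V} (hl : l ∈ Ld D m) (hR : R (l.headD (0, 0))) :
    x ^ m ≤ Ms n x D R := by
  have hm := le_card (Finset.mem_filter.1 hl).1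
  have h1 : (1 : ℝ) ≤ ∑ l ∈ (Ld D m).filter (fun l => R (l.headD (0, 0))),
      Lam n x (rest D l.tail) := by
    refine (Lam_pos hn hx (rest D l.tail)).trans ?_
    refine Finset.single_le_sum (f := fun l : List V => Lam n x (rest D l.tail))
      (fun l' _ => ?_) (Finset.mem_filter.2 ⟨hl, hR⟩)
    linarith [Lam_pos hn hx (rest D l'.tail)]
  have h2 : x ^ m * 1 ≤ x ^ m * ∑ l ∈ (Ld D m).filter (fun l => R (l.headD (0, 0))),
      Lam n x (rest D l.tail) := mul_le_mul_of_nonneg_left h1 (pow_nonneg hx _)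
  rw [mul_one] at h2
  refine h2.trans ?_
  unfold Ms
  refine Finset.single_le_sum (f := fun m => x ^ m *
    ∑ l ∈ (Ld D m).filter (fun l => R (l.headD (0, 0))), Lam n x (rest D l.tail))
    (fun m' _ => ?_) (Finset.mem_range.2 (by omega))
  refine mul_nonneg (pow_nonneg hx _) (Finset.sum_nonneg fun l' _ => ?_)
  linarith [Lam_pos hn hx (rest D l'.tail)]

theorem base_up {n x : ℝ} (hn : 0 ≤ n) (hx : 0 ≤ x) {p q h : ℕ} (hh : 1 ≤ h) (hp : 1 ≤ p) :
    x ^ (2 * p + 1) ≤ Ms n x (Tz p q h) Bp := by
  obtain ⟨y, t, he, hy, hmem, hlen, hy2⟩ := up_struct p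
  have hval := up_val (q := q) hh p (le_refl p)
  rw [he] at hval hlen
  have hg := (val_iff _ _).1 hval
  have hv1 : ((p : ℤ) + 1, (p : ℤ)) ∈ Tz p q h := by rw [mem_Tz]; simp only; omega
  have hz : ((p : ℤ), (p : ℤ)) ∉ Tz p q h := by rw [mem_Tz]; simp only; omega
  have hn0 : ((p : ℤ) + 1, (p : ℤ)) ∉ y :: t := by
    obtain ⟨i, rfl⟩ : ∃ i, p = i + 1 := ⟨p - 1, by omega⟩
    obtain ⟨x', t', he', -, hmem', -, -⟩ := up_struct i
    simp only [up, List.cons.injEq] at he
    obtain ⟨-, rfl, rfl⟩ := he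
    intro hc
    rcases List.mem_cons.1 hc with hc | hc
    · have := congrArg Prod.snd hc
      simp only at this
      push_cast at this
      omega
    · have := hmem' _ hc
      simp only at this
      push_cast at this
      omega
  have hadj : Adj ((p : ℤ) + 1, (p : ℤ)) ((p : ℤ), (p : ℤ)) := adj_h'
  have hV : Val (· ∈ Tz p q h) (((p : ℤ), (p : ℤ)) :: ((p : ℤ) + 1, (p : ℤ)) :: y :: t) := by
    refine ⟨hadj, ?_, hv1, hn0, hval⟩
    rintro rfl
    rcases hy2 with h5 | h5
    · have := congrArg Prod.fst h5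
      simp only at this
      omega
    · have := congrArg Prod.fst h5
      simp only at this
      omega
  have hl : (((p : ℤ), (p : ℤ)) :: ((p : ℤ) + 1, (p : ℤ)) :: y :: t) ∈ Ld (Tz p q h) (2 * p + 1) := by
    unfold Ld
    rw [Finset.mem_filter]
    refine ⟨H978R2.Hex.mem_P.2 ⟨hV, ?_⟩, by simpa using hz⟩
    simp only [List.length_cons] at hlen ⊢
    omega
  refine Ms_single hn hx Bp hl ⟨rfl, ?_⟩
  show (0 : ℤ) < (p : ℤ)
  omega

theorem base_dn {n x : ℝ} (hn : 0 ≤ n) (hx : 0 ≤ x) {p q h : ℕ} (hh : 1 ≤ h) (hq : 1 ≤ q) :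
    x ^ (2 * q + 1) ≤ Ms n x (Tz p q h) Bm := by
  obtain ⟨y, t, he, hmem, hlen, hy⟩ := dn_struct q
  have hval := dn_val (p := p) hh q (le_refl q)
  rw [he] at hval hlen
  have hv1 : (1 - (q : ℤ), -(q : ℤ)) ∈ Tz p q h := by rw [mem_Tz]; simp only; omega
  have hz : (-(q : ℤ), -(q : ℤ)) ∉ Tz p q h := by rw [mem_Tz]; simp only; omega
  have hn0 : (1 - (q : ℤ), -(q : ℤ)) ∉ y :: t := by
    obtain ⟨i, rfl⟩ : ∃ i, q = i + 1 := ⟨q - 1, by omega⟩
    obtain ⟨x', t', he', hmem', -, -⟩ := dn_struct i
    simp only [dn, List.cons.injEq] at he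
    obtain ⟨-, rfl, rfl⟩ := he
    intro hc
    rcases List.mem_cons.1 hc with hc | hc
    · have := congrArg Prod.fst hc
      simp only at this
      push_cast at this
      omega
    · have := hmem' _ hc
      simp only at this
      push_cast at this
      omega
  have hadj : Adj (1 - (q : ℤ), -(q : ℤ)) (-(q : ℤ), -(q : ℤ)) := by
    have := adj_h' (a := -(q : ℤ)) (b := -(q : ℤ))
    have e : -(q : ℤ) + 1 = 1 - (q : ℤ) := by ring
    rw [e] at this
    exact this
  have hV : Val (· ∈ Tz p q h) ((-(q : ℤ), -(q : ℤ)) :: (1 - (q : ℤ), -(q : ℤ)) :: y :: t) := by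
    refine ⟨hadj, ?_, hv1, hn0, hval⟩
    intro hc
    rcases hy with hy | hy
    · rw [hy] at hc
      have := congrArg Prod.fst hc
      simp only at this
      omega
    · rw [hy] at hc
      have := congrArg Prod.fst hc
      simp only at this
      omega
  have hl : ((-(q : ℤ), -(q : ℤ)) :: (1 - (q : ℤ), -(q : ℤ)) :: y :: t) ∈
      Ld (Tz p q h) (2 * q + 1) := by
    unfold Ld
    rw [Finset.mem_filter]
    refine ⟨H978R2.Hex.mem_P.2 ⟨hV, ?_⟩, by simpa using hz⟩
    simp only [List.length_cons] at hlen ⊢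
    omega
  refine Ms_single hn hx Bm hl ⟨rfl, ?_⟩
  show -(q : ℤ) < 0
  omega

/-- without loops -/
theorem Lam_zero (x : ℝ) (D : Finset V) : Lam 0 x D = 1 := by
  classical
  unfold Lam
  have h1 : (∅ : Finset (Finset (Sym2 V))) ∈ configs D := mem_configs.2 ⟨by simp, by simp⟩
  rw [Finset.sum_eq_single_of_mem ∅ h1]
  · simp [wt]
  · intro S _ hS
    unfold wt
    have : S.card ≠ 0 := by
      rw [Ne, Finset.card_eq_zero]
      exact hS
    rw [zero_pow this, zero_mul]

/-- the limit for `n = 0`, `κ = 8` -/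
theorem lim_zero {x : ℝ} (hp : Pr 8 0 x) {p q h : ℕ} (hpq : 1 ≤ p + q) (hh : p + q + 1 ≤ h) :
    |(Zw 0 x (Tz p q h) Bp + Zw 0 x (Tz p q h) Bm) / (Zw 0 x (Tz p q h) Bp +
      Zw 0 x (Tz p q h) Bm + (Zw 0 x (Tz p q h) (Sp p) + Zw 0 x (Tz p q h) (Sm q))) -
      (1 - 1 / √2)| ≤ x⁻¹ ^ (p + q) := by
  have h1 : 1 ≤ h := by omega
  have hx := hp.hx
  have e := off_base_tri hp hh
  rw [Lam_zero] at e
  have hs2 : √2 * √2 = 2 := Real.mul_self_sqrt (by norm_num)
  have hs2p : 0 < √2 := Real.sqrt_pos.2 (by norm_num)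
  have hs2l : √2 < 1.42 := by
    rw [Real.sqrt_lt' (by norm_num)]
    norm_num
  have hs2g : 1.41 < √2 := by
    rw [Real.lt_sqrt (by norm_num)]
    norm_num
  have hc8 : 4 * cos (π / 8) ^ 2 = 2 + √2 := by
    rw [cos_pi_div_eight, div_pow, Real.sq_sqrt (by linarith)]
    ring
  have hx2 : x ^ 2 * (2 - √2) = 1 := by
    have h3 := hp.hxx
    have h4 : (2 * sin (π / 8)) ^ 2 = 2 - √2 := by
      rw [sin_pi_div_eight, mul_pow, div_pow, Real.sq_sqrt (by linarith)]
      ring
    rw [← h4, ← mul_pow, h3, one_pow]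
  have hx1 : 1 < x := by
    by_contra hc
    push Not at hc
    have : x ^ 2 ≤ 1 := by nlinarith
    nlinarith
  rw [hc8] at e
  obtain ⟨B, hB⟩ : ∃ B, B = Zw 0 x (Tz p q h) Bp + Zw 0 x (Tz p q h) Bm := ⟨_, rfl⟩
  obtain ⟨S, hS⟩ : ∃ S, S = Zw 0 x (Tz p q h) (Sp p) + Zw 0 x (Tz p q h) (Sm q) := ⟨_, rfl⟩
  rw [← hB, ← hS] at e ⊢
  have hBl : x ^ (p + q + 2) ≤ B := by
    have z1 : Zw 0 x (Tz p q h) Bp = x * Ms 0 x (Tz p q h) Bp := by
      refine Zw_Tz 0 x h1 Bp ?_
      intro z hz hzD
      rw [mem_Tz] at hzD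
      unfold Bp at hz
      omega
    have z2 : Zw 0 x (Tz p q h) Bm = x * Ms 0 x (Tz p q h) Bm := by
      refine Zw_Tz 0 x h1 Bm ?_
      intro z hz hzD
      rw [mem_Tz] at hzD
      unfold Bm at hz
      omega
    have n1 := Ms_nonneg (n := 0) le_rfl hx.le (Tz p q h) Bp
    have n2 := Ms_nonneg (n := 0) le_rfl hx.le (Tz p q h) Bm
    rw [hB, z1, z2]
    rcases le_total q p with hqp | hqp
    · have h5 := base_up (n := 0) (q := q) le_rfl hx.le h1 (by omega : 1 ≤ p)
      have h6 : x ^ (p + q + 2) ≤ x ^ (2 * p + 2) := pow_le_pow_right₀ hx1.le (by omega)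
      have h7 : x ^ (2 * p + 2) = x * x ^ (2 * p + 1) := by ring
      nlinarith
    · have h5 := base_dn (n := 0) (p := p) le_rfl hx.le h1 (by omega : 1 ≤ q)
      have h6 : x ^ (p + q + 2) ≤ x ^ (2 * q + 2) := pow_le_pow_right₀ hx1.le (by omega)
      have h7 : x ^ (2 * q + 2) = x * x ^ (2 * q + 1) := by ring
      nlinarith
  have hBp : 0 < B := lt_of_lt_of_le (pow_pos hx _) hBl
  have hx22 : 2 * x ^ 2 = 2 + √2 := by nlinarith
  have e1 : B + S = (2 + √2) * (B + 1) := by
    rw [← e]
    linear_combination hx22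
  rw [e1]
  have e2 : 1 - 1 / √2 = 1 / (2 + √2) := by
    rw [eq_div_iff (by linarith), sub_mul, div_mul_eq_mul_div, sub_eq_iff_eq_add]
    rw [eq_comm, ← eq_sub_iff_add_eq', div_eq_iff hs2p.ne']
    nlinarith
  rw [e2]
  have e3 : B / ((2 + √2) * (B + 1)) - 1 / (2 + √2) = -(1 / ((2 + √2) * (B + 1))) := by
    field_simp
    ring
  rw [e3, abs_neg, abs_of_pos (by positivity)]
  have h8 : 1 / ((2 + √2) * (B + 1)) ≤ 1 / B := by
    apply one_div_le_one_div_of_le hBp
    nlinarith
  have h9 : 1 / B ≤ 1 / x ^ (p + q + 2) := one_div_le_one_div_of_le (pow_pos hx _) hBl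
  have h10 : 1 / x ^ (p + q + 2) ≤ x⁻¹ ^ (p + q) := by
    rw [one_div, ← inv_pow]
    apply pow_le_pow_of_le_one (by positivity)
    · exact inv_le_one_of_one_le₀ hx1.le
    · omega
  linarith

end Pool.Agent.H99B
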