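import Pool.Agent.H99B.WedB

set_option autoImplicit false

/-! The identity for a part `O` of the domain `D`. -/

namespace Pool.Agent.H99B

open H978R2.Hex Complex

/-- the trapped walks cancel the loops through the next vertex, with a weight of this vertex -/
theorem cancel_loc (χ : V → ℂ) (c n x : ℝ) (hn : n = -2 * Real.cos (4 * c)) {D : Finset V}
    (hO : ∀ v ∈ D, ¬ Slit v) {N : ℕ} (hN : D.card < N) :
    ∑ m ∈ Finset.range N, (x : ℂ) ^ m *
      ∑ l ∈ Tr D m, χ (l.headD (0, 0)) * (ph c l * Lam n x (rest D l.tail)) +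
      ∑ m ∈ Finset.range N, (x : ℂ) ^ m *
        ∑ l ∈ Free (· ∈ D) m, χ (l.headD (0, 0)) *
          (ph c l * ((Lam n x (rest D l.tail) : ℂ) - Lam n x (rest D l))) = 0 := by
  classical
  rw [← sum_TrA, ← sum_FrA]
  have hmap : ∀ T ∈ TrA D N, base T ∈ FrA D N := by
    intro T hT
    unfold TrA at hT
    rw [Finset.mem_biUnion] at hT
    obtain ⟨m, hm, hT⟩ := hT
    obtain ⟨z, r, q, B, rfl, hr, hF, -, hmm, -⟩ := trap_struct hO hT
    rw [(base_loop (List.nodup_cons.1 hr.nodup).1).1]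
    unfold FrA
    rw [Finset.mem_biUnion]
    rw [Finset.mem_range] at hm
    exact ⟨B.length, Finset.mem_range.2 (by omega), hF⟩
  rw [← Finset.sum_fiberwise_of_maps_to hmap, ← Finset.sum_add_distrib]
  refine Finset.sum_eq_zero fun l0 hl0 => ?_
  unfold FrA at hl0
  rw [Finset.mem_biUnion] at hl0
  obtain ⟨m, hm, hF⟩ := hl0
  obtain ⟨z, t, rfl, hg, hlen⟩ := good_of_mem (Fr_sub hF)
  match t, hg, hlen, hF with
  | [], _, hlen, _ => simp at hlen
  | q :: B, hg, hlen, hF =>
    have hmB : m = B.length := by simpa using hlen.symm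
    subst hmB
    have hF2 := hF
    unfold Free at hF2
    rw [Finset.mem_filter] at hF2
    obtain ⟨-, hzD, hzt⟩ := hF2
    simp only [List.headD_cons, List.tail_cons] at hzD hzt
    have hzr : z ∈ rest D (q :: B) := mem_rest.2 ⟨hzD, hzt⟩
    have hmap2 : ∀ T ∈ (TrA D N).filter (fun T => base T = z :: q :: B),
        loopOf T ∈ (loopsIn (rest D (q :: B))).filter (fun C => ∃ e ∈ C, z ∈ e) := by
      intro T hT
      rw [Finset.mem_filter] at hT
      obtain ⟨hT, hT2⟩ := hT
      unfold TrA at hT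
      rw [Finset.mem_biUnion] at hT
      obtain ⟨m', -, hT⟩ := hT
      obtain ⟨z', r, q', B', rfl, hr, -, hv, -, -⟩ := trap_struct hO hT
      have hzr' := (List.nodup_cons.1 hr.nodup).1
      rw [(base_loop hzr').1] at hT2
      simp only [List.cons.injEq] at hT2
      obtain ⟨rfl, rfl, rfl⟩ := hT2
      rw [(base_loop hzr').2, Finset.mem_filter, mem_loopsIn]
      refine ⟨⟨?_, z', r, hr, rfl⟩, ?_⟩
      · intro e he v hve
        apply hv
        have := mem_of_edges he hve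
        simp only [List.mem_cons, List.mem_append, List.not_mem_nil, or_false] at this ⊢
        tauto
      · exact exists_edge (by simp) (by simp)
    have hχ : ∀ T ∈ (TrA D N).filter (fun T => base T = z :: q :: B),
        (x : ℂ) ^ (T.length - 2) * (χ (T.headD (0, 0)) * (ph c T * Lam n x (rest D T.tail))) =
        χ z * ((x : ℂ) ^ (T.length - 2) * (ph c T * Lam n x (rest D T.tail))) := by
      intro T hT
      rw [Finset.mem_filter] at hT
      obtain ⟨hT, hT2⟩ := hT
      unfold TrA at hT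
      rw [Finset.mem_biUnion] at hT
      obtain ⟨m', -, hT⟩ := hT
      obtain ⟨z', r, q', B', rfl, hr, -, hv, -, -⟩ := trap_struct hO hT
      have hzr' := (List.nodup_cons.1 hr.nodup).1
      rw [(base_loop hzr').1] at hT2
      simp only [List.cons.injEq] at hT2
      obtain ⟨rfl, rfl, rfl⟩ := hT2
      rw [List.headD_cons]
      ring
    rw [Finset.sum_congr rfl hχ, ← Finset.mul_sum]
    rw [← Finset.sum_fiberwise_of_maps_to hmap2]
    rw [Finset.sum_congr rfl fun C hC => fiber_sum c n x hO hN hF (Finset.mem_filter.1 hC).1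
      (Finset.mem_filter.1 hC).2]
    have hd := Lam_decomp n x (rest D (q :: B)) hzr
    rw [← rest_cons] at hd
    simp only [List.tail_cons, List.headD_cons]
    have hd2 : (Lam n x (rest D (q :: B)) : ℂ) - Lam n x (rest D (z :: q :: B)) =
        (n : ℂ) * ∑ C ∈ (loopsIn (rest D (q :: B))).filter (fun C => ∃ e ∈ C, z ∈ e),
          ((x : ℂ) ^ C.card * Lam n x (avoid (rest D (q :: B)) C)) := by
      rw [hd, Finset.mul_sum]
      push_cast
      rw [add_sub_cancel_left]
      refine Finset.sum_congr rfl fun C _ => ?_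
      ring
    rw [hd2, ← Finset.mul_sum, ← Finset.mul_sum, ← Finset.mul_sum]
    have hn' : (n : ℂ) = -(2 * Real.cos (4 * c) : ℂ) := by
      rw [hn]; push_cast; ring
    rw [hn']
    ring

/-- extension by one step, with a weight of the last vertex -/
theorem step_loc (χ : V → ℂ) (c n x : ℝ) (D : Finset V) (m : ℕ) :
    ∑ l ∈ P (· ∈ D) (m + 1), χ (l.tail.headD (0, 0)) * (ph c l * Lam n x (rest D l.tail)) =
      (2 * Real.cos c : ℂ) * ∑ l ∈ Free (· ∈ D) m, χ (l.headD (0, 0)) *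
        (ph c l * Lam n x (rest D l)) := by
  rw [sum_P_succ, Finset.mul_sum]
  refine Finset.sum_congr rfl fun l hl => ?_
  unfold Free at hl
  rw [Finset.mem_filter] at hl
  obtain ⟨z, t, rfl, hg, hlen⟩ := good_of_mem hl.1
  match t, hg, hlen with
  | y :: t, hg, hlen =>
    have hc := hg.chain
    rw [List.isChain_cons_cons] at hc
    simp only [List.headD_cons, List.tail_cons]
    rw [← Finset.mul_sum, ← Finset.sum_mul, sum_two' c hc.1 t]
    ring
  | [], _, hlen => simp at hlen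

/-- **The local identity.** -/
theorem ident_loc (χ : V → ℂ) (c n x : ℝ) (hn : n = -2 * Real.cos (4 * c))
    (hx : x * (2 * Real.cos c) = 1) {D : Finset V} (hO : ∀ v ∈ D, ¬ Slit v) :
    ∑ m ∈ Finset.range (D.card + 1), (x : ℂ) ^ (m + 1) *
      ∑ l ∈ P (· ∈ D) (m + 1), χ (l.tail.headD (0, 0)) * (ph c l * Lam n x (rest D l.tail)) =
    ∑ m ∈ Finset.range (D.card + 1), (x : ℂ) ^ m *
      ∑ l ∈ (P (· ∈ D) m).filter (fun l => l.headD (0, 0) ∈ D),
        χ (l.headD (0, 0)) * (ph c l * Lam n x (rest D l.tail)) := by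
  have hcancel := cancel_loc χ c n x hn hO (N := D.card + 1) (by omega)
  have hx' : (x : ℂ) * (2 * Real.cos c : ℂ) = 1 := by exact_mod_cast hx
  have h1 : ∑ m ∈ Finset.range (D.card + 1), (x : ℂ) ^ (m + 1) *
      ∑ l ∈ P (· ∈ D) (m + 1), χ (l.tail.headD (0, 0)) * (ph c l * Lam n x (rest D l.tail)) =
      ∑ m ∈ Finset.range (D.card + 1), (x : ℂ) ^ m *
        ∑ l ∈ Free (· ∈ D) m, χ (l.headD (0, 0)) * (ph c l * Lam n x (rest D l)) := by
    refine Finset.sum_congr rfl fun m _ => ?_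
    rw [step_loc, pow_succ]
    linear_combination ((x : ℂ) ^ m *
      ∑ l ∈ Free (· ∈ D) m, χ (l.headD (0, 0)) * (ph c l * Lam n x (rest D l))) * hx'
  have h2 : ∀ m, ∑ l ∈ (P (· ∈ D) m).filter (fun l => l.headD (0, 0) ∈ D),
        χ (l.headD (0, 0)) * (ph c l * Lam n x (rest D l.tail)) =
      ∑ l ∈ Free (· ∈ D) m, χ (l.headD (0, 0)) * (ph c l * Lam n x (rest D l.tail)) +
      ∑ l ∈ Tr D m, χ (l.headD (0, 0)) * (ph c l * Lam n x (rest D l.tail)) := by
    intro m
    rw [← Finset.sum_filter_add_sum_filter_not ((P (· ∈ D) m).filter (fun l => l.headD (0, 0) ∈ D))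
      (fun l => l.headD (0, 0) ∉ l.tail)]
    rw [Finset.filter_filter, Finset.filter_filter]
    congr 1
    unfold Tr
    refine Finset.sum_congr (Finset.filter_congr fun l _ => ?_) fun _ _ => rfl
    rw [not_not]
  rw [h1]
  simp only [h2]
  have h3 : ∑ m ∈ Finset.range (D.card + 1), (x : ℂ) ^ m *
      (∑ l ∈ Free (· ∈ D) m, χ (l.headD (0, 0)) * (ph c l * Lam n x (rest D l.tail)) +
      ∑ l ∈ Tr D m, χ (l.headD (0, 0)) * (ph c l * Lam n x (rest D l.tail))) =
      ∑ m ∈ Finset.range (D.card + 1), (x : ℂ) ^ m *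
        ∑ l ∈ Free (· ∈ D) m, χ (l.headD (0, 0)) * (ph c l * Lam n x (rest D l.tail)) +
      ∑ m ∈ Finset.range (D.card + 1), (x : ℂ) ^ m *
        ∑ l ∈ Tr D m, χ (l.headD (0, 0)) * (ph c l * Lam n x (rest D l.tail)) := by
    rw [← Finset.sum_add_distrib]
    exact Finset.sum_congr rfl fun m _ => by ring
  have h4 : ∑ m ∈ Finset.range (D.card + 1), (x : ℂ) ^ m *
        ∑ l ∈ Free (· ∈ D) m, χ (l.headD (0, 0)) *
          (ph c l * ((Lam n x (rest D l.tail) : ℂ) - Lam n x (rest D l))) =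
      ∑ m ∈ Finset.range (D.card + 1), (x : ℂ) ^ m *
        ∑ l ∈ Free (· ∈ D) m, χ (l.headD (0, 0)) * (ph c l * Lam n x (rest D l.tail)) -
      ∑ m ∈ Finset.range (D.card + 1), (x : ℂ) ^ m *
        ∑ l ∈ Free (· ∈ D) m, χ (l.headD (0, 0)) * (ph c l * Lam n x (rest D l)) := by
    rw [← Finset.sum_sub_distrib]
    refine Finset.sum_congr rfl fun m _ => ?_
    rw [← mul_sub, ← Finset.sum_sub_distrib]
    congr 1
    exact Finset.sum_congr rfl fun l _ => by ring
  rw [h3]
  rw [h4] at hcancel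
  linear_combination -hcancel

/-- weight of the walks which end at the vertex `w` of `D` -/
noncomputable def Gr (n x : ℝ) (D : Finset V) (w : V) : ℝ :=
  ∑ m ∈ Finset.range (D.card + 1), x ^ (m + 1) *
    ∑ l ∈ (Free (· ∈ D) m).filter (fun l => l.headD (0, 0) = w), Lam n x (rest D l)

open Classical in
/-- the vertices of `D` next to the boundary of `O` inside the wedge -/
noncomputable def Ly (j : ℕ) (O D : Finset V) : Finset V :=
  D.filter (fun w => (w ∈ O ∧ ∃ z, Adj w z ∧ Wk j z ∧ z ∉ O) ∨ (w ∉ O ∧ ∃ z ∈ O, Adj w z))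

theorem P_top {D : Finset V} : P (· ∈ D) (D.card + 1) = ∅ := by
  rw [Finset.eq_empty_iff_forall_notMem]
  intro l hl
  have := le_card hl
  omega

theorem sum_zero_term (c n x : ℝ) (χ : V → ℂ) {D : Finset V} (h10 : (1, 0) ∈ D)
    (hO : ∀ v ∈ D, ¬ Slit v) :
    ∑ l ∈ (P (· ∈ D) 0).filter (fun l => l.headD (0, 0) ∈ D),
        χ (l.headD (0, 0)) * (ph c l * Lam n x (rest D l.tail)) = χ (1, 0) * Lam n x D := by
  have h2 : P (· ∈ D) 0 = {[(1, 0), (0, 0)]} := rfl
  have h3 : rest D [(0, 0)] = D := by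
    ext v
    rw [mem_rest, List.mem_singleton]
    constructor
    · exact fun h => h.1
    · intro h
      refine ⟨h, ?_⟩
      rintro rfl
      exact hO _ h ⟨rfl, le_refl _⟩
  rw [h2, Finset.filter_singleton, if_pos (by simpa using h10), Finset.sum_singleton]
  simp only [List.tail_cons, List.headD_cons]
  rw [h3]
  simp [ph, W]

/-- the identity for `O`: all lists together -/
theorem ident_O (c n x : ℝ) (hn : n = -2 * Real.cos (4 * c))
    (hx : x * (2 * Real.cos c) = 1) {O D : Finset V} (hOD : O ⊆ D) (h10 : (1, 0) ∈ O)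
    (hO : ∀ v ∈ D, ¬ Slit v) :
    (Lam n x D : ℂ) = ∑ m ∈ Finset.range (D.card + 1), (x : ℂ) ^ (m + 1) *
      ∑ l ∈ P (· ∈ D) (m + 1), (((if l.tail.headD (0, 0) ∈ O then 1 else 0) : ℂ) -
        (if l.headD (0, 0) ∈ O then 1 else 0)) * (ph c l * Lam n x (rest D l.tail)) := by
  have h := ident_loc (fun v => if v ∈ O then 1 else 0) c n x hn hx hO
  have hR := Finset.sum_range_succ' (fun m => (x : ℂ) ^ m *
      ∑ l ∈ (P (· ∈ D) m).filter (fun l => l.headD (0, 0) ∈ D),
        (if l.headD (0, 0) ∈ O then 1 else 0 : ℂ) * (ph c l * Lam n x (rest D l.tail))) D.card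
  rw [hR] at h
  have h0 := sum_zero_term c n x (fun v => if v ∈ O then 1 else 0) (hOD h10) hO
  have h1 : ∀ m, ∑ l ∈ (P (· ∈ D) m).filter (fun l => l.headD (0, 0) ∈ D),
      ((if l.headD (0, 0) ∈ O then 1 else 0 : ℂ)) * (ph c l * Lam n x (rest D l.tail)) =
      ∑ l ∈ P (· ∈ D) m,
      ((if l.headD (0, 0) ∈ O then 1 else 0 : ℂ)) * (ph c l * Lam n x (rest D l.tail)) := by
    intro m
    rw [Finset.sum_filter]
    refine Finset.sum_congr rfl fun l _ => ?_
    by_cases hl : l.headD (0, 0) ∈ D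
    · rw [if_pos hl]
    · rw [if_neg hl, if_neg fun hc => hl (hOD hc), zero_mul]
  rw [pow_zero, one_mul, h0, if_pos h10, one_mul] at h
  simp only [h1] at h
  have h2 : ∑ m ∈ Finset.range (D.card + 1), (x : ℂ) ^ (m + 1) *
      ∑ l ∈ P (· ∈ D) (m + 1),
        ((if l.headD (0, 0) ∈ O then 1 else 0 : ℂ)) * (ph c l * Lam n x (rest D l.tail)) =
      ∑ m ∈ Finset.range D.card, (x : ℂ) ^ (m + 1) *
      ∑ l ∈ P (· ∈ D) (m + 1),
        ((if l.headD (0, 0) ∈ O then 1 else 0 : ℂ)) * (ph c l * Lam n x (rest D l.tail)) := by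
    rw [Finset.sum_range_succ _ D.card, P_top, Finset.sum_empty, mul_zero, add_zero]
  rw [← h2] at h
  have h3 : ∑ m ∈ Finset.range (D.card + 1), (x : ℂ) ^ (m + 1) *
      ∑ l ∈ P (· ∈ D) (m + 1), (((if l.tail.headD (0, 0) ∈ O then 1 else 0) : ℂ) -
        (if l.headD (0, 0) ∈ O then 1 else 0)) * (ph c l * Lam n x (rest D l.tail)) =
      ∑ m ∈ Finset.range (D.card + 1), (x : ℂ) ^ (m + 1) *
      ∑ l ∈ P (· ∈ D) (m + 1), ((if l.tail.headD (0, 0) ∈ O then 1 else 0 : ℂ)) *
        (ph c l * Lam n x (rest D l.tail)) -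
      ∑ m ∈ Finset.range (D.card + 1), (x : ℂ) ^ (m + 1) *
      ∑ l ∈ P (· ∈ D) (m + 1),
        ((if l.headD (0, 0) ∈ O then 1 else 0 : ℂ)) * (ph c l * Lam n x (rest D l.tail)) := by
    rw [← Finset.sum_sub_distrib]
    refine Finset.sum_congr rfl fun m _ => ?_
    rw [← mul_sub, ← Finset.sum_sub_distrib]
    congr 1
    exact Finset.sum_congr rfl fun l _ => by ring
  rw [h3]
  linear_combination -h

/-- the real part -/
theorem re_O (c n x : ℝ) (hn : n = -2 * Real.cos (4 * c))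
    (hx : x * (2 * Real.cos c) = 1) {O D : Finset V} (hOD : O ⊆ D) (h10 : (1, 0) ∈ O)
    (hO : ∀ v ∈ D, ¬ Slit v) (φ : ℝ) :
    Real.cos φ * Lam n x D = ∑ m ∈ Finset.range (D.card + 1), x ^ (m + 1) *
      ∑ l ∈ P (· ∈ D) (m + 1), (((if l.tail.headD (0, 0) ∈ O then 1 else 0) : ℝ) -
        (if l.headD (0, 0) ∈ O then 1 else 0)) *
          (Real.cos (W l * c + φ) * Lam n x (rest D l.tail)) := by
  have h := congrArg (fun z => (Complex.exp ((φ : ℂ) * Complex.I) * z).re)
    (ident_O c n x hn hx hOD h10 hO)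
  simp only [Complex.re_mul_ofReal, Complex.exp_ofReal_mul_I_re] at h
  rw [h, Finset.mul_sum, Complex.re_sum]
  refine Finset.sum_congr rfl fun m _ => ?_
  have e1 : Complex.exp ((φ : ℂ) * Complex.I) * ((x : ℂ) ^ (m + 1) *
      ∑ l ∈ P (· ∈ D) (m + 1), (((if l.tail.headD (0, 0) ∈ O then 1 else 0) : ℂ) -
        (if l.headD (0, 0) ∈ O then 1 else 0)) * (ph c l * Lam n x (rest D l.tail))) =
      ((x ^ (m + 1) : ℝ) : ℂ) *
      ∑ l ∈ P (· ∈ D) (m + 1), Complex.exp ((φ : ℂ) * Complex.I) *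
        ((((if l.tail.headD (0, 0) ∈ O then 1 else 0) : ℂ) -
        (if l.headD (0, 0) ∈ O then 1 else 0)) * (ph c l * Lam n x (rest D l.tail))) := by
    rw [Finset.mul_sum, Finset.mul_sum, Finset.mul_sum]
    refine Finset.sum_congr rfl fun l _ => ?_
    push_cast
    ring
  rw [e1, Complex.re_ofReal_mul, Complex.re_sum]
  congr 1
  refine Finset.sum_congr rfl fun l _ => ?_
  have e2 : Complex.exp ((φ : ℂ) * Complex.I) *
        ((((if l.tail.headD (0, 0) ∈ O then 1 else 0) : ℂ) -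
        (if l.headD (0, 0) ∈ O then 1 else 0)) * (ph c l * Lam n x (rest D l.tail))) =
      (((((if l.tail.headD (0, 0) ∈ O then 1 else 0) : ℝ) -
        (if l.headD (0, 0) ∈ O then 1 else 0)) : ℝ) : ℂ) *
      (Complex.exp (((W l * c + φ : ℝ) : ℂ) * Complex.I) * Lam n x (rest D l.tail)) := by
    unfold ph
    have e3 : Complex.exp (((W l * c + φ : ℝ) : ℂ) * Complex.I) =
        Complex.exp ((φ : ℂ) * Complex.I) * Complex.exp ((W l : ℂ) * c * Complex.I) := by
      rw [← Complex.exp_add]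
      congr 1
      push_cast
      ring
    rw [e3]
    split_ifs <;> push_cast <;> ring
  rw [e2, Complex.re_ofReal_mul, Complex.re_mul_ofReal, Complex.exp_ofReal_mul_I_re]

end Pool.Agent.H99B
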