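import Pool.Agent.H99B.Loc

set_option autoImplicit false

/-! The sum over the vertices next to the boundary of a part of the domain is not small. -/

namespace Pool.Agent.H99B

open H978R2.Hex Real

theorem mem_Ly {j : ℕ} {O D : Finset V} {w : V} : w ∈ Ly j O D ↔ w ∈ D ∧
    ((w ∈ O ∧ ∃ z, Adj w z ∧ Wk j z ∧ z ∉ O) ∨ (w ∉ O ∧ ∃ z ∈ O, Adj w z)) := by
  classical
  unfold Ly
  rw [Finset.mem_filter]

/-- the last step of a walk -/
theorem P_struct {D : Finset V} {m : ℕ} {l : List V} (hl : l ∈ P (· ∈ D) (m + 1)) :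
    ∃ z v x t, l = z :: v :: x :: t ∧ v ∈ D ∧ Adj v z := by
  obtain ⟨z, t, rfl, hg, hlen⟩ := good_of_mem hl
  match t, hg, hlen with
  | [], _, hlen => simp at hlen
  | [y], hg, hlen => simp at hlen
  | v :: x :: t, hg, hlen =>
    refine ⟨z, v, x, t, rfl, ?_, ?_⟩
    · exact hg.om v (by rw [List.dropLast_cons_cons]; exact List.mem_cons_self)
    · have := hg.chain
      rw [List.isChain_cons_cons] at this
      exact this.1

theorem loc_lower {c n x : ℝ} (hn : n = -2 * Real.cos (4 * c)) (hx : x * (2 * Real.cos c) = 1)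
    (hn0 : 0 ≤ n) (hx0 : 0 < x) {j : ℕ} (h1 : 1 ≤ j) (h5 : j ≤ 5) {O D : Finset V}
    (hOD : O ⊆ D) (hD : ∀ v ∈ D, Wk j v) (h10 : (1, 0) ∈ O)
    (hneg : cos (((j : ℝ) + 3) / 2 * c) ≤ 0) :
    cos (rot j c) * Lam n x D ≤ 2 * ∑ w ∈ Ly j O D, Gr n x D w := by
  classical
  rw [re_O c n x hn hx hOD h10 (slit_D hD) (rot j c)]
  have key : ∀ m, ∑ l ∈ P (· ∈ D) (m + 1), (((if l.tail.headD (0, 0) ∈ O then 1 else 0) : ℝ) -
        (if l.headD (0, 0) ∈ O then 1 else 0)) *
          (Real.cos (W l * c + rot j c) * Lam n x (rest D l.tail)) ≤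
      2 * ∑ w ∈ Ly j O D, ∑ l ∈ (Free (· ∈ D) m).filter (fun l => l.headD (0, 0) = w),
        Lam n x (rest D l) := by
    intro m
    have hb : ∀ l ∈ P (· ∈ D) (m + 1), (((if l.tail.headD (0, 0) ∈ O then 1 else 0) : ℝ) -
        (if l.headD (0, 0) ∈ O then 1 else 0)) *
          (Real.cos (W l * c + rot j c) * Lam n x (rest D l.tail)) ≤
        (if l.tail.headD (0, 0) ∈ Ly j O D then Lam n x (rest D l.tail) else 0) := by
      intro l hl
      obtain ⟨z, v, y, t, rfl, hv, ha⟩ := P_struct hl
      have hL : 0 ≤ Lam n x (rest D (v :: y :: t)) := by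
        linarith [Lam_pos hn0 hx0.le (rest D (v :: y :: t))]
      change ((if v ∈ O then (1 : ℝ) else 0) - (if z ∈ O then 1 else 0)) *
        (Real.cos (W (z :: v :: y :: t) * c + rot j c) * Lam n x (rest D (v :: y :: t))) ≤
        (if v ∈ Ly j O D then Lam n x (rest D (v :: y :: t)) else 0)
      have hc1 := Real.cos_le_one (W (z :: v :: y :: t) * c + rot j c)
      have hc2 := Real.neg_one_le_cos (W (z :: v :: y :: t) * c + rot j c)
      by_cases hvO : v ∈ O
      · by_cases hzO : z ∈ O
        · rw [if_pos hvO, if_pos hzO, sub_self, zero_mul]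
          split_ifs
          · exact hL
          · exact le_refl _
        · rw [if_pos hvO, if_neg hzO, sub_zero, one_mul]
          by_cases hw : Wk j z
          · rw [if_pos (mem_Ly.2 ⟨hv, Or.inl ⟨hvO, z, ha, hw, hzO⟩⟩)]
            calc _ ≤ 1 * Lam n x (rest D (v :: y :: t)) := mul_le_mul_of_nonneg_right hc1 hL
              _ = _ := one_mul _
          · have hld : z :: v :: y :: t ∈ Ld D (m + 1) := by
              unfold Ld
              rw [Finset.mem_filter]
              exact ⟨hl, fun h => hw (hD _ (by simpa using h))⟩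
            have hW := near_W h1 h5 hD hld (by simpa using hw)
            rw [rot_near c hW]
            have h3 : cos (((j : ℝ) + 3) / 2 * c) * Lam n x (rest D (v :: y :: t)) ≤ 0 :=
              mul_nonpos_of_nonpos_of_nonneg hneg hL
            refine h3.trans ?_
            split_ifs
            · exact hL
            · exact le_refl _
      · by_cases hzO : z ∈ O
        · rw [if_neg hvO, if_pos hzO, zero_sub,
            if_pos (mem_Ly.2 ⟨hv, Or.inr ⟨hvO, z, hzO, ha⟩⟩)]
          have := mul_le_mul_of_nonneg_right hc2 hL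
          linarith
        · rw [if_neg hvO, if_neg hzO, sub_self, zero_mul]
          split_ifs
          · exact hL
          · exact le_refl _
    refine (Finset.sum_le_sum hb).trans ?_
    rw [sum_P_succ]
    have e1 : ∀ l ∈ Free (· ∈ D) m, ∑ z' ∈ (nbrs (l.headD (0, 0))).erase (l.tail.headD (0, 0)),
        (if (z' :: l).tail.headD (0, 0) ∈ Ly j O D then Lam n x (rest D (z' :: l).tail) else 0) =
        (if l.headD (0, 0) ∈ Ly j O D then 2 * Lam n x (rest D l) else 0) := by
      intro l hl
      unfold Free at hl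
      rw [Finset.mem_filter] at hl
      obtain ⟨z, t, rfl, hg, hlen⟩ := good_of_mem hl.1
      match t, hg, hlen with
      | [], _, hlen => simp at hlen
      | y :: t, hg, hlen =>
        have hc := hg.chain
        rw [List.isChain_cons_cons] at hc
        change ∑ z' ∈ (nbrs z).erase y,
          (if z ∈ Ly j O D then Lam n x (rest D (z :: y :: t)) else 0) =
          (if z ∈ Ly j O D then 2 * Lam n x (rest D (z :: y :: t)) else 0)
        have hcard : ((nbrs z).erase y).card = 2 := by
          rw [Finset.card_erase_of_mem (mem_nbrs'.2 (H978R2.Hex.adj_symm' hc.1)), card_nbrs]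
        rw [Finset.sum_const, hcard, nsmul_eq_mul]
        split_ifs
        · push_cast; ring
        · simp
    rw [Finset.sum_congr rfl e1]
    refine le_of_eq ?_
    rw [← Finset.sum_filter, ← Finset.mul_sum]
    congr 1
    rw [← Finset.sum_fiberwise_of_maps_to (s := (Free (· ∈ D) m).filter
      (fun l => l.headD (0, 0) ∈ Ly j O D)) (t := Ly j O D) (g := fun l => l.headD (0, 0))
      (fun l hl => (Finset.mem_filter.1 hl).2)]
    refine Finset.sum_congr rfl fun w hw => ?_
    refine Finset.sum_congr ?_ fun _ _ => rfl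
    rw [Finset.filter_filter]
    refine Finset.filter_congr fun l _ => ?_
    constructor
    · exact fun h => h.2
    · exact fun h => ⟨by rw [h]; exact hw, h⟩
  have e2 : 2 * ∑ w ∈ Ly j O D, Gr n x D w = ∑ m ∈ Finset.range (D.card + 1), x ^ (m + 1) *
      (2 * ∑ w ∈ Ly j O D, ∑ l ∈ (Free (· ∈ D) m).filter (fun l => l.headD (0, 0) = w),
        Lam n x (rest D l)) := by
    unfold Gr
    rw [Finset.sum_comm, Finset.mul_sum]
    refine Finset.sum_congr rfl fun m _ => ?_
    rw [← Finset.mul_sum]
    ring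
  rw [e2]
  exact Finset.sum_le_sum fun m _ => mul_le_mul_of_nonneg_left (key m) (pow_nonneg hx0.le _)

end Pool.Agent.H99B
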