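import Pool.Agent.H99B.Loc2

set_option autoImplicit false

/-! Paths to a vertex of the domain, from the start to the end. -/

namespace Pool.Agent.H99B

open H978R2.Hex Real

/-- the paths whose first step goes to `(1,0)`, through `D`, with the end vertex in `R` -/
def Walks2 (D : Finset V) (R : V → Prop) : Set (List V) :=
  {l | (∃ t, l = (0, 0) :: (1, 0) :: t) ∧ (∃ z, R z ∧ l.getLast? = some z) ∧ l.Nodup ∧
    l.IsChain Adj ∧ ∀ v ∈ l.tail.dropLast, v ∈ D}

/-- the total weight of the configurations with a path from `(0,0)` to `R` -/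
noncomputable def Zw2 (n x : ℝ) (D : Finset V) (R : V → Prop) : ℝ :=
  ∑ᶠ l ∈ Walks2 D R, x ^ (l.length - 1) * Lam n x (rest D l)

theorem walks2_out {j : ℕ} {D : Finset V} (hD : ∀ v ∈ D, Wk j v) (h10 : (1, 0) ∈ D)
    {R : V → Prop} (hR : ∀ z, R z → z ∉ D) : Walks2 D R = Walks D R := by
  ext l
  constructor
  · rintro ⟨⟨t, rfl⟩, ⟨z, hRz, hz⟩, hnd, hc, hin⟩
    refine ⟨rfl, ⟨z, hRz, hz⟩, hnd, hc, ?_, hin⟩
    match t, hz with
    | [], hz =>
      exfalso
      have : z = (1, 0) := by
        have h2 : ([((0, 0) : V), (1, 0)]).getLast? = some (1, 0) := rfl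
        rw [h2] at hz
        exact (Option.some.inj hz).symm
      rw [this] at hRz
      exact hR _ hRz h10
    | a :: t, _ => simp
  · rintro ⟨h0, ⟨z, hRz, hz⟩, hnd, hc, h3, hin⟩
    obtain ⟨u, K, rfl⟩ := decomp_list h3 h0 hz
    have hu : u = (1, 0) := by
      apply adj_base' hD
      · apply hin
        simp only [List.tail_cons, List.cons_append, List.dropLast_cons_of_ne_nil
          (by simp : K ++ [z] ≠ [])]
        exact List.mem_cons_self
      · rw [List.cons_append, List.isChain_cons_cons] at hc
        exact H978R2.Hex.adj_symm' hc.1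
    subst hu
    exact ⟨⟨K ++ [z], rfl⟩, ⟨z, hRz, hz⟩, hnd, hc, hin⟩

theorem Zw2_out {j : ℕ} (n x : ℝ) {D : Finset V} (hD : ∀ v ∈ D, Wk j v) (h10 : (1, 0) ∈ D)
    (R : V → Prop) [DecidablePred R] (hR : ∀ z, R z → z ∉ D) : Zw2 n x D R = x * Ms n x D R := by
  rw [← Zw_D n x hD h10 R hR]
  unfold Zw2 Zw
  rw [walks2_out hD h10 hR]

theorem walks2_in {D : Finset V} (h10 : (1, 0) ∈ D) {w : V} (hw : w ∈ D) :
    Walks2 D (fun z => z = w) = (((Finset.range (D.card + 1)).biUnion
      (fun m => (Free (· ∈ D) m).filter (fun l => l.headD (0, 0) = w))).image List.reverse :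
        Finset _) := by
  ext l
  rw [Finset.mem_coe, Finset.mem_image]
  constructor
  · rintro ⟨⟨t, rfl⟩, ⟨z, rfl, hz⟩, hnd, hc, hin⟩
    rcases List.eq_nil_or_concat t with rfl | ⟨K, y, rfl⟩
    · have hz1 : z = (1, 0) := by
        have h2 : ([((0, 0) : V), (1, 0)]).getLast? = some (1, 0) := rfl
        rw [h2] at hz
        exact (Option.some.inj hz).symm
      subst hz1
      refine ⟨[(1, 0), (0, 0)], ?_, rfl⟩
      rw [Finset.mem_biUnion]
      refine ⟨0, Finset.mem_range.2 (by omega), ?_⟩
      rw [Finset.mem_filter]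
      refine ⟨?_, rfl⟩
      unfold Free
      rw [Finset.mem_filter]
      refine ⟨?_, by simpa using h10, by simp⟩
      have h2 : P (· ∈ D) 0 = {[(1, 0), (0, 0)]} := rfl
      rw [h2]
      exact Finset.mem_singleton_self _
    · rw [List.concat_eq_append] at hz hnd hc hin ⊢
      have hyz : y = z := by
        have e : (0, 0) :: (1, 0) :: (K ++ [y]) = ((0, 0) :: (1, 0) :: K) ++ [y] := by simp
        rw [e, List.getLast?_append] at hz
        simpa using hz
      subst hyz
      have hr : ((0, 0) :: ((1, 0) :: K ++ [y])).reverse = y :: (K.reverse ++ [(1, 0), (0, 0)]) := by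
        simp
      have hg : Good (· ∈ D) y (K.reverse ++ [(1, 0), (0, 0)]) := by
        refine ⟨?_, ?_, ?_, ?_, ?_⟩
        · rw [← List.cons_append]
          exact List.suffix_append _ _
        · rw [← hr, List.isChain_reverse]
          exact hc
        · have h1 : (K.reverse ++ [(1, 0), (0, 0)]).Sublist
              ((0, 0) :: ((1, 0) :: K ++ [y])).reverse := by
            rw [hr]
            exact List.sublist_cons_self _ _
          exact (List.nodup_reverse.2 hnd).sublist h1
        · intro v hv
          apply hin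
          simp only [List.tail_cons]
          rw [← List.cons_append, List.dropLast_concat]
          have e : K.reverse ++ [((1, 0) : V), (0, 0)] = (K.reverse ++ [(1, 0)]) ++ [(0, 0)] := by
            simp
          rw [e, List.dropLast_concat] at hv
          simp only [List.mem_append, List.mem_reverse, List.mem_singleton] at hv
          rw [List.mem_cons]
          tauto
        · intro y' x r h1 h2
          have h4 : (y :: (K.reverse ++ [(1, 0), (0, 0)])).Nodup := by
            rw [← hr]
            exact List.nodup_reverse.2 hnd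
          rw [List.nodup_cons] at h4
          apply h4.1
          rw [h1, h2]
          simp
      have hyt : y ∉ K.reverse ++ [((1, 0) : V), (0, 0)] := by
        have h4 : (y :: (K.reverse ++ [(1, 0), (0, 0)])).Nodup := by
          rw [← hr]
          exact List.nodup_reverse.2 hnd
        exact (List.nodup_cons.1 h4).1
      have hmem : y :: (K.reverse ++ [(1, 0), (0, 0)]) ∈ P (· ∈ D) (K.length + 1) :=
        hg.mem_P (by simp)
      have hle := le_card hmem
      refine ⟨y :: (K.reverse ++ [(1, 0), (0, 0)]), ?_, ?_⟩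
      · rw [Finset.mem_biUnion]
        refine ⟨K.length + 1, Finset.mem_range.2 (by omega), ?_⟩
        rw [Finset.mem_filter]
        refine ⟨?_, rfl⟩
        unfold Free
        rw [Finset.mem_filter]
        exact ⟨hmem, by simpa using hw, by simpa using hyt⟩
      · rw [← hr, List.reverse_reverse]
        rfl
  · rintro ⟨l', hl', rfl⟩
    rw [Finset.mem_biUnion] at hl'
    obtain ⟨m, -, hl'⟩ := hl'
    rw [Finset.mem_filter] at hl'
    obtain ⟨hF, hh⟩ := hl'
    unfold Free at hF
    rw [Finset.mem_filter] at hF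
    obtain ⟨hP, hzD, hzt⟩ := hF
    obtain ⟨z, t, rfl, hg, hlen⟩ := good_of_mem hP
    simp only [List.headD_cons, List.tail_cons] at hzD hzt hh
    subst hh
    obtain ⟨s, hs⟩ := hg.suff
    refine ⟨⟨s.reverse, ?_⟩, ⟨z, rfl, ?_⟩, ?_, ?_, ?_⟩
    · rw [← hs]
      simp
    · rw [List.getLast?_reverse]
      rfl
    · rw [List.nodup_reverse, List.nodup_cons]
      exact ⟨hzt, hg.nodup⟩
    · rw [List.isChain_reverse]
      exact hg.chain
    · intro v hv
      rw [List.tail_reverse, List.dropLast_reverse, List.mem_reverse] at hv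
      apply hg.om v
      rw [List.tail_dropLast] at hv
      simpa using hv

theorem Zw2_in (n x : ℝ) {D : Finset V} (h10 : (1, 0) ∈ D) {w : V}
    (hw : w ∈ D) : Zw2 n x D (fun z => z = w) = Gr n x D w := by
  unfold Zw2
  rw [walks2_in h10 hw, finsum_mem_coe_finset, Finset.sum_image, Finset.sum_biUnion]
  · unfold Gr
    refine Finset.sum_congr rfl fun m _ => ?_
    rw [Finset.mul_sum]
    refine Finset.sum_congr rfl fun l hl => ?_
    have hlen := len_P (Fr_sub (Finset.mem_filter.1 hl).1)
    rw [List.length_reverse, hlen]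
    have e1 : m + 2 - 1 = m + 1 := by omega
    rw [e1]
    congr 2
    ext v
    rw [mem_rest, mem_rest, List.mem_reverse]
  · intro a _ b _ hab
    simp only [Function.onFun]
    rw [Finset.disjoint_left]
    intro l h1 h2
    have e1 := len_P (Fr_sub (Finset.mem_filter.1 h1).1)
    have e2 := len_P (Fr_sub (Finset.mem_filter.1 h2).1)
    omega
  · intro a _ b _ hab
    exact List.reverse_injective hab

end Pool.Agent.H99B
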