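import Pool.Agent.H99B.Loc3

set_option autoImplicit false

/-! All scales: the weight of the walks which end at distance `r`. -/

namespace Pool.Agent.H99B

open H978R2.Hex Real

/-- the vertices of `D` between the hexagons of radius `r - 1` and `r + 1` -/
def Rg (r : ℕ) (D : Finset V) : Finset V := D.filter (fun w => ¬ Hg (r - 1) w ∧ Hg (r + 1) w)

theorem mem_Rg {r : ℕ} {D : Finset V} {w : V} :
    w ∈ Rg r D ↔ w ∈ D ∧ ¬ Hg (r - 1) w ∧ Hg (r + 1) w := by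
  unfold Rg
  rw [Finset.mem_filter]

theorem Ly_sub_Rg {j r : ℕ} (hr : 1 ≤ r) {D : Finset V} (hD : ∀ v ∈ D, Wk j v) :
    Ly j (Sc j r) D ⊆ Rg r D := by
  intro w hw
  rw [mem_Ly] at hw
  rw [mem_Rg]
  obtain ⟨hwD, hw⟩ := hw
  refine ⟨hwD, ?_⟩
  obtain ⟨k, rfl⟩ : ∃ k, r = k + 1 := ⟨r - 1, by omega⟩
  have e : k + 1 - 1 = k := by omega
  rw [e]
  rcases hw with ⟨h1, z, ha, hz, hzS⟩ | ⟨h1, z, hzS, ha⟩
  · rw [mem_Sc] at h1 hzS
    have hzH : ¬ Hg (k + 1) z := fun h => hzS ⟨hz, h⟩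
    have hc := adj_cases ha
    have h1' := h1.2
    unfold Hg at hzH h1' ⊢
    push_cast at hzH h1' ⊢
    omega
  · rw [mem_Sc] at h1 hzS
    have hwH : ¬ Hg (k + 1) w := fun h => h1 ⟨hD w hwD, h⟩
    have hc := adj_cases ha
    have hz' := hzS.2
    unfold Hg at hwH hz' ⊢
    push_cast at hwH hz' ⊢
    omega

theorem card_Rg {r : ℕ} (hr : 1 ≤ r) (D : Finset V) : (Rg r D).card ≤ 120 * r := by
  classical
  obtain ⟨A1, hA1⟩ : ∃ A, A = (Finset.Icc (-2 * (r : ℤ) - 2) (2 * r + 2)) ×ˢ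
    (Finset.Icc (-(r : ℤ) - 1) (-r) ∪ Finset.Icc (r : ℤ) (r + 1)) := ⟨_, rfl⟩
  obtain ⟨A2, hA2⟩ : ∃ A, A = ((Finset.Icc (-2 * (r : ℤ) - 2) (-2 * r + 1) ∪
    Finset.Icc (2 * (r : ℤ)) (2 * r + 3)) ×ˢ Finset.Icc (-(r : ℤ) - 1) (r + 1)).image
      (fun p : ℤ × ℤ => (p.1 - p.2, p.2)) := ⟨_, rfl⟩
  obtain ⟨A3, hA3⟩ : ∃ A, A = ((Finset.Icc (-2 * (r : ℤ) - 1) (-2 * r + 2) ∪
    Finset.Icc (2 * (r : ℤ) - 1) (2 * r + 2)) ×ˢ Finset.Icc (-(r : ℤ) - 1) (r + 1)).image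
      (fun p : ℤ × ℤ => (p.1 + p.2, p.2)) := ⟨_, rfl⟩
  have c1 : A1.card ≤ 4 * (4 * r + 5) := by
    rw [hA1, Finset.card_product]
    have h1 : (Finset.Icc (-2 * (r : ℤ) - 2) (2 * r + 2)).card = 4 * r + 5 := by
      rw [Int.card_Icc]; omega
    have h2 : (Finset.Icc (-(r : ℤ) - 1) (-r) ∪ Finset.Icc (r : ℤ) (r + 1)).card ≤ 4 := by
      refine (Finset.card_union_le _ _).trans ?_
      rw [Int.card_Icc, Int.card_Icc]; omega
    rw [h1]
    nlinarith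
  have c2 : A2.card ≤ 8 * (2 * r + 3) := by
    rw [hA2]
    refine Finset.card_image_le.trans ?_
    rw [Finset.card_product]
    have h1 : (Finset.Icc (-(r : ℤ) - 1) (r + 1)).card = 2 * r + 3 := by
      rw [Int.card_Icc]; omega
    have h2 : (Finset.Icc (-2 * (r : ℤ) - 2) (-2 * r + 1) ∪
        Finset.Icc (2 * (r : ℤ)) (2 * r + 3)).card ≤ 8 := by
      refine (Finset.card_union_le _ _).trans ?_
      rw [Int.card_Icc, Int.card_Icc]; omega
    rw [h1]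
    nlinarith
  have c3 : A3.card ≤ 8 * (2 * r + 3) := by
    rw [hA3]
    refine Finset.card_image_le.trans ?_
    rw [Finset.card_product]
    have h1 : (Finset.Icc (-(r : ℤ) - 1) (r + 1)).card = 2 * r + 3 := by
      rw [Int.card_Icc]; omega
    have h2 : (Finset.Icc (-2 * (r : ℤ) - 1) (-2 * r + 2) ∪
        Finset.Icc (2 * (r : ℤ) - 1) (2 * r + 2)).card ≤ 8 := by
      refine (Finset.card_union_le _ _).trans ?_
      rw [Int.card_Icc, Int.card_Icc]; omega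
    rw [h1]
    nlinarith
  have hsub : Rg r D ⊆ A1 ∪ (A2 ∪ A3) := by
    intro w hw
    rw [mem_Rg] at hw
    obtain ⟨-, h1, h2⟩ := hw
    obtain ⟨k, rfl⟩ : ∃ k, r = k + 1 := ⟨r - 1, by omega⟩
    have e : k + 1 - 1 = k := by omega
    rw [e] at h1
    unfold Hg at h1 h2
    push_cast at h1 h2 hA1 hA2 hA3
    rw [Finset.mem_union, Finset.mem_union]
    have hcase : (w.2 ≤ -(k : ℤ) - 1 ∨ (k : ℤ) + 1 ≤ w.2) ∨
        (w.1 + w.2 ≤ -2 * (k : ℤ) - 1 ∨ 2 * (k : ℤ) + 2 ≤ w.1 + w.2) ∨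
        (w.1 - w.2 ≤ -2 * (k : ℤ) ∨ 2 * (k : ℤ) + 1 ≤ w.1 - w.2) := by omega
    rcases hcase with h | h | h
    · left
      rw [hA1, Finset.mem_product, Finset.mem_union, Finset.mem_Icc, Finset.mem_Icc,
        Finset.mem_Icc]
      omega
    · right; left
      rw [hA2, Finset.mem_image]
      refine ⟨(w.1 + w.2, w.2), ?_, ?_⟩
      · rw [Finset.mem_product, Finset.mem_union, Finset.mem_Icc, Finset.mem_Icc,
          Finset.mem_Icc]
        simp only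
        omega
      · apply Prod.ext
        · simp
        · rfl
    · right; right
      rw [hA3, Finset.mem_image]
      refine ⟨(w.1 - w.2, w.2), ?_, ?_⟩
      · rw [Finset.mem_product, Finset.mem_union, Finset.mem_Icc, Finset.mem_Icc,
          Finset.mem_Icc]
        simp only
        omega
      · apply Prod.ext
        · simp
        · rfl
  have h1 := Finset.card_le_card hsub
  have h2 := Finset.card_union_le A1 (A2 ∪ A3)
  have h3 := Finset.card_union_le A2 A3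
  omega

theorem Gr_nonneg {n x : ℝ} (hn : 0 ≤ n) (hx : 0 ≤ x) (D : Finset V) (w : V) :
    0 ≤ Gr n x D w := by
  unfold Gr
  refine Finset.sum_nonneg fun m _ => mul_nonneg (pow_nonneg hx _) (Finset.sum_nonneg fun l _ => ?_)
  linarith [Lam_pos hn hx (rest D l)]

/-- all parts of the domain -/
theorem part_lower {κ n x : ℝ} (h : Pr κ n x) {j : ℕ} (h1 : 1 ≤ j) (h5 : j ≤ 5)
    (hj : 2 * ((j : ℝ) + 3) ≤ (j + 1) * κ) {O D : Finset V} (hOD : O ⊆ D)
    (hD : ∀ v ∈ D, Wk j v) (h10 : (1, 0) ∈ O) :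
    cos (π / 4 - π / (2 * κ)) * Lam n x D ≤ 2 * ∑ w ∈ Ly j O D, Gr n x D w := by
  have hpi := pi_pos
  obtain ⟨c1, c2, c3, c4⟩ := h.c_facts
  have hn := h.n_nonneg
  have hx := h.hx
  have hL : 0 ≤ Lam n x D := by linarith [Lam_pos hn hx.le D]
  have hr := rot_cos j (π / 2 - π / κ)
  rw [half_eq] at hr
  have hneg : cos (((j : ℝ) + 3) / 2 * (π / 2 - π / κ)) ≤ 0 := by
    apply cos_nonpos_of_pi_div_two_le_of_le
    · exact (thr h j).1 hj
    · have hj5 : (j : ℝ) ≤ 5 := by exact_mod_cast h5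
      have : ((j : ℝ) + 3) / 2 * (π / 2 - π / κ) ≤ 4 * (3 * π / 8) :=
        mul_le_mul (by linarith) c4 c3 (by norm_num)
      linarith
  have hf := loc_lower c1 c2 hn hx h1 h5 hOD hD h10 hneg
  have := mul_le_mul_of_nonneg_right hr hL
  linarith

theorem cosA {κ n x : ℝ} (h : Pr κ n x) : 4 / 5 ≤ cos (π / 4 - π / (2 * κ)) := by
  have hpi := pi_pos
  have hpi2 := Real.pi_lt_d2
  have h2 := h.ang
  have e : π / (2 * κ) = π / κ / 2 := by rw [div_div]; ring_nf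
  have h3 := Real.one_sub_sq_div_two_le_cos (x := π / 4 - π / (2 * κ))
  have h4 : 0 ≤ π / 4 - π / (2 * κ) := by rw [e]; linarith [h2.2]
  have h5 : π / 4 - π / (2 * κ) ≤ 6 / 10 := by rw [e]; linarith [h2.1]
  nlinarith

theorem ring_lower {κ n x : ℝ} (h : Pr κ n x) {j : ℕ} (h1 : 1 ≤ j) (h5 : j ≤ 5)
    (hj : 2 * ((j : ℝ) + 3) ≤ (j + 1) * κ) {r : ℕ} (hr : 1 ≤ r) {D : Finset V}
    (hS : Sc j r ⊆ D) (hD : ∀ v ∈ D, Wk j v) :
    2 / 5 * Lam n x D ≤ ∑ w ∈ Rg r D, Gr n x D w ∧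
      ∃ w ∈ Rg r D, Lam n x D / (300 * r) ≤ Gr n x D w := by
  have hn := h.n_nonneg
  have hx := h.hx
  have hL1 := Lam_pos hn hx.le D
  have hp := part_lower h h1 h5 hj hS hD (base_Sc hr)
  have hc := cosA h
  have hsum : ∑ w ∈ Ly j (Sc j r) D, Gr n x D w ≤ ∑ w ∈ Rg r D, Gr n x D w :=
    Finset.sum_le_sum_of_subset_of_nonneg (Ly_sub_Rg hr hD) fun w _ _ => Gr_nonneg hn hx.le D w
  have h2 : 2 / 5 * Lam n x D ≤ ∑ w ∈ Rg r D, Gr n x D w := by
    have := mul_le_mul_of_nonneg_right hc (by linarith : 0 ≤ Lam n x D)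
    linarith
  refine ⟨h2, ?_⟩
  by_contra hcon
  push Not at hcon
  have hr0 : (0 : ℝ) < r := by exact_mod_cast hr
  have hle : ∑ w ∈ Rg r D, Gr n x D w ≤ ((Rg r D).card : ℝ) * (Lam n x D / (300 * r)) := by
    rw [← nsmul_eq_mul, ← Finset.sum_const]
    exact Finset.sum_le_sum fun w hw => (hcon w hw).le
  have hne : (Rg r D).Nonempty := by
    by_contra h0
    rw [Finset.not_nonempty_iff_eq_empty] at h0
    rw [h0, Finset.sum_empty] at h2
    linarith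
  have hlt : ∑ w ∈ Rg r D, Gr n x D w < ((Rg r D).card : ℝ) * (Lam n x D / (300 * r)) := by
    rw [← nsmul_eq_mul, ← Finset.sum_const]
    exact Finset.sum_lt_sum_of_nonempty hne hcon
  have hcard : ((Rg r D).card : ℝ) ≤ 120 * r := by exact_mod_cast card_Rg hr D
  have h3 : ((Rg r D).card : ℝ) * (Lam n x D / (300 * r)) ≤ 2 / 5 * Lam n x D := by
    have h4 : 0 ≤ Lam n x D / (300 * r) := by positivity
    have h5 := mul_le_mul_of_nonneg_right hcard h4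
    have e : 120 * (r : ℝ) * (Lam n x D / (300 * r)) = 2 / 5 * Lam n x D := by
      field_simp
      ring
    linarith
  linarith

end Pool.Agent.H99B
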