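import Pool.Agent.H99B.Uniq

set_option autoImplicit false

/-! Loop configurations in a finite domain and the loop through a given vertex. -/

namespace Pool.Agent.H99B

open H978R2.Hex

/-- a loop: the set of the edges of a circuit of the lattice -/
def IsLoop (C : Finset (Sym2 V)) : Prop := ∃ v l, Circ v l ∧ C = edges (v :: (l ++ [v]))

open Classical in
/-- the loops in `D` -/
noncomputable def loopsIn (D : Finset V) : Finset (Finset (Sym2 V)) :=
  D.sym2.powerset.filter IsLoop

open Classical in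
/-- the sets of loops in `D` without common vertices -/
noncomputable def configs (D : Finset V) : Finset (Finset (Finset (Sym2 V))) :=
  (loopsIn D).powerset.filter
    (fun S => ∀ C ∈ S, ∀ C' ∈ S, ∀ e ∈ C, ∀ e' ∈ C', ∀ v ∈ e, v ∈ e' → C = C')

/-- the weight of a loop configuration -/
noncomputable def wt (n x : ℝ) (S : Finset (Finset (Sym2 V))) : ℝ :=
  n ^ S.card * x ^ (∑ C ∈ S, C.card)

/-- the partition function of the loop configurations in `D` -/
noncomputable def Lam (n x : ℝ) (D : Finset V) : ℝ := ∑ S ∈ configs D, wt n x S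

/-- the vertices of `D` which are not on `C` -/
def avoid (D : Finset V) (C : Finset (Sym2 V)) : Finset V :=
  D.filter (fun v => ∀ e ∈ C, v ∉ e)

theorem mem_avoid {D : Finset V} {C : Finset (Sym2 V)} {v : V} :
    v ∈ avoid D C ↔ v ∈ D ∧ ∀ e ∈ C, v ∉ e := by
  unfold avoid
  rw [Finset.mem_filter]

theorem mem_loopsIn {D : Finset V} {C : Finset (Sym2 V)} :
    C ∈ loopsIn D ↔ (∀ e ∈ C, ∀ v ∈ e, v ∈ D) ∧ IsLoop C := by
  classical
  unfold loopsIn
  rw [Finset.mem_filter, Finset.mem_powerset]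
  refine and_congr_left fun _ => ?_
  constructor
  · intro h e he v hv
    exact Finset.mem_sym2_iff.1 (h he) v hv
  · intro h e he
    exact Finset.mem_sym2_iff.2 (h e he)

theorem mem_configs {D : Finset V} {S : Finset (Finset (Sym2 V))} :
    S ∈ configs D ↔ (∀ C ∈ S, C ∈ loopsIn D) ∧
      ∀ C ∈ S, ∀ C' ∈ S, ∀ e ∈ C, ∀ e' ∈ C', ∀ v ∈ e, v ∈ e' → C = C' := by
  classical
  unfold configs
  rw [Finset.mem_filter, Finset.mem_powerset]
  exact Iff.rfl

theorem IsLoop.nonempty {C : Finset (Sym2 V)} (h : IsLoop C) : ∃ e ∈ C, ∃ v, v ∈ e := by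
  obtain ⟨v, l, h, rfl⟩ := h
  obtain ⟨e, he, hv⟩ := exists_edge (L := v :: (l ++ [v])) (by simp) (v := v) (by simp)
  exact ⟨e, he, v, hv⟩

/-- the loop through a vertex -/
theorem Lam_decomp (n x : ℝ) (D : Finset V) {z : V} (hz : z ∈ D) [DecidablePred
    (fun C : Finset (Sym2 V) => ∃ e ∈ C, z ∈ e)] :
    Lam n x D = Lam n x (D.erase z) +
      ∑ C ∈ (loopsIn D).filter (fun C => ∃ e ∈ C, z ∈ e),
        n * x ^ C.card * Lam n x (avoid D C) := by
  classical
  unfold Lam
  rw [← Finset.sum_filter_not_add_sum_filter (configs D) (fun S => ∃ C ∈ S, ∃ e ∈ C, z ∈ e)]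
  congr 1
  · refine Finset.sum_congr ?_ fun _ _ => rfl
    ext S
    rw [Finset.mem_filter, mem_configs, mem_configs]
    constructor
    · rintro ⟨⟨h1, h2⟩, h3⟩
      refine ⟨fun C hC => ?_, h2⟩
      have h4 := mem_loopsIn.1 (h1 C hC)
      refine mem_loopsIn.2 ⟨fun e he v hv => ?_, h4.2⟩
      rw [Finset.mem_erase]
      refine ⟨?_, h4.1 e he v hv⟩
      rintro rfl
      exact h3 ⟨C, hC, e, he, hv⟩
    · rintro ⟨h1, h2⟩
      refine ⟨⟨fun C hC => ?_, h2⟩, ?_⟩
      · have h4 := mem_loopsIn.1 (h1 C hC)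
        exact mem_loopsIn.2 ⟨fun e he v hv => Finset.mem_of_mem_erase (h4.1 e he v hv), h4.2⟩
      · rintro ⟨C, hC, e, he, hv⟩
        have h4 := mem_loopsIn.1 (h1 C hC)
        exact Finset.notMem_erase z D (h4.1 e he z hv)
  · simp_rw [Finset.mul_sum]
    rw [Finset.sum_sigma']
    symm
    -- facts
    have key : ∀ (C : Finset (Sym2 V)) (S : Finset (Finset (Sym2 V))),
        S ∈ configs (avoid D C) → ∀ C' ∈ S, ∀ e' ∈ C', ∀ v ∈ e', ∀ e ∈ C, v ∉ e := by
      intro C S hS C' hC' e' he' v hv e he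
      have h1 := mem_loopsIn.1 ((mem_configs.1 hS).1 C' hC')
      exact (mem_avoid.1 (h1.1 e' he' v hv)).2 e he
    have notin : ∀ (C : Finset (Sym2 V)) (S : Finset (Finset (Sym2 V))), IsLoop C →
        S ∈ configs (avoid D C) → C ∉ S := by
      intro C S hC hS hc
      obtain ⟨e, he, v, hv⟩ := hC.nonempty
      exact key C S hS C hc e he v hv e he hv
    refine Finset.sum_bij (fun p _ => insert p.1 p.2) ?_ ?_ ?_ ?_
    · rintro ⟨C, S⟩ hp
      rw [Finset.mem_sigma, Finset.mem_filter] at hp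
      obtain ⟨⟨hC, hz1⟩, hS⟩ := hp
      simp only at hS hC hz1 ⊢
      rw [Finset.mem_filter]
      refine ⟨mem_configs.2 ⟨?_, ?_⟩, C, Finset.mem_insert_self _ _, hz1⟩
      · intro C' hC'
        rcases Finset.mem_insert.1 hC' with rfl | hC'
        · exact hC
        · have h1 := mem_loopsIn.1 ((mem_configs.1 hS).1 C' hC')
          exact mem_loopsIn.2 ⟨fun e he v hv => (mem_avoid.1 (h1.1 e he v hv)).1, h1.2⟩
      · intro C1 h1 C2 h2 e he e' he' v hv hv'
        rcases Finset.mem_insert.1 h1 with rfl | k1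
        · rcases Finset.mem_insert.1 h2 with rfl | k2
          · rfl
          · exact absurd hv (key _ _ hS C2 k2 e' he' v hv' e he)
        · rcases Finset.mem_insert.1 h2 with rfl | k2
          · exact absurd hv' (key _ _ hS C1 k1 e he v hv e' he')
          · exact (mem_configs.1 hS).2 C1 k1 C2 k2 e he e' he' v hv hv'
    · rintro ⟨C, S⟩ hp ⟨C', S'⟩ hp' h
      rw [Finset.mem_sigma, Finset.mem_filter] at hp hp'
      obtain ⟨⟨hC, hz1⟩, hS⟩ := hp
      obtain ⟨⟨hC', hz2⟩, hS'⟩ := hp'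
      simp only at hS hC hz1 hS' hC' hz2 h
      obtain ⟨e, he, hv⟩ := hz1
      obtain ⟨e', he', hv'⟩ := hz2
      have h1 : C = C' := by
        have h2 : C ∈ insert C' S' := by
          rw [← h]
          exact Finset.mem_insert_self _ _
        rcases Finset.mem_insert.1 h2 with h2 | h2
        · exact h2
        · exact absurd hv' (key _ _ hS' C h2 e he z hv e' he')
      subst h1
      have h3 : S = S' := by
        have n1 := notin C S (mem_loopsIn.1 hC).2 hS
        have n2 := notin C S' (mem_loopsIn.1 hC).2 hS'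
        rw [← Finset.erase_insert n1, ← Finset.erase_insert n2, h]
      rw [h3]
    · intro S hS
      rw [Finset.mem_filter] at hS
      obtain ⟨hS, C, hC, e, he, hv⟩ := hS
      have hS' := mem_configs.1 hS
      refine ⟨⟨C, S.erase C⟩, ?_, ?_⟩
      · rw [Finset.mem_sigma, Finset.mem_filter]
        refine ⟨⟨hS'.1 C hC, e, he, hv⟩, ?_⟩
        simp only
        refine mem_configs.2 ⟨?_, ?_⟩
        · intro C' hC'
          rw [Finset.mem_erase] at hC'
          have h1 := mem_loopsIn.1 (hS'.1 C' hC'.2)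
          refine mem_loopsIn.2 ⟨fun e' he' v hv' => mem_avoid.2 ⟨h1.1 e' he' v hv', ?_⟩, h1.2⟩
          intro e2 he2 hv2
          exact hC'.1 (hS'.2 C' hC'.2 C hC e' he' e2 he2 v hv' hv2)
        · intro C1 h1 C2 h2
          exact hS'.2 C1 (Finset.mem_of_mem_erase h1) C2 (Finset.mem_of_mem_erase h2)
      · exact Finset.insert_erase hC
    · rintro ⟨C, S⟩ hp
      rw [Finset.mem_sigma, Finset.mem_filter] at hp
      obtain ⟨⟨hC, hz1⟩, hS⟩ := hp
      simp only at hS hC hz1 ⊢
      have n1 := notin C S (mem_loopsIn.1 hC).2 hS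
      unfold wt
      rw [Finset.card_insert_of_notMem n1, Finset.sum_insert n1, pow_add, pow_succ]
      ring

theorem Lam_congr {n x : ℝ} {D D' : Finset V} (h : D = D') : Lam n x D = Lam n x D' := by rw [h]

theorem Lam_pos {n x : ℝ} (hn : 0 ≤ n) (hx : 0 ≤ x) (D : Finset V) : 1 ≤ Lam n x D := by
  classical
  unfold Lam
  have h1 : (∅ : Finset (Finset (Sym2 V))) ∈ configs D := mem_configs.2 ⟨by simp, by simp⟩
  have h2 : wt n x ∅ = 1 := by simp [wt]
  rw [← h2]
  refine Finset.single_le_sum (f := wt n x) (fun S _ => ?_) h1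
  exact mul_nonneg (pow_nonneg hn _) (pow_nonneg hx _)

end Pool.Agent.H99B
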