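import Pool.Agent.H99B.Ident

set_option autoImplicit false

/-! Cancellation of trapped walks against loops and the main identity. -/

namespace Pool.Agent.H99B

open H978R2.Hex Complex

/-- all trapped walks with fewer than `N` vertices -/
def TrA (D : Finset V) (N : ℕ) : Finset (List V) := (Finset.range N).biUnion (Tr D)

/-- all free walks -/
def FrA (D : Finset V) (N : ℕ) : Finset (List V) := (Finset.range N).biUnion (Free (· ∈ D))

theorem len_P {D : Finset V} {m : ℕ} {l : List V} (h : l ∈ P (· ∈ D) m) : l.length = m + 2 :=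
  (H978R2.Hex.mem_P.1 h).2

theorem Tr_sub {D : Finset V} {m : ℕ} {l : List V} (h : l ∈ Tr D m) : l ∈ P (· ∈ D) m :=
  (Finset.mem_filter.1 h).1

theorem Fr_sub {D : Finset V} {m : ℕ} {l : List V} (h : l ∈ Free (· ∈ D) m) : l ∈ P (· ∈ D) m :=
  (Finset.mem_filter.1 h).1

theorem sum_TrA (D : Finset V) (N : ℕ) (x : ℂ) (f : List V → ℂ) :
    ∑ l ∈ TrA D N, x ^ (l.length - 2) * f l =
      ∑ m ∈ Finset.range N, x ^ m * ∑ l ∈ Tr D m, f l := by
  unfold TrA
  rw [Finset.sum_biUnion]
  · refine Finset.sum_congr rfl fun m _ => ?_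
    rw [Finset.mul_sum]
    refine Finset.sum_congr rfl fun l hl => ?_
    rw [len_P (Tr_sub hl)]
    simp
  · intro a _ b _ hab
    simp only [Function.onFun]
    rw [Finset.disjoint_left]
    intro l h1 h2
    have e1 := len_P (Tr_sub h1)
    have e2 := len_P (Tr_sub h2)
    omega

theorem sum_FrA (D : Finset V) (N : ℕ) (x : ℂ) (f : List V → ℂ) :
    ∑ l ∈ FrA D N, x ^ (l.length - 2) * f l =
      ∑ m ∈ Finset.range N, x ^ m * ∑ l ∈ Free (· ∈ D) m, f l := by
  unfold FrA
  rw [Finset.sum_biUnion]
  · refine Finset.sum_congr rfl fun m _ => ?_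
    rw [Finset.mul_sum]
    refine Finset.sum_congr rfl fun l hl => ?_
    rw [len_P (Fr_sub hl)]
    simp
  · intro a _ b _ hab
    simp only [Function.onFun]
    rw [Finset.disjoint_left]
    intro l h1 h2
    have e1 := len_P (Fr_sub h1)
    have e2 := len_P (Fr_sub h2)
    omega

theorem rest_add {D : Finset V} {z q : V} {B k : List V} (hk : Circ z k)
    (hz : z ∉ q :: B) :
    rest D (k ++ z :: q :: B) = avoid (rest D (q :: B)) (edges (z :: (k ++ [z]))) := by
  ext v
  rw [mem_rest, mem_avoid, mem_rest]
  constructor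
  · rintro ⟨h1, h2⟩
    refine ⟨⟨h1, fun h => h2 ?_⟩, fun e he hv => h2 ?_⟩
    · exact List.mem_append_right _ (List.mem_cons_of_mem _ h)
    · have := mem_of_edges he hv
      simp only [List.mem_cons, List.mem_append, List.not_mem_nil, or_false] at this ⊢
      tauto
  · rintro ⟨⟨h1, h2⟩, h3⟩
    refine ⟨h1, fun h => ?_⟩
    have h4 : v ∈ z :: (k ++ [z]) := by
      simp only [List.mem_cons, List.mem_append, List.not_mem_nil, or_false] at h h2 ⊢
      tauto
    obtain ⟨e, he, hv⟩ := exists_edge (L := z :: (k ++ [z])) (by simp) h4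
    exact h3 e he hv

theorem phase_pair (c : ℝ) (w s : ℤ) (hs : s = 1 ∨ s = -1) :
    exp (((w - 4 * s : ℤ) : ℂ) * c * I) + exp (((w + 4 * s : ℤ) : ℂ) * c * I) =
      (2 * Real.cos (4 * c) : ℂ) * exp ((w : ℂ) * c * I) := by
  have e1 : ((w - 4 * s : ℤ) : ℂ) * c * I = (w : ℂ) * c * I + (s : ℂ) * (-(4 * c * I)) := by
    push_cast; ring
  have e2 : ((w + 4 * s : ℤ) : ℂ) * c * I = (w : ℂ) * c * I + (s : ℂ) * (4 * c * I) := by
    push_cast; ring
  have e3 : (2 : ℂ) * (Real.cos (4 * c) : ℂ) = exp (4 * c * I) + exp (-(4 * c * I)) := by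
    rw [Complex.ofReal_cos, Complex.cos]
    push_cast
    have : -(4 * (c : ℂ)) * I = -(4 * c * I) := by ring
    rw [this]
    ring
  rw [e1, e2, Complex.exp_add, Complex.exp_add, e3]
  rcases hs with rfl | rfl
  · push_cast
    rw [one_mul, one_mul]
    ring
  · push_cast
    rw [neg_one_mul, neg_one_mul, neg_neg]
    ring

/-- the trapped walks with given base and loop -/
theorem fiber_sum (c n x : ℝ) {D : Finset V} (hO : ∀ v ∈ D, ¬ Slit v) {N : ℕ}
    (hN : D.card < N) {z q : V} {B : List V} (hF : z :: q :: B ∈ Free (· ∈ D) B.length)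
    {C : Finset (Sym2 V)} (hC : C ∈ loopsIn (rest D (q :: B))) (hz : ∃ e ∈ C, z ∈ e) :
    ∑ T ∈ ((TrA D N).filter (fun T => base T = z :: q :: B)).filter (fun T => loopOf T = C),
      (x : ℂ) ^ (T.length - 2) * (ph c T * Lam n x (rest D T.tail)) =
    (2 * Real.cos (4 * c) : ℂ) * ((x : ℂ) ^ ((z :: q :: B).length - 2) * (ph c (z :: q :: B) *
      ((x : ℂ) ^ C.card * Lam n x (avoid (rest D (q :: B)) C)))) := by
  classical
  obtain ⟨hCD, v0, l0, h0, hC0⟩ := mem_loopsIn.1 hC
  obtain ⟨e0, he0, hz0⟩ := hz
  have hz1 : z ∈ v0 :: l0 := by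
    rw [hC0] at he0
    have := mem_of_edges he0 hz0
    simp only [List.mem_cons, List.mem_append, List.not_mem_nil, or_false] at this ⊢
    tauto
  obtain ⟨k, hk, hkC⟩ := reroot h0 hz1
  rw [← hC0] at hkC
  have hFf := hF
  unfold Free at hFf
  rw [Finset.mem_filter] at hFf
  obtain ⟨hP, hzD, hzt⟩ := hFf
  simp only [List.headD_cons, List.tail_cons] at hzD hzt
  have hnk := List.nodup_cons.1 hk.nodup
  have hkr : ∀ v ∈ k, v ∈ rest D (q :: B) := by
    intro v hv
    obtain ⟨e, he, hve⟩ := exists_edge (L := z :: (k ++ [z])) (by simp) (v := v)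
      (by simp [hv])
    rw [hkC] at he
    exact hCD e he v hve
  -- the reversed circuit
  have hk' : Circ z k.reverse := by
    refine ⟨by simpa using hk.len, ?_, ?_⟩
    · rw [List.nodup_cons]
      exact ⟨by simpa using hnk.1, List.nodup_reverse.2 hnk.2⟩
    · have h1 : z :: (k.reverse ++ [z]) = (z :: (k ++ [z])).reverse := by simp
      rw [h1, List.isChain_reverse]
      exact hk.chain.imp (fun a b hab => adj_symm' hab)
  have hkr' : ∀ v ∈ k.reverse, v ∈ rest D (q :: B) := fun v hv => hkr v (by simpa using hv)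
  have g1 := good_add hF hk hkr
  have g2 := good_add hF hk' hkr'
  have hcard : C.card = k.length + 1 := by
    rw [← hkC, card_circuit hk.len hk.nodup]
  -- first and last vertex of `k`
  obtain ⟨e, M, a, hkM⟩ : ∃ e M a, k = e :: (M ++ [a]) := by
    match k, hk.len with
    | e :: k', hlen =>
      rcases List.eq_nil_or_concat k' with h | ⟨M, a, h⟩
      · rw [h] at hlen; simp at hlen
      · exact ⟨e, M, a, by rw [h, List.concat_eq_append]⟩
    | [], hlen => simp at hlen
  have hkM' : k.reverse = a :: (M.reverse ++ [e]) := by rw [hkM]; simp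
  have hne : k ≠ k.reverse := by
    rw [hkM', hkM]
    intro h
    have h1 : e = a := (List.cons.inj h).1
    have h2 := hnk.2
    rw [hkM, List.nodup_cons] at h2
    apply h2.1
    rw [h1]
    simp
  have mem1 : ∀ (k' : List V), Circ z k' → k'.length = k.length →
      Good (· ∈ D) z (k' ++ z :: q :: B) → edges (z :: (k' ++ [z])) = C →
      z :: (k' ++ z :: q :: B) ∈ ((TrA D N).filter (fun T => base T = z :: q :: B)).filter
        (fun T => loopOf T = C) := by
    intro k' hk1 hlen hg hE
    have hzk : z ∉ k' := (List.nodup_cons.1 hk1.nodup).1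
    rw [Finset.mem_filter, Finset.mem_filter]
    refine ⟨⟨?_, (base_loop hzk).1⟩, by rw [(base_loop hzk).2, hE]⟩
    have hmem : z :: (k' ++ z :: q :: B) ∈ P (· ∈ D) (B.length + k'.length + 1) :=
      hg.mem_P (by simp only [List.length_append, List.length_cons]; omega)
    have hle := le_card hmem
    unfold TrA
    rw [Finset.mem_biUnion]
    refine ⟨B.length + k'.length + 1, Finset.mem_range.2 (by omega), ?_⟩
    unfold Tr
    rw [Finset.mem_filter]
    exact ⟨hmem, by simpa using hzD, by simp⟩
  have hset : ((TrA D N).filter (fun T => base T = z :: q :: B)).filter (fun T => loopOf T = C) =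
      {z :: (k ++ z :: q :: B), z :: (k.reverse ++ z :: q :: B)} := by
    ext T
    rw [Finset.mem_insert, Finset.mem_singleton]
    constructor
    · intro hT
      rw [Finset.mem_filter, Finset.mem_filter] at hT
      obtain ⟨⟨hT1, hT2⟩, hT3⟩ := hT
      unfold TrA at hT1
      rw [Finset.mem_biUnion] at hT1
      obtain ⟨m, -, hT1⟩ := hT1
      obtain ⟨z', r, q', B', rfl, hr, -, -, -, -⟩ := trap_struct hO hT1
      have hzr : z' ∉ r := (List.nodup_cons.1 hr.nodup).1
      rw [(base_loop hzr).1] at hT2
      rw [(base_loop hzr).2] at hT3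
      simp only [List.cons.injEq] at hT2
      obtain ⟨rfl, rfl, rfl⟩ := hT2
      have := uniq hk.len hk.nodup hr.len hr.nodup (by rw [hkC, hT3])
      rcases this with rfl | rfl
      · left; rfl
      · right; rfl
    · rintro (rfl | rfl)
      · exact mem1 k hk rfl g1 hkC
      · exact mem1 k.reverse hk' (by simp) g2 (by rw [edges_rev, hkC])
  rw [hset, Finset.sum_pair]
  · -- values
    have t1 : (z :: (k ++ z :: q :: B)).tail = k ++ z :: q :: B := rfl
    have t2 : (z :: (k.reverse ++ z :: q :: B)).tail = k.reverse ++ z :: q :: B := rfl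
    have l1 : (z :: (k ++ z :: q :: B)).length - 2 = ((z :: q :: B).length - 2) + C.card := by
      rw [hcard]
      simp only [List.length_append, List.length_cons]
      omega
    have l2 : (z :: (k.reverse ++ z :: q :: B)).length - 2 =
        ((z :: q :: B).length - 2) + C.card := by
      rw [hcard]
      simp only [List.length_append, List.length_cons, List.length_reverse]
      omega
    rw [t1, t2, l1, l2, rest_add hk hzt, rest_add hk' hzt, edges_rev, hkC]
    have g1' : Good (· ∈ D) z ((e :: (M ++ [a])) ++ z :: q :: B) := by rw [← hkM]; exact g1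
    have g2' : Good (· ∈ D) z ((a :: (M.reverse ++ [e])) ++ z :: q :: B) := by
      rw [← hkM']; exact g2
    have w1 := W_trap hO g1'
    have w2 := W_trap hO g2'
    rw [← hkM] at w1
    rw [← hkM'] at w2
    have hc := g1'.chain
    have hce : Adj e z := by
      simp only [List.cons_append] at hc
      rw [List.isChain_cons_cons] at hc
      exact hc.1
    have hca : Adj a z := by
      have hc2 := g2'.chain
      simp only [List.cons_append] at hc2
      rw [List.isChain_cons_cons] at hc2
      exact hc2.1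
    have hqz : Adj q z := by
      obtain ⟨z', t', h1, hg, -⟩ := good_of_mem hP
      simp only [List.cons.injEq] at h1
      obtain ⟨rfl, rfl⟩ := h1
      have := hg.chain
      rw [List.isChain_cons_cons] at this
      exact this.1
    have hqa : q ≠ a := by
      rintro rfl
      have := (mem_rest.1 (hkr q (by rw [hkM]; simp))).2
      exact this (by simp)
    have hqe : q ≠ e := by
      rintro rfl
      have := (mem_rest.1 (hkr q (by rw [hkM]; simp))).2
      exact this (by simp)
    have hae : a ≠ e := by
      rintro rfl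
      have h2 := hnk.2
      rw [hkM, List.nodup_cons] at h2
      apply h2.1
      simp
    have ho := turn_other hqz (adj_symm' hca) (adj_symm' hce) hqa hqe hae
    have hpm := turn_pm hqz (adj_symm' hca) hqa
    have w2' : W (z :: (k.reverse ++ z :: q :: B)) = W (z :: q :: B) + 4 * turn q z a := by
      rw [w2, ho]; ring
    unfold ph
    rw [w1, w2']
    have key := phase_pair c (W (z :: q :: B)) (turn q z a) hpm
    rw [pow_add]
    linear_combination ((x : ℂ) ^ ((z :: q :: B).length - 2) * (x : ℂ) ^ C.card *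
      (Lam n x (avoid (rest D (q :: B)) C) : ℂ)) * key
  · intro h
    apply hne
    simp only [List.cons.injEq, true_and] at h
    exact List.append_cancel_right h

end Pool.Agent.H99B
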