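import Pool.Agent.H99B.Dom

set_option autoImplicit false

/-! The two real relations between the weights of the sides. -/

namespace Pool.Agent.H99B

open H978R2.Hex Complex

/-- weight (without the last step) of the walks which land in `R` -/
noncomputable def Ms (n x : ℝ) (D : Finset V) (R : V → Prop) [DecidablePred R] : ℝ :=
  ∑ m ∈ Finset.range (D.card + 2), x ^ m *
    ∑ l ∈ (Ld D m).filter (fun l => R (l.headD (0, 0))), Lam n x (rest D l.tail)

theorem complex_sides (c n x : ℝ) (hn : n = -2 * Real.cos (4 * c)) (hx : x * (2 * Real.cos c) = 1)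
    {p q h : ℕ} (hh : 1 ≤ h) :
    exp (3 * c * I) * Ms n x (Tz p q h) Bp + exp (-3 * c * I) * Ms n x (Tz p q h) Bm +
      exp (c * I) * Ms n x (Tz p q h) (Sp p) + exp (-c * I) * Ms n x (Tz p q h) (Sm q) +
      Ms n x (Tz p q h) (Tp h) = Lam n x (Tz p q h) := by
  rw [← ident_loops c n x hn hx (base_Tz hh) slit_Tz]
  unfold Ms
  push_cast
  simp_rw [Finset.mul_sum]
  rw [← Finset.sum_add_distrib, ← Finset.sum_add_distrib, ← Finset.sum_add_distrib,
    ← Finset.sum_add_distrib]
  refine Finset.sum_congr rfl fun m _ => ?_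
  rw [Finset.sum_filter, Finset.sum_filter, Finset.sum_filter, Finset.sum_filter,
    Finset.sum_filter, ← Finset.sum_add_distrib, ← Finset.sum_add_distrib,
    ← Finset.sum_add_distrib, ← Finset.sum_add_distrib]
  refine Finset.sum_congr rfl fun l hl => ?_
  obtain ⟨z, v, hz, hv, ha, hz0, hcl⟩ := class_Tz hh hl
  rw [hz]
  rw [mem_Tz] at hv
  have hc := adj_cases ha
  unfold ph
  rcases hcl with ⟨hW, hR⟩ | ⟨hW, hR⟩ | ⟨hW, hR⟩ | ⟨hW, hR⟩ | ⟨hW, hR⟩
  · have n1 : ¬ Bm z := by unfold Bp at hR; unfold Bm; omega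
    have n2 : ¬ Sp p z := by unfold Bp at hR; unfold Sp; omega
    have n3 : ¬ Sm q z := by unfold Bp at hR; unfold Sm; omega
    have n4 : ¬ Tp h z := by unfold Bp at hR; unfold Tp; omega
    rw [if_pos hR, if_neg n1, if_neg n2, if_neg n3, if_neg n4, hW]
    push_cast
    ring
  · have n1 : ¬ Bp z := by unfold Bm at hR; unfold Bp; omega
    have n2 : ¬ Sp p z := by unfold Bm at hR; unfold Sp; omega
    have n3 : ¬ Sm q z := by unfold Bm at hR; unfold Sm; omega
    have n4 : ¬ Tp h z := by unfold Bm at hR; unfold Tp; omega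
    rw [if_neg n1, if_pos hR, if_neg n2, if_neg n3, if_neg n4, hW]
    push_cast
    ring
  · have n1 : ¬ Bp z := by unfold Sp at hR; unfold Bp; omega
    have n2 : ¬ Bm z := by unfold Sp at hR; unfold Bm; omega
    have n3 : ¬ Sm q z := by unfold Sp at hR; unfold Sm; omega
    have n4 : ¬ Tp h z := by unfold Sp at hR; unfold Tp; omega
    rw [if_neg n1, if_neg n2, if_pos hR, if_neg n3, if_neg n4, hW]
    push_cast
    ring_nf
  · have n1 : ¬ Bp z := by unfold Sm at hR; unfold Bp; omega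
    have n2 : ¬ Bm z := by unfold Sm at hR; unfold Bm; omega
    have n3 : ¬ Sp p z := by unfold Sm at hR; unfold Sp; omega
    have n4 : ¬ Tp h z := by unfold Sm at hR; unfold Tp; omega
    rw [if_neg n1, if_neg n2, if_neg n3, if_pos hR, if_neg n4, hW]
    push_cast
    ring_nf
  · have n1 : ¬ Bp z := by unfold Tp at hR; unfold Bp; omega
    have n2 : ¬ Bm z := by unfold Tp at hR; unfold Bm; omega
    have n3 : ¬ Sp p z := by unfold Tp at hR; unfold Sp; omega
    have n4 : ¬ Sm q z := by unfold Tp at hR; unfold Sm; omega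
    rw [if_neg n1, if_neg n2, if_neg n3, if_neg n4, if_pos hR, hW]
    push_cast
    rw [zero_mul, zero_mul, Complex.exp_zero]
    ring

/-- the two real relations -/
theorem real_sides (c n x : ℝ) (hn : n = -2 * Real.cos (4 * c)) (hx : x * (2 * Real.cos c) = 1)
    (hs : Real.sin c ≠ 0) {p q h : ℕ} (hh : 1 ≤ h) :
    (4 * Real.cos c ^ 2 - 3) * (Ms n x (Tz p q h) Bp + Ms n x (Tz p q h) Bm) +
      (Ms n x (Tz p q h) (Sp p) + Ms n x (Tz p q h) (Sm q)) +
      2 * x * Ms n x (Tz p q h) (Tp h) = 2 * x * Lam n x (Tz p q h) ∧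
    (4 * Real.cos c ^ 2 - 1) * (Ms n x (Tz p q h) Bp - Ms n x (Tz p q h) Bm) +
      (Ms n x (Tz p q h) (Sp p) - Ms n x (Tz p q h) (Sm q)) = 0 := by
  have h := complex_sides c n x hn hx (p := p) (q := q) hh
  have e3 : (3 * (c : ℂ) * I) = ((3 * c : ℝ) : ℂ) * I := by push_cast; ring
  have em3 : (-3 * (c : ℂ) * I) = ((-(3 * c) : ℝ) : ℂ) * I := by push_cast; ring
  have em1 : (-(c : ℂ) * I) = ((-c : ℝ) : ℂ) * I := by push_cast; ring
  rw [e3, em3, em1] at h
  have hre := congrArg Complex.re h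
  have him := congrArg Complex.im h
  simp only [Complex.add_re, Complex.add_im, Complex.re_mul_ofReal, Complex.im_mul_ofReal,
    Complex.exp_ofReal_mul_I_re, Complex.exp_ofReal_mul_I_im, Complex.ofReal_re,
    Complex.ofReal_im, Real.cos_neg, Real.sin_neg] at hre him
  have c3 : Real.cos (3 * c) = 4 * Real.cos c ^ 3 - 3 * Real.cos c := Real.cos_three_mul c
  have s3 : Real.sin (3 * c) = Real.sin c * (4 * Real.cos c ^ 2 - 1) := by
    rw [Real.sin_three_mul]
    have := Real.sin_sq_add_cos_sq c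
    linear_combination (-4 * Real.sin c) * this
  rw [c3] at hre
  rw [s3] at him
  constructor
  · linear_combination (2 * x) * hre -
      ((4 * Real.cos c ^ 2 - 3) * (Ms n x (Tz p q ‹_›) Bp + Ms n x (Tz p q ‹_›) Bm) +
        (Ms n x (Tz p q ‹_›) (Sp p) + Ms n x (Tz p q ‹_›) (Sm q))) * hx
  · apply mul_left_cancel₀ hs
    linear_combination him

end Pool.Agent.H99B
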