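import Pool.Agent.H99B.Edges

set_option autoImplicit false

/-! A circuit has exactly two orientations. -/

namespace Pool.Agent.H99B

open H978R2.Hex

/-- closed list with base `z` -/
structure Cl (z : V) (c : List V) : Prop where
  head : c.head? = some z
  last : c.getLast? = some z
  cz : c.count z = 2
  cy : ∀ y, y ≠ z → c.count y ≤ 1
  len : 4 ≤ c.length

theorem cl_of {z : V} {l : List V} (hl : 2 ≤ l.length) (hn : (z :: l).Nodup) :
    Cl z (z :: (l ++ [z])) := by
  have h1 := List.nodup_cons.1 hn
  refine ⟨rfl, ?_, ?_, ?_, ?_⟩
  · rw [← List.cons_append, List.getLast?_append]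
    simp
  · rw [List.count_cons_self, List.count_append, List.count_eq_zero_of_not_mem h1.1,
      List.count_singleton_self]
  · intro y hy
    rw [List.count_cons_of_ne (Ne.symm hy), List.count_append]
    have h2 := List.nodup_iff_count_le_one.1 h1.2 y
    have h3 : List.count y [z] = 0 := List.count_eq_zero_of_not_mem (by simpa using hy)
    omega
  · simp only [List.length_cons, List.length_append, List.length_nil]
    omega

theorem cl_mem {z u v : V} {X R : List V} (h : Cl z (X ++ u :: v :: R)) : z ∈ X ++ [u] := by
  have h1 := h.head
  match X, h1 with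
  | [], h1 =>
    simp only [List.nil_append, List.head?_cons, Option.some.injEq] at h1
    simp [h1]
  | x :: X, h1 =>
    simp only [List.cons_append, List.head?_cons, Option.some.injEq] at h1
    simp [h1]

theorem cl_last {z u v w : V} {X R : List V} (h : Cl z (X ++ u :: v :: w :: R)) : z ∈ w :: R := by
  have h1 := h.last
  have e : X ++ u :: v :: w :: R = (X ++ [u, v]) ++ w :: R := by simp
  rw [e, List.getLast?_append] at h1
  have h2 : (w :: R).getLast? = some ((w :: R).getLast (by simp)) :=
    List.getLast?_eq_some_getLast (by simp)
  rw [h2] at h1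
  simp only [Option.some_or, Option.some.injEq] at h1
  rw [← h1]
  exact List.getLast_mem _

theorem cl_count {X R : List V} {u v : V} (y : V) :
    (X ++ u :: v :: R).count y = (X ++ [u]).count y + (if v = y then 1 else 0) + R.count y := by
  have e : X ++ u :: v :: R = (X ++ [u]) ++ v :: R := by simp
  rw [e, List.count_append, List.count_cons]
  simp only [beq_iff_eq]
  omega

theorem cl_ne {z u v w : V} {X R : List V} (h : Cl z (X ++ u :: v :: w :: R)) : v ≠ z := by
  rintro rfl
  have h1 := List.count_pos_iff.2 (cl_mem h)
  have h2 := List.count_pos_iff.2 (cl_last h)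
  have h3 := h.cz
  rw [cl_count, if_pos rfl] at h3
  omega

theorem cl_notMem {z u v w : V} {X R : List V} (h : Cl z (X ++ u :: v :: w :: R)) :
    v ∉ X ++ [u] ∧ v ∉ w :: R := by
  have h3 := h.cy v (cl_ne h)
  rw [cl_count, if_pos rfl] at h3
  constructor
  · intro hc
    have := List.count_pos_iff.2 hc
    omega
  · intro hc
    have := List.count_pos_iff.2 hc
    omega

theorem cl_ne2 {z u v w : V} {X R : List V} (h : Cl z (X ++ u :: v :: w :: R)) : w ≠ u := by
  rintro rfl
  have h0 := h.cz
  have hlen := h.len
  have hlast := h.last
  by_cases hw : w = z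
  · subst hw
    rw [cl_count] at h0
    have h1 : (X ++ [w]).count w = X.count w + 1 := by
      rw [List.count_append, List.count_singleton_self]
    have h2 : (w :: R).count w = R.count w + 1 := List.count_cons_self
    rw [h1, h2] at h0
    have hX : X = [] := by
      rcases List.eq_nil_or_concat X with hX | ⟨X', x, hX⟩
      · exact hX
      · exfalso
        match X, h.head, h0 with
        | [], _, _ => simp at hX
        | y :: X, hh, h0 =>
          simp only [List.cons_append, List.head?_cons, Option.some.injEq] at hh
          rw [hh, List.count_cons_self] at h0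
          omega
    have hR : R = [] := by
      rcases List.eq_nil_or_concat R with hR | ⟨R', x, hR⟩
      · exact hR
      · exfalso
        rw [List.concat_eq_append] at hR
        have e : X ++ w :: v :: w :: R = (X ++ w :: v :: w :: R') ++ [x] := by rw [hR]; simp
        rw [e, List.getLast?_append] at hlast
        simp only [List.getLast?_singleton, Option.some_or, Option.some.injEq] at hlast
        rw [hR, hlast, List.count_append, List.count_singleton_self] at h0
        omega
    rw [hX, hR] at hlen
    simp at hlen
  · have h1 := h.cy w hw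
    rw [cl_count] at h1
    have h2 : 0 < (X ++ [w]).count w := List.count_pos_iff.2 (by simp)
    have h3 : 0 < (w :: R).count w := List.count_pos_iff.2 (by simp)
    omega

theorem det {z : V} (R : List V) : ∀ (R' X : List V) (u v : V), Cl z (X ++ u :: v :: R) →
    Cl z (X ++ u :: v :: R') → edges (X ++ u :: v :: R) = edges (X ++ u :: v :: R') → R = R' := by
  induction R with
  | nil =>
    intro R' X u v h h' _
    match R', h' with
    | [], _ => rfl
    | w :: R', h' =>
      exfalso
      apply cl_ne h'
      have h1 := h.last
      have e : X ++ [u, v] = (X ++ [u]) ++ [v] := by simp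
      rw [e, List.getLast?_append] at h1
      simpa using h1
  | cons w R ih =>
    intro R' X u v h h' he
    match R', h', he with
    | [], h', _ =>
      exfalso
      apply cl_ne h
      have h1 := h'.last
      have e : X ++ [u, v] = (X ++ [u]) ++ [v] := by simp
      rw [e, List.getLast?_append] at h1
      simpa using h1
    | w' :: R', h', he =>
      have h1 : s(v, w) ∈ edges (X ++ u :: v :: w :: R) := by
        have e : X ++ u :: v :: w :: R = (X ++ [u]) ++ v :: w :: R := by simp
        rw [e, edges_append, Finset.mem_union, edges_cons]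
        right
        exact Finset.mem_insert_self _ _
      rw [he] at h1
      have h2 := nb_edge (z := z) (cl_notMem h').1 (cl_notMem h').2 h1
      have h3 : w = w' := h2.resolve_left (cl_ne2 h)
      subst h3
      have e1 : ∀ S : List V, X ++ u :: v :: w :: S = (X ++ [u]) ++ v :: w :: S := by
        intro S
        simp
      rw [ih R' (X ++ [u]) v w (by rw [← e1]; exact h) (by rw [← e1]; exact h')
        (by rw [← e1, ← e1]; exact he)]

theorem rev_closed (z : V) (l : List V) :
    (z :: (l ++ [z])).reverse = z :: (l.reverse ++ [z]) := by simp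

theorem edges_rev (z : V) (l : List V) :
    edges (z :: (l.reverse ++ [z])) = edges (z :: (l ++ [z])) := by
  rw [← rev_closed, edges_reverse]

/-- a circuit has only two orientations -/
theorem uniq {z : V} {l l' : List V} (hl : 2 ≤ l.length) (hn : (z :: l).Nodup)
    (hl' : 2 ≤ l'.length) (hn' : (z :: l').Nodup)
    (he : edges (z :: (l ++ [z])) = edges (z :: (l' ++ [z]))) : l' = l ∨ l' = l.reverse := by
  have same : ∀ (k : List V), 2 ≤ k.length → (z :: k).Nodup →
      edges (z :: (k ++ [z])) = edges (z :: (l' ++ [z])) → k.head? = l'.head? → l' = k := by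
    intro k hk hnk hek hh
    match k, l', hk, hl', hh, hnk, hn', hek with
    | a :: k, b :: m, hk, hm, hh, hnk, hnm, hek =>
      simp only [List.head?_cons, Option.some.injEq] at hh
      subst hh
      have h1 := cl_of hk hnk
      have h2 := cl_of hm hnm
      have h3 := det (z := z) (k ++ [z]) (m ++ [z]) [] z a h1 h2 hek
      rw [List.append_cancel_right h3]
    | [], _, hk, _, _, _, _, _ => simp at hk
    | _ :: _, [], _, hm, _, _, _, _ => simp at hm
  -- the second vertex of the circuit
  obtain ⟨e', t', rfl⟩ : ∃ e' t', l' = e' :: t' := by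
    match l', hl' with
    | [], h => simp at h
    | a :: b, _ => exact ⟨a, b, rfl⟩
  have h1 : s(z, e') ∈ edges (z :: (l ++ [z])) := by
    rw [he, List.cons_append, edges_cons]
    exact Finset.mem_insert_self _ _
  have hz' : e' ≠ z := by
    rintro rfl
    simp at hn'
  rcases List.eq_nil_or_concat l with h | ⟨l0, a, h⟩
  · rw [h] at hl
    simp at hl
  rw [List.concat_eq_append] at h
  have e1 : z :: (l ++ [z]) = (z :: l0) ++ a :: [z] := by rw [h]; simp
  have e2 : (z :: l0) ++ [a] = z :: l := by rw [h]; simp
  rw [e1, edges_append, e2, Finset.mem_union, edges_cons, edges_one, Finset.mem_insert] at h1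
  rcases h1 with h1 | h1 | h1
  · left
    refine same l hl hn he ?_
    match l, hl, hn, h1 with
    | b :: t, _, hn, h1 =>
      have := head_edge hn h1
      rw [this]
      rfl
    | [], hl, _, _ => simp at hl
  · right
    refine same l.reverse (by simpa using hl) ?_ ?_ ?_
    · have h3 := List.nodup_cons.1 hn
      rw [List.nodup_cons]
      exact ⟨by simpa using h3.1, List.nodup_reverse.2 h3.2⟩
    · rw [edges_rev]
      exact he
    · rw [Sym2.eq_iff] at h1
      have h4 : e' = a := by
        rcases h1 with ⟨h5, h6⟩ | ⟨-, h6⟩
        · exact absurd h6 hz'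
        · exact h6
      rw [h, List.reverse_append, h4]
      rfl
  · exact absurd h1 (Finset.notMem_empty _)

/-- change of the base point -/
theorem reroot {v z : V} {l : List V} (h : Circ v l) (hz : z ∈ v :: l) :
    ∃ k, Circ z k ∧ edges (z :: (k ++ [z])) = edges (v :: (l ++ [v])) := by
  rcases List.mem_cons.1 hz with rfl | hz
  · exact ⟨l, h, rfl⟩
  · obtain ⟨A, B, rfl⟩ := List.append_of_mem hz
    have e1 : v :: ((A ++ z :: B) ++ [v]) = (v :: A) ++ z :: (B ++ [v]) := by simp
    have e2 : z :: ((B ++ v :: A) ++ [z]) = (z :: B) ++ v :: (A ++ [z]) := by simp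
    refine ⟨B ++ v :: A, ⟨?_, ?_, ?_⟩, ?_⟩
    · have := h.len
      simp only [List.length_append, List.length_cons] at this ⊢
      omega
    · have hp : (z :: (B ++ v :: A)).Perm (v :: (A ++ z :: B)) := by
        have h1 : z :: (B ++ v :: A) = (z :: B) ++ (v :: A) := by simp
        have h2 : v :: (A ++ z :: B) = (v :: A) ++ (z :: B) := by simp
        rw [h1, h2]
        exact List.perm_append_comm
      exact hp.nodup_iff.2 h.nodup
    · have hc := h.chain
      rw [e1, List.isChain_split] at hc
      rw [e2, List.isChain_split]
      exact ⟨hc.2, hc.1⟩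
    · rw [e1, e2, edges_append, edges_append (v :: A)]
      have e3 : (z :: B) ++ [v] = z :: (B ++ [v]) := by simp
      have e4 : (v :: A) ++ [z] = v :: (A ++ [z]) := by simp
      rw [e3, e4, Finset.union_comm]

end Pool.Agent.H99B
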