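import Pool.Agent.H99B.Cons
import Pool.Agent.H978R3.Wedge.Dom

set_option autoImplicit false

/-! Lattice wedges of opening `60 j` degrees, `j = 1, …, 5`: the turning of the walks which end on the
sides of the wedge and of those which leave the hexagon. -/

namespace Pool.Agent.H99B

open H978R2.Hex Complex

/-- the infinite lattice wedge -/
def Wk (j : ℕ) (v : V) : Prop :=
  (v.2 = 0 → 1 ≤ v.1) ∧ (1 ≤ v.2 → 3 ≤ j ∧ (j ≤ 4 → 1 ≤ v.1 - v.2) ∧ 2 ≤ v.1 + v.2) ∧
    (v.2 ≤ -1 → (j = 1 → 0 ≤ v.1 + v.2) ∧ (j ≤ 3 → 1 ≤ v.1 - v.2))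

/-- the hexagon of radius `N` -/
def Hg (N : ℕ) (v : V) : Prop :=
  -(N : ℤ) ≤ v.2 ∧ v.2 ≤ N ∧ -2 * (N : ℤ) ≤ v.1 + v.2 ∧ v.1 + v.2 ≤ 2 * N + 1 ∧
    -2 * (N : ℤ) + 1 ≤ v.1 - v.2 ∧ v.1 - v.2 ≤ 2 * N

instance (j : ℕ) : DecidablePred (Wk j) := fun v => by unfold Wk; infer_instance
instance (N : ℕ) : DecidablePred (Hg N) := fun v => by unfold Hg; infer_instance

/-- the truncated wedge -/
noncomputable def Sc (j N : ℕ) : Finset V :=
  (Finset.Icc (-2 * (N : ℤ)) (2 * N) ×ˢ Finset.Icc (-(N : ℤ)) N).filter (fun v => Wk j v ∧ Hg N v)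

theorem mem_Sc {j N : ℕ} {v : V} : v ∈ Sc j N ↔ Wk j v ∧ Hg N v := by
  unfold Sc
  rw [Finset.mem_filter, Finset.mem_product, Finset.mem_Icc, Finset.mem_Icc]
  constructor
  · exact fun h => h.2
  · intro h
    have h2 := h.2
    unfold Hg at h2
    exact ⟨⟨⟨by omega, by omega⟩, by omega, by omega⟩, h⟩

theorem base_Sc {j N : ℕ} (hN : 1 ≤ N) : (1, 0) ∈ Sc j N := by
  rw [mem_Sc]
  unfold Wk Hg
  simp only
  omega

theorem slit_Sc {j N : ℕ} : ∀ v ∈ Sc j N, ¬ Slit v := by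
  intro v hv hs
  rw [mem_Sc] at hv
  unfold Wk at hv
  unfold Slit at hs
  have := hv.1.1 hs.1
  omega

/-- parameters of the truncated wedge -/
def wp (j N : ℕ) : Par where
  a4 := 2
  c3 := if j ≤ 4 then 1 else -2 * N + 1
  R := if j ≤ 2 then 0 else N
  b := 2 * N + 1
  d := 2 * N
  Q := N
  a2 := if j = 1 then 0 else -2 * N
  c1 := if j ≤ 3 then 1 else -2 * N + 1

theorem wp_ok {j N : ℕ} (hN : 1 ≤ N) : Ok (wp j N) := by
  constructor <;> simp only [wp] <;> (try split_ifs) <;> omega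

theorem wp_om {j N : ℕ} (h1 : 1 ≤ j) (h5 : j ≤ 5) (v : V) : v ∈ Sc j N ↔ Om (wp j N) v := by
  rw [mem_Sc]
  unfold Wk Hg Om wp
  rcases lt_trichotomy v.2 0 with h | h | h
  · have c1 : ¬ (v.2 = 0) := by omega
    have c2 : ¬ (1 ≤ v.2) := by omega
    have c3 : v.2 ≤ -1 := by omega
    simp only [c1, c2, c3, false_implies, true_implies, true_and]
    interval_cases j <;> norm_num <;> omega
  · have c2 : ¬ (1 ≤ v.2) := by omega
    have c3 : ¬ (v.2 ≤ -1) := by omega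
    simp only [h, true_implies, show ¬ (1 ≤ (0:ℤ)) by omega, show ¬ ((0:ℤ) ≤ -1) by omega,
      false_implies, and_true]
    interval_cases j <;> norm_num <;> omega
  · have c1 : ¬ (v.2 = 0) := by omega
    have c2 : 1 ≤ v.2 := by omega
    have c3 : ¬ (v.2 ≤ -1) := by omega
    simp only [c1, c2, c3, false_implies, true_implies, true_and, and_true]
    interval_cases j <;> norm_num <;> omega

/-- the walk does not end at its start -/
theorem end_ne {D : Finset V} (h10 : (1, 0) ∈ D) (hD : ∀ v ∈ D, Adj v (0, 0) → v = (1, 0)) {m : ℕ}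
    {l : List V} (hl : l ∈ Ld D m) : l.headD (0, 0) ≠ (0, 0) := by
  obtain ⟨z, v, x, t, rfl, hv, ha, hzx, hz, hg, hlen⟩ := Ld_struct h10 hl
  simp only [List.headD_cons]
  rintro rfl
  have hv1 := hD v hv ha
  subst hv1
  have hs := hg.suff
  have hnd := hg.nodup
  have h2 : [((1, 0) : V), (0, 0)] <:+ (1, 0) :: x :: t :=
    List.suffix_of_suffix_length_le hs (List.suffix_cons _ _) (by simp)
  obtain ⟨s, hs2⟩ := h2
  match s, hs2 with
  | [], hs2 =>
    simp only [List.nil_append, List.cons.injEq, true_and] at hs2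
    exact hzx hs2.1
  | a :: s, hs2 =>
    simp only [List.cons_append, List.cons.injEq] at hs2
    obtain ⟨rfl, hs2⟩ := hs2
    rw [List.nodup_cons] at hnd
    apply hnd.1
    rw [← hs2]
    simp

theorem adj_base {j N : ℕ} {v : V} (hv : v ∈ Sc j N) (h : Adj v (0, 0)) : v = (1, 0) := by
  rw [mem_Sc] at hv
  have hc := adj_cases h
  unfold Wk at hv
  obtain ⟨⟨h0, h1, h2⟩, -⟩ := hv
  simp only at hc
  apply Prod.ext
  · simp only
    rcases lt_trichotomy v.2 0 with h | h | h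
    · omega
    · have := h0 h
      omega
    · have := h1 (by omega)
      omega
  · simp only
    rcases lt_trichotomy v.2 0 with h | h | h
    · omega
    · omega
    · have := h1 (by omega)
      omega

/-- the turning of the walks determines whether they leave the hexagon or hit the sides -/
theorem class_Sc {j N : ℕ} (hN : 1 ≤ N) (h1 : 1 ≤ j) (h5 : j ≤ 5) {m : ℕ} {l : List V}
    (hl : l ∈ Ld (Sc j N) m) :
    (Wk j (l.headD (0, 0)) ∧ -(((j : ℤ) + 3 + 1) / 2) + 2 ≤ W l ∧ W l ≤ ((j : ℤ) + 3) / 2 - 2) ∨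
    (¬ Wk j (l.headD (0, 0)) ∧ (W l = ((j : ℤ) + 3) / 2 ∨ W l = -(((j : ℤ) + 3 + 1) / 2))) := by
  have hz0 := end_ne (base_Sc hN) (fun v hv h => adj_base hv h) hl
  obtain ⟨z, v, x, t, rfl, hv, ha, hzx, hz, hg, hlen⟩ := Ld_struct (base_Sc hN) hl
  simp only [List.headD_cons] at hz0 ⊢
  have hP := (Finset.mem_filter.1 hl).1
  have hval := H978R2.Hex.mem_P.1 hP
  have hpe : (fun v => v ∈ Sc j N) = Om (wp j N) := funext fun v => propext (wp_om h1 h5 v)
  have hval2 : Val (Om (wp j N)) (z :: v :: x :: t) := by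
    rw [← hpe]
    exact hval.1
  have hP2 : z :: v :: x :: t ∈ P (Om (wp j N)) m := H978R2.Hex.mem_P.2 ⟨hval2, hval.2⟩
  have hO : ¬ Om (wp j N) ((z :: v :: x :: t).headD (0, 0)) := by
    simp only [List.headD_cons]
    intro hc
    exact hz ((wp_om h1 h5 z).2 hc)
  have hout := class_om (wp j N) (wp_ok hN) m _ hP2 hO
  have hfive : W (z :: v :: x :: t) ≠ 5 := by
    refine H978R3.Wedge.no_five (wp j N) (wp_ok hN) ?_ hP2 hO
    intro x hx hOm
    rw [← wp_om h1 h5, mem_Sc] at hOm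
    obtain ⟨⟨-, h2, -⟩, -⟩ := hOm
    simp only at h2
    have := h2 le_rfl
    omega
  simp only [List.headD_cons] at hout
  rw [mem_Sc] at hv
  have hc := adj_cases ha
  have hz1 : ¬ (z.1 = 0 ∧ z.2 = 0) := fun h => hz0 (Prod.ext h.1 h.2)
  generalize W (z :: v :: x :: t) = w at hout hfive ⊢
  clear hl hP hval hval2 hP2 hO hg hlen hz hpe hz0
  unfold Out at hout
  obtain ⟨⟨w1, w2, w3⟩, hH⟩ := hv
  unfold Hg at hH
  unfold wp Slit at hout
  simp only at hout
  unfold Wk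
  interval_cases j <;> norm_num at hout w2 w3 ⊢ <;>
    rcases hout with h | h | h | h | h | h | h | h | h | h <;> omega

end Pool.Agent.H99B
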