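import Pool.Agent.H99B.Wed

set_option autoImplicit false

/-! The weight of the walks which end inside the wedge, for all finite domains. -/

namespace Pool.Agent.H99B

open H978R2.Hex Real

theorem val_mono {D E : V → Prop} (h : ∀ v, D v → E v) : ∀ {l : List V}, Val D l → Val E l
  | [], hl => hl.elim
  | [_], hl => hl.elim
  | [_, _], hl => hl
  | z :: y :: x :: t, hl => by
    obtain ⟨h1, h2, h3, h4, h5⟩ := hl
    exact ⟨h1, h2, h y h3, h4, val_mono h h5⟩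

/-- a finite part of the wedge is in a truncated wedge -/
theorem exists_N {j : ℕ} {D : Finset V} (hD : ∀ v ∈ D, Wk j v) :
    ∃ N : ℕ, 1 ≤ N ∧ ∀ v ∈ D, v ∈ Sc j N := by
  refine ⟨D.sup (fun v => v.1.natAbs + v.2.natAbs) + 1, by omega, fun v hv => ?_⟩
  rw [mem_Sc]
  refine ⟨hD v hv, ?_⟩
  have h := Finset.le_sup (f := fun v : V => v.1.natAbs + v.2.natAbs) hv
  generalize D.sup (fun v => v.1.natAbs + v.2.natAbs) = K at h ⊢
  unfold Hg
  push_cast
  omega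

/-- the turning of the walks which end on the sides of the wedge -/
theorem near_W {j : ℕ} (h1 : 1 ≤ j) (h5 : j ≤ 5) {D : Finset V} (hD : ∀ v ∈ D, Wk j v) {m : ℕ}
    {l : List V} (hl : l ∈ Ld D m) (hz : ¬ Wk j (l.headD (0, 0))) :
    W l = ((j : ℤ) + 3) / 2 ∨ W l = -(((j : ℤ) + 3 + 1) / 2) := by
  obtain ⟨N, hN, hsub⟩ := exists_N hD
  have hl2 : l ∈ Ld (Sc j N) m := by
    unfold Ld at hl ⊢
    rw [Finset.mem_filter] at hl ⊢
    have hval := H978R2.Hex.mem_P.1 hl.1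
    refine ⟨H978R2.Hex.mem_P.2 ⟨val_mono hsub hval.1, hval.2⟩, ?_⟩
    rw [mem_Sc]
    exact fun h => hz h.1
  rcases class_Sc hN h1 h5 hl2 with h | h
  · exact absurd h.1 hz
  · exact h.2

theorem adj_base' {j : ℕ} {D : Finset V} (hD : ∀ v ∈ D, Wk j v) {v : V} (hv : v ∈ D)
    (h : Adj v (0, 0)) : v = (1, 0) := by
  obtain ⟨N, hN, hsub⟩ := exists_N hD
  exact adj_base (hsub v hv) h

theorem slit_D {j : ℕ} {D : Finset V} (hD : ∀ v ∈ D, Wk j v) : ∀ v ∈ D, ¬ Slit v := by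
  obtain ⟨N, hN, hsub⟩ := exists_N hD
  exact fun v hv => slit_Sc v (hsub v hv)

theorem adj_symm' {v w : V} (h : Adj v w) : Adj w v := by
  obtain ⟨a, b⟩ := v
  obtain ⟨c, d⟩ := w
  simp only [Adj, Prod.mk.injEq, Prod.mk_sub_mk] at h ⊢
  rcases h with h | h | h | h
  · right; left; omega
  · left; omega
  · right; right; right
    exact ⟨by omega, h.2⟩
  · right; right; left
    exact ⟨by omega, h.2⟩

theorem Zw_D {j : ℕ} (n x : ℝ) {D : Finset V} (hD : ∀ v ∈ D, Wk j v) (h10 : (1, 0) ∈ D)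
    (R : V → Prop) [DecidablePred R] (hR : ∀ z, R z → z ∉ D) : Zw n x D R = x * Ms n x D R := by
  refine Zw_eq n x h10 (fun v hv ha => adj_base' hD hv (adj_symm' ha)) ?_ ?_ R hR
  · intro h
    have := (hD _ h).1 rfl
    simp only at this
    omega
  · intro m l hl
    exact end_ne h10 (fun v hv ha => adj_base' hD hv ha) hl

/-- the rotated real identity -/
theorem re_ident (c n x : ℝ) (hn : n = -2 * Real.cos (4 * c)) (hx : x * (2 * Real.cos c) = 1)
    {D : Finset V} (h1 : (1, 0) ∈ D) (hO : ∀ v ∈ D, ¬ Slit v) (φ : ℝ) :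
    ∑ m ∈ Finset.range (D.card + 2), x ^ m *
      ∑ l ∈ Ld D m, cos (W l * c + φ) * Lam n x (rest D l.tail) = cos φ * Lam n x D := by
  have h := congrArg (fun z => (Complex.exp ((φ : ℂ) * Complex.I) * z).re)
    (ident_loops c n x hn hx h1 hO)
  simp only [Complex.re_mul_ofReal, Complex.exp_ofReal_mul_I_re] at h
  rw [← h, Finset.mul_sum, Complex.re_sum]
  refine Finset.sum_congr rfl fun m _ => ?_
  have e1 : Complex.exp ((φ : ℂ) * Complex.I) * ((x : ℂ) ^ m *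
      ∑ l ∈ Ld D m, ph c l * Lam n x (rest D l.tail)) = ((x ^ m : ℝ) : ℂ) *
      ∑ l ∈ Ld D m, Complex.exp ((φ : ℂ) * Complex.I) * ph c l * Lam n x (rest D l.tail) := by
    rw [Finset.mul_sum, Finset.mul_sum, Finset.mul_sum]
    refine Finset.sum_congr rfl fun l _ => ?_
    push_cast
    ring
  rw [e1, Complex.re_ofReal_mul, Complex.re_sum]
  congr 1
  refine Finset.sum_congr rfl fun l _ => ?_
  have e2 : Complex.exp ((φ : ℂ) * Complex.I) * ph c l =
      Complex.exp (((W l * c + φ : ℝ) : ℂ) * Complex.I) := by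
    unfold ph
    rw [← Complex.exp_add]
    congr 1
    push_cast
    ring
  rw [e2, Complex.re_mul_ofReal, Complex.exp_ofReal_mul_I_re]

/-- the rotation angle: half of the difference of the two turnings -/
noncomputable def rot (j : ℕ) (c : ℝ) : ℝ :=
  -(((((j : ℤ) + 3) / 2 - ((j : ℤ) + 3 + 1) / 2 : ℤ) : ℝ) / 2 * c)

theorem rot_near {j : ℕ} (c : ℝ) {w : ℤ}
    (h : w = ((j : ℤ) + 3) / 2 ∨ w = -(((j : ℤ) + 3 + 1) / 2)) :
    cos (w * c + rot j c) = cos (((j : ℝ) + 3) / 2 * c) := by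
  have hs : ((j : ℤ) + 3) / 2 + ((j : ℤ) + 3 + 1) / 2 = j + 3 := by omega
  have hs' : ((((j : ℤ) + 3) / 2 : ℤ) : ℝ) + ((((j : ℤ) + 3 + 1) / 2 : ℤ) : ℝ) = (j : ℝ) + 3 := by
    exact_mod_cast hs
  unfold rot
  push_cast
  rcases h with rfl | rfl
  · congr 1
    rw [← hs']
    ring
  · rw [← Real.cos_neg]
    congr 1
    rw [← hs']
    push_cast
    ring

theorem rot_cos (j : ℕ) (c : ℝ) : cos (c / 2) ≤ cos (rot j c) := by
  have hs : ((j : ℤ) + 3) / 2 - ((j : ℤ) + 3 + 1) / 2 = 0 ∨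
      ((j : ℤ) + 3) / 2 - ((j : ℤ) + 3 + 1) / 2 = -1 := by omega
  unfold rot
  rcases hs with h | h
  · rw [h]
    simp only [Int.cast_zero, zero_div, zero_mul, neg_zero, Real.cos_zero]
    exact Real.cos_le_one _
  · rw [h]
    have e : -((((-1 : ℤ) : ℝ)) / 2 * c) = c / 2 := by push_cast; ring
    rw [e]

/-- splitting of the weight of the ends -/
theorem Ms_mono_sum {n x : ℝ} (hn : 0 ≤ n) (hx : 0 ≤ x) (D : Finset V) (R : V → Prop)
    [DecidablePred R] (g : ℤ → ℝ) (a : ℝ)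
    (hN : ∀ m, ∀ l ∈ Ld D m, ¬ R (l.headD (0, 0)) → g (W l) = a) (hF : ∀ w, g w ≤ 1) :
    ∑ m ∈ Finset.range (D.card + 2), x ^ m *
      ∑ l ∈ Ld D m, g (W l) * Lam n x (rest D l.tail) ≤
    Ms n x D R + a * Ms n x D (fun z => ¬ R z) := by
  unfold Ms
  rw [Finset.mul_sum, ← Finset.sum_add_distrib]
  refine Finset.sum_le_sum fun m _ => ?_
  have e : x ^ m * ∑ l ∈ (Ld D m).filter (fun l => R (l.headD (0, 0))), Lam n x (rest D l.tail) +
      a * (x ^ m * ∑ l ∈ (Ld D m).filter (fun l => ¬ R (l.headD (0, 0))),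
        Lam n x (rest D l.tail)) = x ^ m * (∑ l ∈ (Ld D m).filter (fun l => R (l.headD (0, 0))),
          Lam n x (rest D l.tail) + ∑ l ∈ (Ld D m).filter (fun l => ¬ R (l.headD (0, 0))),
        a * Lam n x (rest D l.tail)) := by
    rw [← Finset.mul_sum]
    ring
  rw [e]
  refine mul_le_mul_of_nonneg_left ?_ (pow_nonneg hx m)
  rw [← Finset.sum_filter_add_sum_filter_not (Ld D m) (fun l => R (l.headD (0, 0)))]
  refine add_le_add ?_ ?_
  · refine Finset.sum_le_sum fun l _ => ?_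
    have hL : 0 ≤ Lam n x (rest D l.tail) := by linarith [Lam_pos hn hx (rest D l.tail)]
    have := mul_le_mul_of_nonneg_right (hF (W l)) hL
    linarith
  · refine le_of_eq (Finset.sum_congr rfl fun l hl => ?_)
    rw [Finset.mem_filter] at hl
    rw [hN m l hl.1 hl.2]

/-- all finite domains in the wedge -/
theorem far_D {c n x : ℝ} (hn : n = -2 * Real.cos (4 * c)) (hx : x * (2 * Real.cos c) = 1)
    (hn0 : 0 ≤ n) (hx0 : 0 < x) {j : ℕ} (h1 : 1 ≤ j) (h5 : j ≤ 5) {D : Finset V}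
    (hD : ∀ v ∈ D, Wk j v) (h10 : (1, 0) ∈ D) :
    cos (rot j c) * Lam n x D ≤
      Ms n x D (Wk j) + cos (((j : ℝ) + 3) / 2 * c) * Ms n x D (fun z => ¬ Wk j z) := by
  rw [← re_ident c n x hn hx h10 (slit_D hD) (rot j c)]
  refine Ms_mono_sum hn0 hx0.le D (Wk j) (fun w => cos (w * c + rot j c)) _ ?_ ?_
  · intro m l hl hz
    exact rot_near c (near_W h1 h5 hD hl hz)
  · exact fun w => Real.cos_le_one _

/-- truncated wedges: the total weight -/
theorem total_Sc {c n x : ℝ} (hn : n = -2 * Real.cos (4 * c)) (hx : x * (2 * Real.cos c) = 1)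
    (hn0 : 0 ≤ n) (hx0 : 0 < x) (hc0 : 0 ≤ c) {j N : ℕ} (h1 : 1 ≤ j) (h5 : j ≤ 5)
    (hN : 1 ≤ N) (hcj : ((j : ℝ) + 3) / 2 * c ≤ π) :
    cos (((j : ℝ) + 3) / 2 * c) * Ms n x (Sc j N) (fun z => z ∉ Sc j N) ≤
      cos (rot j c) * Lam n x (Sc j N) := by
  rw [← re_ident c n x hn hx (base_Sc hN) slit_Sc (rot j c)]
  unfold Ms
  rw [Finset.mul_sum]
  refine Finset.sum_le_sum fun m _ => ?_
  rw [mul_left_comm]
  refine mul_le_mul_of_nonneg_left ?_ (pow_nonneg hx0.le m)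
  rw [Finset.mul_sum]
  have e : (Ld (Sc j N) m).filter (fun l => l.headD (0, 0) ∉ Sc j N) = Ld (Sc j N) m := by
    refine Finset.filter_true_of_mem fun l hl => ?_
    exact (Finset.mem_filter.1 hl).2
  rw [e]
  refine Finset.sum_le_sum fun l hl => ?_
  have hL : 0 ≤ Lam n x (rest (Sc j N) l.tail) := by
    linarith [Lam_pos hn0 hx0.le (rest (Sc j N) l.tail)]
  refine mul_le_mul_of_nonneg_right ?_ hL
  have hcl := class_Sc hN h1 h5 hl
  have hw : -(((j : ℤ) + 3 + 1) / 2) ≤ W l ∧ W l ≤ ((j : ℤ) + 3) / 2 := by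
    rcases hcl with ⟨-, h, h'⟩ | ⟨-, h | h⟩ <;> omega
  have hs : ((j : ℤ) + 3) / 2 + ((j : ℤ) + 3 + 1) / 2 = j + 3 := by omega
  have hs' : ((((j : ℤ) + 3) / 2 : ℤ) : ℝ) + ((((j : ℤ) + 3 + 1) / 2 : ℤ) : ℝ) = (j : ℝ) + 3 := by
    exact_mod_cast hs
  have hw1 : -(((((j : ℤ) + 3 + 1) / 2 : ℤ)) : ℝ) ≤ W l := by exact_mod_cast hw.1
  have hw2 : ((W l : ℤ) : ℝ) ≤ ((((j : ℤ) + 3) / 2 : ℤ) : ℝ) := by exact_mod_cast hw.2
  have habs : |(W l : ℝ) * c + rot j c| ≤ ((j : ℝ) + 3) / 2 * c := by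
    unfold rot
    push_cast
    rw [← hs', abs_le]
    constructor
    · have := mul_le_mul_of_nonneg_right hw1 hc0
      linarith
    · have := mul_le_mul_of_nonneg_right hw2 hc0
      linarith
  rw [← Real.cos_abs ((W l : ℝ) * c + rot j c)]
  exact Real.cos_le_cos_of_nonneg_of_le_pi (abs_nonneg _) hcj habs

/-- the neighbours -/
def nb (v : V) : Finset V := {(v.1 + 1, v.2), (v.1 - 1, v.2), (v.1, v.2 + 1), (v.1, v.2 - 1)}

theorem mem_nb {v z : V} (h : Adj v z) : z ∈ nb v := by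
  obtain ⟨a, b⟩ := v
  obtain ⟨c, d⟩ := z
  simp only [Adj, Prod.mk.injEq, Prod.mk_sub_mk] at h
  simp only [nb, Finset.mem_insert, Finset.mem_singleton, Prod.mk.injEq]
  omega

open Classical in
/-- the boundary of `D` in the wedge -/
noncomputable def bdr (j : ℕ) (D : Finset V) : Finset V :=
  (D.biUnion nb).filter (fun z => Wk j z ∧ z ∉ D ∧ ∃ v ∈ D, Adj v z)

theorem mem_bdr {j : ℕ} {D : Finset V} {z : V} :
    z ∈ bdr j D ↔ Wk j z ∧ z ∉ D ∧ ∃ v ∈ D, Adj v z := by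
  classical
  unfold bdr
  rw [Finset.mem_filter, Finset.mem_biUnion]
  constructor
  · exact fun h => h.2
  · intro h
    obtain ⟨v, hv, ha⟩ := h.2.2
    exact ⟨⟨v, hv, mem_nb ha⟩, h⟩

theorem one_bdr {n x : ℝ} (hn : 0 ≤ n) (hx : 0 ≤ x) {j : ℕ} {D : Finset V} (h10 : (1, 0) ∈ D)
    {A : ℝ} (hA : 0 < A) (h : A ≤ Ms n x D (Wk j)) :
    ∃ z ∈ bdr j D, A / (bdr j D).card ≤ Ms n x D (fun w => w = z) := by
  have hs := Ms_split n x D (Wk j) (bdr j D) (fun z hz => (mem_bdr.1 hz).1) (by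
    intro m l hl hz
    obtain ⟨z, v, x', t, rfl, hv, ha, hzx, hzD, hg, hlen⟩ := Ld_struct h10 hl
    simp only [List.headD_cons] at hz ⊢
    exact mem_bdr.2 ⟨hz, hzD, v, hv, ha⟩)
  by_contra hcon
  push Not at hcon
  rcases (bdr j D).eq_empty_or_nonempty with he | hne
  · rw [he, Finset.sum_empty] at hs
    linarith
  · have hlt : ∑ z ∈ bdr j D, Ms n x D (fun w => w = z) < ∑ _z ∈ bdr j D, A / (bdr j D).card :=
      Finset.sum_lt_sum_of_nonempty hne hcon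
    rw [Finset.sum_const, nsmul_eq_mul] at hlt
    have hc : (0 : ℝ) < (bdr j D).card := by exact_mod_cast hne.card_pos
    have e : ((bdr j D).card : ℝ) * (A / (bdr j D).card) = A := by field_simp
    linarith

end Pool.Agent.H99B
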