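import Pool.Agent.H99B.WedA

set_option autoImplicit false

/-! The statements for wedges in terms of `κ`. -/

namespace Pool.Agent.H99B

open H978R2.Hex Real

theorem Pr.c_facts {κ n x : ℝ} (h : Pr κ n x) :
    n = -2 * cos (4 * (π / 2 - π / κ)) ∧ x * (2 * cos (π / 2 - π / κ)) = 1 ∧
      0 ≤ π / 2 - π / κ ∧ π / 2 - π / κ ≤ 3 * π / 8 := by
  have hpi := pi_pos
  have h1 := h.ang
  refine ⟨?_, ?_, by linarith [h1.2], by linarith [h1.1]⟩
  · have e : 4 * (π / 2 - π / κ) = 2 * π - 4 * π / κ := by ring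
    rw [e, cos_two_pi_sub, h.hn]
  · rw [cos_pi_div_two_sub]
    exact h.hxx

theorem ang_eq (κ : ℝ) (j : ℕ) :
    ((j : ℝ) + 3) / 2 * (π / 2 - π / κ) = ((j : ℝ) + 3) * (π / 4 - π / (2 * κ)) := by
  have e : π / (2 * κ) = π / κ / 2 := by rw [div_div]; ring_nf
  rw [e]
  ring

theorem half_eq (κ : ℝ) : (π / 2 - π / κ) / 2 = π / 4 - π / (2 * κ) := by
  have e : π / (2 * κ) = π / κ / 2 := by rw [div_div]; ring_nf
  rw [e]
  ring

theorem thr {κ n x : ℝ} (h : Pr κ n x) (j : ℕ) :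
    (2 * ((j : ℝ) + 3) ≤ (j + 1) * κ → π / 2 ≤ ((j : ℝ) + 3) / 2 * (π / 2 - π / κ)) ∧
    ((j + 1) * κ < 2 * ((j : ℝ) + 3) → ((j : ℝ) + 3) / 2 * (π / 2 - π / κ) < π / 2) := by
  have hpi := pi_pos
  have hk : 0 < κ := by linarith [h.k1]
  have e : ((j : ℝ) + 3) / 2 * (π / 2 - π / κ) - π / 2 =
      π / (4 * κ) * ((j + 1) * κ - 2 * ((j : ℝ) + 3)) := by
    field_simp
    ring
  have hp : 0 < π / (4 * κ) := by positivity
  constructor
  · intro hj
    have := mul_nonneg hp.le (sub_nonneg.2 hj)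
    linarith
  · intro hj
    have := mul_pos hp (sub_pos.2 hj)
    have e2 : π / (4 * κ) * ((j + 1) * κ - 2 * ((j : ℝ) + 3)) =
      -(π / (4 * κ) * (2 * ((j : ℝ) + 3) - (j + 1) * κ)) := by ring
    linarith

/-- lower bound for the weight of the walks which end inside the wedge -/
theorem wedge_lower {κ n x : ℝ} (h : Pr κ n x) {j : ℕ} (h1 : 1 ≤ j) (h5 : j ≤ 5)
    (hj : 2 * ((j : ℝ) + 3) ≤ (j + 1) * κ) {D : Finset V} (hD : ∀ v ∈ D, Wk j v)
    (h10 : (1, 0) ∈ D) :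
    cos (π / 4 - π / (2 * κ)) * Lam n x D +
      |cos (((j : ℝ) + 3) * (π / 4 - π / (2 * κ)))| * Ms n x D (fun z => ¬ Wk j z) ≤
      Ms n x D (Wk j) := by
  have hpi := pi_pos
  obtain ⟨c1, c2, c3, c4⟩ := h.c_facts
  have hn := h.n_nonneg
  have hx := h.hx
  have hf := far_D c1 c2 hn hx h1 h5 hD h10
  have hr := rot_cos j (π / 2 - π / κ)
  have hL : 0 ≤ Lam n x D := by linarith [Lam_pos hn hx.le D]
  rw [half_eq] at hr
  have hneg : cos (((j : ℝ) + 3) / 2 * (π / 2 - π / κ)) ≤ 0 := by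
    apply cos_nonpos_of_pi_div_two_le_of_le
    · exact (thr h j).1 hj
    · have hj5 : (j : ℝ) ≤ 5 := by exact_mod_cast h5
      have : ((j : ℝ) + 3) / 2 * (π / 2 - π / κ) ≤ 4 * (3 * π / 8) :=
        mul_le_mul (by linarith) c4 c3 (by norm_num)
      linarith
  rw [ang_eq] at hf hneg
  rw [abs_of_nonpos hneg]
  have := mul_le_mul_of_nonneg_right hr hL
  linarith

/-- upper bound for the total weight in truncated wedges -/
theorem wedge_upper {κ n x : ℝ} (h : Pr κ n x) {j N : ℕ} (h1 : 1 ≤ j) (h5 : j ≤ 5) (hN : 1 ≤ N)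
    (hj : (j + 1) * κ < 2 * ((j : ℝ) + 3)) :
    0 < cos (((j : ℝ) + 3) * (π / 4 - π / (2 * κ))) ∧
    Ms n x (Sc j N) (fun z => z ∉ Sc j N) ≤
      Lam n x (Sc j N) / cos (((j : ℝ) + 3) * (π / 4 - π / (2 * κ))) := by
  have hpi := pi_pos
  obtain ⟨c1, c2, c3, c4⟩ := h.c_facts
  have hn := h.n_nonneg
  have hx := h.hx
  have ht := (thr h j).2 hj
  have h0 : 0 ≤ ((j : ℝ) + 3) / 2 * (π / 2 - π / κ) := mul_nonneg (by positivity) c3
  have hf := total_Sc c1 c2 hn hx c3 h1 h5 hN (by linarith)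
  have hpos : 0 < cos (((j : ℝ) + 3) / 2 * (π / 2 - π / κ)) :=
    cos_pos_of_mem_Ioo ⟨by linarith, ht⟩
  rw [ang_eq] at hf hpos
  refine ⟨hpos, ?_⟩
  rw [le_div_iff₀ hpos, mul_comm]
  refine hf.trans ?_
  have hL : 0 ≤ Lam n x (Sc j N) := by linarith [Lam_pos hn hx.le (Sc j N)]
  have := mul_le_mul_of_nonneg_right (Real.cos_le_one (rot j (π / 2 - π / κ))) hL
  linarith

end Pool.Agent.H99B
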